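import Pool.Agent.H39.FD.Defs

/-!
ROW Hoe (project MP_493793_FD, about 60 lines): a lower bound for a first moment from the second and fourth moments.

PROOF. For every real `x ≥ 0`: `x ^ 2 - 4 / 27 * x ^ 4 ≤ x` (`x - x ^ 2 + 4 / 27 * x ^ 4 = x * (4 / 27) * (x + 3) * (x - 3 / 2) ^ 2`, check by `ring`). Apply it to `x = u i / t` with `t = 4 * √w * ℓ > 0` and multiply by `t`:
`u i ≥ u i ^ 2 / t - 4 / 27 * u i ^ 4 / t ^ 3`. Sum: `∑ u ≥ (∑ u ^ 2) / t - (4 / 27) (∑ u ^ 4) / t ^ 3 ≥ card * w / t - (4 / 27) * 48 * card * w ^ 2 * ℓ ^ 2 / t ^ 3`. With `√w ^ 2 = w`: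
`w / t = √w / (4 ℓ)`, `w ^ 2 ℓ ^ 2 / t ^ 3 = √w / (64 ℓ)`, so the sum is `≥ card * (√w / ℓ) * (1 / 4 - (4 / 27) * 48 / 64) = card * (√w / ℓ) * (1 / 4 - 1 / 9) ≥ card * √w / (8 ℓ)`. Substitute `w = s ^ 2`, `s = √w`.
-/

set_option autoImplicit false

namespace FD39

open Finset

private lemma Hoe_pt {x t : ℝ} (hx : 0 ≤ x) (ht : 0 < t) :
    x ^ 2 / t - 4 / 27 * (x ^ 4 / t ^ 3) ≤ x := by
  have h1 : x - (x ^ 2 / t - 4 / 27 * (x ^ 4 / t ^ 3)) =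
      t * ((x / t) * (4 / 27) * (x / t + 3) * (x / t - 3 / 2) ^ 2) := by
    field_simp
    ring
  have h2 : 0 ≤ t * ((x / t) * (4 / 27) * (x / t + 3) * (x / t - 3 / 2) ^ 2) := by positivity
  rw [← h1] at h2
  linarith

theorem hoelder_lower {ι : Type*} (s : Finset ι) (u : ι → ℝ) (hu : ∀ i ∈ s, 0 ≤ u i) {n w ℓ : ℝ}
    (hn : 0 ≤ n) (hw : 0 < w) (hℓ : 1 ≤ ℓ) (h2 : n * w ≤ ∑ i ∈ s, u i ^ 2)
    (h4 : ∑ i ∈ s, u i ^ 4 ≤ 48 * n * (w ^ 2 * ℓ ^ 2)) :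
    n * √w / (8 * ℓ) ≤ ∑ i ∈ s, u i := by
  obtain ⟨r, hr⟩ : ∃ r, r = √w := ⟨_, rfl⟩
  have hr0 : 0 < r := by
    rw [hr]
    exact Real.sqrt_pos.2 hw
  have hwr : w = r ^ 2 := by
    rw [hr, Real.sq_sqrt hw.le]
  have hℓ0 : 0 < ℓ := by linarith
  obtain ⟨t, ht⟩ : ∃ t, t = 4 * r * ℓ := ⟨_, rfl⟩
  have ht0 : 0 < t := by
    rw [ht]
    positivity
  have h5 : ∑ i ∈ s, (u i ^ 2 / t - 4 / 27 * (u i ^ 4 / t ^ 3)) ≤ ∑ i ∈ s, u i :=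
    sum_le_sum fun i hi => Hoe_pt (hu i hi) ht0
  rw [sum_sub_distrib, ← mul_sum, ← sum_div, ← sum_div] at h5
  have h6 : n * w / t ≤ (∑ i ∈ s, u i ^ 2) / t := div_le_div_of_nonneg_right h2 ht0.le
  have h7 : (∑ i ∈ s, u i ^ 4) / t ^ 3 ≤ 48 * n * (w ^ 2 * ℓ ^ 2) / t ^ 3 :=
    div_le_div_of_nonneg_right h4 (by positivity)
  have h8 : n * w / t - 4 / 27 * (48 * n * (w ^ 2 * ℓ ^ 2) / t ^ 3) = 5 / 36 * (n * r / ℓ) := by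
    rw [hwr, ht]
    field_simp
    ring
  have h9 : n * √w / (8 * ℓ) = 1 / 8 * (n * r / ℓ) := by
    rw [← hr]
    field_simp
  have h10 : 0 ≤ n * r / ℓ := by positivity
  rw [h9]
  linarith

end FD39
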