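import Pool.Agent.H39.FD.Defs

/-! Module Geo (project MP_493793_FD): geometric sums. -/

set_option autoImplicit false

namespace FD39

open Finset

theorem sum_ex_int_div {M : ℕ} (hM : 0 < M) {k : ℤ} (hk : |k| < M) :
    ∑ j ∈ range M, ex (k * (j / M)) = if k = 0 then (M : ℂ) else 0 := by
  have hM0 : (M : ℝ) ≠ 0 := by exact_mod_cast hM.ne'
  split_ifs with h
  · subst h
    simp [ex_zero]
  · have e1 : ∀ j : ℕ, ex (k * ((j : ℝ) / M)) = ex (k / M) ^ j := by
      intro j
      rw [← ex_nat_mul]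
      congr 1
      field_simp
    rw [Finset.sum_congr rfl fun j _ => e1 j]
    have h1 : ex ((k : ℝ) / M) ≠ 1 := by
      intro h2
      have h3 := norm_ex_sub_one ((k : ℝ) / M)
      rw [h2, sub_self, norm_zero] at h3
      have h4 : Real.sin (Real.pi * ((k : ℝ) / M)) = 0 := by
        have : |Real.sin (Real.pi * ((k : ℝ) / M))| = 0 := by linarith
        exact abs_eq_zero.mp this
      rw [Real.sin_eq_zero_iff] at h4
      obtain ⟨n, hn⟩ := h4
      have h5 : (n : ℝ) * M = k := by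
        have h6 : Real.pi * (n * M) = Real.pi * k := by
          have : Real.pi * ((k : ℝ) / M) * M = Real.pi * k := by field_simp
          rw [← this, ← hn]; ring
        exact mul_left_cancel₀ Real.pi_ne_zero h6
      have h7 : n * (M : ℤ) = k := by exact_mod_cast h5
      rw [← h7, abs_mul, Nat.abs_cast] at hk
      have h8 : |n| < 1 := by
        by_contra h9
        push Not at h9
        have : (M : ℤ) ≤ |n| * M := by nlinarith [Int.natCast_nonneg M]
        omega
      have h10 : n = 0 := Int.abs_lt_one_iff.mp h8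
      apply h
      rw [← h7, h10, zero_mul]
    have h2 : ex ((k : ℝ) / M) ^ M = 1 := by
      rw [← ex_nat_mul, show (M : ℝ) * (k / M) = k by field_simp]
      exact ex_int k
    have h3 := geom_sum_mul (ex ((k : ℝ) / M)) M
    rw [h2, sub_self] at h3
    exact (mul_eq_zero.mp h3).resolve_right (sub_ne_zero.mpr h1)

theorem norm_sum_ex_le {θ : ℝ} (h0 : θ ≠ 0) (h1 : |θ| ≤ 1 / 2) (L : ℕ) :
    ‖∑ l ∈ range L, ex (θ * l)‖ ≤ 1 / (2 * |θ|) := by
  have hθ : 0 < |θ| := abs_pos.mpr h0
  have e1 : ∀ j : ℕ, ex (θ * (j : ℝ)) = ex θ ^ j := by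
    intro j
    rw [← ex_nat_mul]
    congr 1
    ring
  rw [Finset.sum_congr rfl fun j _ => e1 j]
  have h2 := geom_sum_mul (ex θ) L
  have h3 : ‖ex θ - 1‖ = 2 * |Real.sin (Real.pi * θ)| := norm_ex_sub_one θ
  have h4 : 2 * |θ| ≤ |Real.sin (Real.pi * θ)| := by
    rcases le_or_gt 0 θ with h5 | h5
    · rw [abs_of_nonneg h5] at h1 ⊢
      exact (two_mul_le_sin h5 h1).trans (le_abs_self _)
    · rw [abs_of_neg h5] at h1 ⊢
      have h6 := two_mul_le_sin (x := -θ) (by linarith) h1
      rw [show Real.pi * -θ = -(Real.pi * θ) by ring, Real.sin_neg] at h6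
      have := neg_abs_le (Real.sin (Real.pi * θ))
      linarith
  have h5 : ‖ex θ ^ L - 1‖ ≤ 2 := by
    refine (norm_sub_le _ _).trans ?_
    rw [norm_pow, norm_ex, one_pow, norm_one]
    norm_num
  have h6 : ‖∑ l ∈ range L, ex θ ^ l‖ * (4 * |θ|) ≤ 2 := by
    calc ‖∑ l ∈ range L, ex θ ^ l‖ * (4 * |θ|) ≤ ‖∑ l ∈ range L, ex θ ^ l‖ * ‖ex θ - 1‖ := by
          apply mul_le_mul_of_nonneg_left _ (norm_nonneg _)
          rw [h3]; linarith
      _ = ‖ex θ ^ L - 1‖ := by rw [← norm_mul, h2]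
      _ ≤ 2 := h5
  rw [le_div_iff₀ (by positivity)]
  linarith

end FD39
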