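import Pool.Agent.H39.FD.Defs
import Pool.Agent.H39.FD.Geo

/-!
ROW Mom2 (project MP_493793_FD, about 60 lines): second moment of a twisted block sum.

PROOF. `(‖z‖^2 : ℂ) = z * conj z` (`Complex.mul_conj`, `Complex.normSq_eq_norm_sq`). Expand `T * conj T` (`map_sum`, `Finset.sum_mul_sum`, `conj_ex`): it is
`∑ m, ∑ m', a m * conj (a m') * ex (γ * ((n0+m)^2 - (n0+m')^2)) * ex ((m - m' : ℤ) * (k / M))`. Sum over `k` first (`Finset.sum_comm`), `sum_ex_int_div` (file Geo; `|m - m'| < w ≤ M`) gives `M` if `m = m'`, else `0`;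
for `m = m'` the factor `ex 0 = 1`. Cast to `ℂ` (`Complex.ofReal_injective`).
-/

set_option autoImplicit false

namespace FD39

open Finset

lemma mom2_sq (z : ℂ) : ((‖z‖ ^ 2 : ℝ) : ℂ) = z * (starRingEnd ℂ) z := by
  rw [Complex.mul_conj, Complex.normSq_eq_norm_sq]

lemma mom2_term (a : ℕ → ℂ) (n0 : ℕ) (γ t : ℝ) (m m' : ℕ) :
    (a m * ex (t * ((n0 + m : ℕ) : ℝ) + γ * ((n0 + m : ℕ) : ℝ) ^ 2)) *
      (starRingEnd ℂ) (a m' * ex (t * ((n0 + m' : ℕ) : ℝ) + γ * ((n0 + m' : ℕ) : ℝ) ^ 2)) =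
    (a m * ex (γ * ((n0 + m : ℕ) : ℝ) ^ 2)) * (starRingEnd ℂ) (a m' * ex (γ * ((n0 + m' : ℕ) : ℝ) ^ 2)) *
      ex ((((m : ℤ) - (m' : ℤ) : ℤ) : ℝ) * t) := by
  have h : ex ((((m : ℤ) - (m' : ℤ) : ℤ) : ℝ) * t) =
      ex (t * ((n0 + m : ℕ) : ℝ)) * (starRingEnd ℂ) (ex (t * ((n0 + m' : ℕ) : ℝ))) := by
    rw [conj_ex, ← ex_add]
    congr 1
    push_cast
    ring
  rw [h, ex_add, ex_add, map_mul, map_mul, map_mul]
  ring

theorem mom2 (a : ℕ → ℂ) (n0 : ℕ) {w M : ℕ} (hM : 0 < M) (hw : w ≤ M) (γ : ℝ) :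
    ∑ k ∈ range M, ‖T a n0 w (k / M) γ‖ ^ 2 = M * ∑ m ∈ range w, ‖a m‖ ^ 2 := by
  apply Complex.ofReal_injective
  rw [Complex.ofReal_sum]
  have h1 : ∀ k : ℕ, ((‖T a n0 w ((k : ℝ) / M) γ‖ ^ 2 : ℝ) : ℂ) =
      ∑ m ∈ range w, ∑ m' ∈ range w,
        (a m * ex (γ * ((n0 + m : ℕ) : ℝ) ^ 2)) * (starRingEnd ℂ) (a m' * ex (γ * ((n0 + m' : ℕ) : ℝ) ^ 2)) *
        ex ((((m : ℤ) - (m' : ℤ) : ℤ) : ℝ) * ((k : ℝ) / M)) := by
    intro k
    rw [mom2_sq]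
    unfold T
    rw [map_sum, Finset.sum_mul_sum]
    exact Finset.sum_congr rfl fun m _ => Finset.sum_congr rfl fun m' _ => mom2_term a n0 γ _ m m'
  rw [Finset.sum_congr rfl fun k _ => h1 k, Finset.sum_comm]
  rw [Complex.ofReal_mul, Complex.ofReal_sum, Complex.ofReal_natCast, Finset.mul_sum]
  refine Finset.sum_congr rfl fun m hm => ?_
  rw [Finset.sum_comm]
  have hm' := Finset.mem_range.mp hm
  rw [Finset.sum_eq_single m]
  · rw [← Finset.mul_sum, sum_ex_int_div hM (by simpa using hM), if_pos (sub_self _), mom2_sq, map_mul,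
      conj_ex]
    have h2 : ex (γ * ((n0 + m : ℕ) : ℝ) ^ 2) * ex (-(γ * ((n0 + m : ℕ) : ℝ) ^ 2)) = 1 := by
      rw [← ex_add, add_neg_cancel, ex_zero]
    calc a m * ex (γ * ((n0 + m : ℕ) : ℝ) ^ 2) *
          ((starRingEnd ℂ) (a m) * ex (-(γ * ((n0 + m : ℕ) : ℝ) ^ 2))) * (M : ℂ)
        = (ex (γ * ((n0 + m : ℕ) : ℝ) ^ 2) * ex (-(γ * ((n0 + m : ℕ) : ℝ) ^ 2))) *
          ((M : ℂ) * (a m * (starRingEnd ℂ) (a m))) := by ring
      _ = (M : ℂ) * (a m * (starRingEnd ℂ) (a m)) := by rw [h2, one_mul]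
  · intro m' hm1 hne
    have hm1' := Finset.mem_range.mp hm1
    rw [← Finset.mul_sum, sum_ex_int_div hM (by rw [abs_lt]; omega), if_neg (by omega), mul_zero]
  · intro h
    exact absurd hm h

end FD39
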