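import Pool.Agent.H39.FD.Defs

/-!
ROW Ker (project MP_493793_FD, about 90 lines): the sum of the kernel.

PROOF. Fix `m3`. For `m1, m2` with `(m1 - m3)(m3 - m2) = 0` (that is `m1 = m3` or `m2 = m3`) the kernel is `1`, at most `2 w` pairs. For the other pairs it is `1 / (4 Γ) * (1 / |m1 - m3|) * (1 / |m3 - m2|)`; the sum over them is
`1 / (4 Γ) * (∑_{m1 ≠ m3} 1 / |m1 - m3|) * (∑_{m2 ≠ m3} 1 / |m3 - m2|) ≤ 1 / (4 Γ) * (2 (1 + log w))^2 ≤ w (1 + log w)^2` (as `1 / Γ ≤ w`), because `∑_{m ∈ range w, m ≠ m3} 1 / |m - m3| ≤ 2 ∑_{1 ≤ d < w} 1 / d ≤ 2 (1 + log w)`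
(`harmonic_le_one_add_log`, `harmonic`; split the range at `m3`). So the sum over `m1, m2` is `≤ 2 w + w (1 + log w)^2 ≤ 3 w (1 + log w)^2` (`log w ≥ 0`), and there are `w` values of `m3` (`Finset.sum_comm` to bring `m3` outside).
Convenient: `Ker Γ a b ≤ (if a = 0 then 1 else 0) + (if b = 0 then 1 else 0) + (1 / (4 Γ)) * ((if a = 0 then 0 else 1 / |a|) * (if b = 0 then 0 else 1 / |b|))`.
-/

set_option autoImplicit false

namespace FD39

open Finset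

lemma Ker_aux_le {Γ : ℝ} (hΓ : 0 < Γ) (a b : ℝ) :
    Ker Γ a b ≤ (if a = 0 then 1 else 0) + (if b = 0 then 1 else 0) +
      1 / (4 * Γ) * (|a|⁻¹ * |b|⁻¹) := by
  have hc : 0 ≤ 1 / (4 * Γ) * (|a|⁻¹ * |b|⁻¹) := by positivity
  unfold Ker
  by_cases ha : a = 0
  · subst ha
    rw [if_pos (by ring), if_pos rfl]
    have : (0 : ℝ) ≤ (if b = 0 then 1 else 0) := by split_ifs <;> norm_num
    linarith
  · by_cases hb : b = 0
    · subst hb
      rw [if_pos (by ring), if_neg ha, if_pos rfl]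
      linarith
    · rw [if_neg (mul_ne_zero ha hb), if_neg ha, if_neg hb, abs_mul]
      have h1 : |a| ≠ 0 := abs_ne_zero.mpr ha
      have h2 : |b| ≠ 0 := abs_ne_zero.mpr hb
      apply le_of_eq
      field_simp
      ring

lemma Ker_aux_harm {n w : ℕ} (h : n ≤ w) (hw : 1 ≤ w) :
    ∑ i ∈ range n, ((i : ℝ) + 1)⁻¹ ≤ 1 + Real.log w := by
  have h1 : ∑ i ∈ range n, ((i : ℝ) + 1)⁻¹ = ((harmonic n : ℚ) : ℝ) := by
    unfold harmonic
    push_cast
    rfl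
  rw [h1]
  refine (harmonic_le_one_add_log n).trans ?_
  rcases Nat.eq_zero_or_pos n with h0 | h0
  · subst h0
    have : 0 ≤ Real.log (w : ℝ) := Real.log_nonneg (by exact_mod_cast hw)
    simpa using this
  · have : Real.log (n : ℝ) ≤ Real.log (w : ℝ) :=
      Real.log_le_log (by exact_mod_cast h0) (by exact_mod_cast h)
    linarith

lemma Ker_aux_sum {m w : ℕ} (hm : m < w) :
    ∑ i ∈ range w, |(i : ℝ) - m|⁻¹ ≤ 2 * (1 + Real.log w) := by
  have hw : 1 ≤ w := by omega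
  have hsplit : ∑ i ∈ range w, |(i : ℝ) - m|⁻¹ =
      ∑ i ∈ range m, |(i : ℝ) - m|⁻¹ + ∑ i ∈ Ico m w, |(i : ℝ) - m|⁻¹ := by
    rw [Finset.range_eq_Ico, Finset.range_eq_Ico,
      Finset.sum_Ico_consecutive _ (Nat.zero_le m) hm.le]
  have h1 : ∑ i ∈ range m, |(i : ℝ) - m|⁻¹ ≤ 1 + Real.log w := by
    rw [← Finset.sum_range_reflect]
    refine le_trans (le_of_eq ?_) (Ker_aux_harm hm.le hw)
    refine Finset.sum_congr rfl fun i hi => ?_
    have hi' : i < m := Finset.mem_range.mp hi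
    have e : ((m - 1 - i : ℕ) : ℝ) = (m : ℝ) - 1 - i := by
      rw [Nat.cast_sub (by omega), Nat.cast_sub (by omega)]
      push_cast
      ring
    rw [e, show (m : ℝ) - 1 - i - m = -((i : ℝ) + 1) by ring, abs_neg,
      abs_of_nonneg (by positivity)]
  have h2 : ∑ i ∈ Ico m w, |(i : ℝ) - m|⁻¹ ≤ 1 + Real.log w := by
    rw [Finset.sum_Ico_eq_sum_range]
    obtain ⟨k, hk⟩ : ∃ k, w - m = k + 1 := ⟨w - m - 1, by omega⟩
    rw [hk, Finset.sum_range_succ']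
    have e0 : |((m + 0 : ℕ) : ℝ) - m|⁻¹ = 0 := by simp
    rw [e0, add_zero]
    refine le_trans (le_of_eq ?_) (Ker_aux_harm (n := k) (by omega) hw)
    refine Finset.sum_congr rfl fun i _ => ?_
    have e : ((m + (i + 1) : ℕ) : ℝ) - m = (i : ℝ) + 1 := by
      push_cast
      ring
    rw [e, abs_of_nonneg (by positivity)]
  rw [hsplit]
  linarith

theorem kernel_sum {w : ℕ} (hw : 1 ≤ w) {Γ : ℝ} (hΓ : 0 < Γ) (hwΓ : 1 ≤ w * Γ) :
    ∑ m1 ∈ range w, ∑ m2 ∈ range w, ∑ m3 ∈ range w,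
      Ker Γ ((m1 : ℝ) - m3) ((m3 : ℝ) - m2) ≤ 3 * ((w : ℝ) ^ 2 * (1 + Real.log w) ^ 2) := by
  have hlog : 0 ≤ Real.log (w : ℝ) := Real.log_nonneg (by exact_mod_cast hw)
  have hw0 : (0 : ℝ) < w := by exact_mod_cast hw
  have e1 : ∑ m1 ∈ range w, ∑ m2 ∈ range w, ∑ m3 ∈ range w,
      Ker Γ ((m1 : ℝ) - m3) ((m3 : ℝ) - m2) =
      ∑ m3 ∈ range w, ∑ m1 ∈ range w, ∑ m2 ∈ range w,
      Ker Γ ((m1 : ℝ) - m3) ((m3 : ℝ) - m2) := by
    rw [Finset.sum_comm' (s := range w) (t := fun _ => range w) (t' := range w)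
      (s' := fun _ => range w) (by simp)]
    rw [Finset.sum_congr rfl fun m2 _ => Finset.sum_comm]
    rw [Finset.sum_comm]
    exact Finset.sum_congr rfl fun m3 _ => Finset.sum_comm
  rw [e1]
  have key : ∀ m3 ∈ range w, ∑ m1 ∈ range w, ∑ m2 ∈ range w,
      Ker Γ ((m1 : ℝ) - m3) ((m3 : ℝ) - m2) ≤ 3 * ((w : ℝ) * (1 + Real.log w) ^ 2) := by
    intro m3 hm3
    have hm3' : m3 < w := Finset.mem_range.mp hm3
    have hind : ∑ m1 ∈ range w, (if (m1 : ℝ) - m3 = 0 then (1 : ℝ) else 0) ≤ 1 := by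
      have : ∀ m1 ∈ range w, (if (m1 : ℝ) - m3 = 0 then (1 : ℝ) else 0) =
          if m1 = m3 then 1 else 0 := by
        intro m1 _
        by_cases h : m1 = m3
        · subst h; simp
        · rw [if_neg h, if_neg]
          intro h'
          exact h (by exact_mod_cast sub_eq_zero.mp h')
      rw [Finset.sum_congr rfl this, Finset.sum_ite_eq']
      split_ifs <;> norm_num
    have hind2 : ∑ m2 ∈ range w, (if (m3 : ℝ) - m2 = 0 then (1 : ℝ) else 0) ≤ 1 := by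
      have : ∀ m2 ∈ range w, (if (m3 : ℝ) - m2 = 0 then (1 : ℝ) else 0) =
          if (m2 : ℝ) - m3 = 0 then (1 : ℝ) else 0 := by
        intro m2 _
        by_cases h : (m2 : ℝ) - m3 = 0
        · rw [if_pos h, if_pos (by linarith)]
        · rw [if_neg h, if_neg (fun h' => h (by linarith))]
      rw [Finset.sum_congr rfl this]
      exact hind
    have hH : ∑ m1 ∈ range w, |(m1 : ℝ) - m3|⁻¹ ≤ 2 * (1 + Real.log w) := Ker_aux_sum hm3'
    have hH2 : ∑ m2 ∈ range w, |(m3 : ℝ) - m2|⁻¹ ≤ 2 * (1 + Real.log w) := by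
      rw [Finset.sum_congr rfl fun m2 _ => by rw [abs_sub_comm]]
      exact hH
    have hH0 : 0 ≤ ∑ m1 ∈ range w, |(m1 : ℝ) - m3|⁻¹ := Finset.sum_nonneg fun _ _ => by positivity
    have hH20 : 0 ≤ ∑ m2 ∈ range w, |(m3 : ℝ) - m2|⁻¹ := Finset.sum_nonneg fun _ _ => by positivity
    calc ∑ m1 ∈ range w, ∑ m2 ∈ range w, Ker Γ ((m1 : ℝ) - m3) ((m3 : ℝ) - m2)
        ≤ ∑ m1 ∈ range w, ∑ m2 ∈ range w,
          ((if (m1 : ℝ) - m3 = 0 then (1 : ℝ) else 0) + (if (m3 : ℝ) - m2 = 0 then (1 : ℝ) else 0) +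
            1 / (4 * Γ) * (|(m1 : ℝ) - m3|⁻¹ * |(m3 : ℝ) - m2|⁻¹)) :=
          Finset.sum_le_sum fun m1 _ => Finset.sum_le_sum fun m2 _ => Ker_aux_le hΓ _ _
      _ = (w : ℝ) * (∑ m1 ∈ range w, (if (m1 : ℝ) - m3 = 0 then (1 : ℝ) else 0)) +
          (w : ℝ) * (∑ m2 ∈ range w, (if (m3 : ℝ) - m2 = 0 then (1 : ℝ) else 0)) +
          1 / (4 * Γ) * ((∑ m1 ∈ range w, |(m1 : ℝ) - m3|⁻¹) *
            ∑ m2 ∈ range w, |(m3 : ℝ) - m2|⁻¹) := by
          simp only [Finset.sum_add_distrib, Finset.sum_const, Finset.card_range, nsmul_eq_mul]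
          rw [← Finset.mul_sum, Finset.sum_mul_sum]
          congr 1
          simp only [Finset.mul_sum]
      _ ≤ (w : ℝ) * 1 + (w : ℝ) * 1 +
          1 / (4 * Γ) * ((2 * (1 + Real.log w)) * (2 * (1 + Real.log w))) := by
          gcongr
      _ = 2 * (w : ℝ) + 1 / Γ * (1 + Real.log w) ^ 2 := by
          field_simp
          ring
      _ ≤ 2 * (w : ℝ) + w * (1 + Real.log w) ^ 2 := by
          have : 1 / Γ ≤ w := by rwa [div_le_iff₀ hΓ]
          gcongr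
      _ ≤ 3 * ((w : ℝ) * (1 + Real.log w) ^ 2) := by
          have : (w : ℝ) * 1 ≤ w * (1 + Real.log w) ^ 2 := by
            apply mul_le_mul_of_nonneg_left _ hw0.le
            nlinarith
          linarith
  refine (Finset.sum_le_sum key).trans (le_of_eq ?_)
  rw [Finset.sum_const, Finset.card_range, nsmul_eq_mul]
  ring

end FD39
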