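import Pool.Agent.H39.FD.Defs
import Pool.Agent.H39.FD.Geo

/-!
ROW Mom4 (project MP_493793_FD, about 110 lines): the fourth moment over the linear twist.

PROOF. `(‖z‖^4 : ℂ) = z * z * conj z * conj z`. Expanding, the summand is `a m1 * a m2 * conj (a m3) * conj (a m4) * ex (γ * (n1^2 + n2^2 - n3^2 - n4^2)) * ex ((m1 + m2 - m3 - m4 : ℤ) * (k / M))`, `ni = n0 + mi`, `mi < w`.
Sum over `k` first: `sum_ex_int_div` (file Geo) with `|m1 + m2 - m3 - m4| < 2 w ≤ M` gives `M` if `m1 + m2 = m3 + m4` and `0` otherwise. So the sum is `M * ∑ over (m1, m2, m3, m4) with m1 + m2 = m3 + m4`;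
for given `(m1, m2, m3)` there is a `m4 < w` iff `m3 ≤ m1 + m2 ∧ m1 + m2 - m3 < w`, and then `m4 = m1 + m2 - m3` (`Finset.sum_ite_eq`-type step for the inner sum over `m4`), and
`n1^2 + n2^2 - n3^2 - n4^2 = 2 (m1 - m3)(m3 - m2)`. Finally `a Finset.sum over the product = iterated sums` (`Finset.sum_product`) and the filter is an `if` (`Finset.sum_filter`).
Suggestion: first prove an identity for `‖T‖^4` as a sum over the product finset `range w ×ˢ range w ×ˢ range w ×ˢ range w`.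
-/

set_option autoImplicit false

namespace FD39

open Finset

theorem Mom4_four (s : Finset ℕ) (t r : ℕ → ℂ) :
    (∑ m ∈ s, t m) * (∑ m ∈ s, t m) * ((∑ m ∈ s, r m) * (∑ m ∈ s, r m)) =
      ∑ m1 ∈ s, ∑ m2 ∈ s, ∑ m3 ∈ s, ∑ m4 ∈ s, t m1 * t m2 * (r m3 * r m4) := by
  rw [Finset.sum_mul_sum, Finset.sum_mul_sum]
  simp_rw [Finset.sum_mul, Finset.mul_sum]

theorem Mom4_norm (z : ℂ) : ((‖z‖ ^ 4 : ℝ) : ℂ) = z * z * ((starRingEnd ℂ) z * (starRingEnd ℂ) z) := by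
  have h : z * (starRingEnd ℂ) z = ((‖z‖ ^ 2 : ℝ) : ℂ) := by
    rw [Complex.mul_conj, Complex.normSq_eq_norm_sq]
  calc ((‖z‖ ^ 4 : ℝ) : ℂ) = ((‖z‖ ^ 2 : ℝ) : ℂ) * ((‖z‖ ^ 2 : ℝ) : ℂ) := by
        push_cast; ring
    _ = z * z * ((starRingEnd ℂ) z * (starRingEnd ℂ) z) := by rw [← h]; ring

theorem Mom4_term (a : ℕ → ℂ) (n0 : ℕ) (γ β : ℝ) (m1 m2 m3 m4 : ℕ) :
    (a m1 * ex (β * ((n0 + m1 : ℕ) : ℝ) + γ * ((n0 + m1 : ℕ) : ℝ) ^ 2)) *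
      (a m2 * ex (β * ((n0 + m2 : ℕ) : ℝ) + γ * ((n0 + m2 : ℕ) : ℝ) ^ 2)) *
      ((starRingEnd ℂ) (a m3 * ex (β * ((n0 + m3 : ℕ) : ℝ) + γ * ((n0 + m3 : ℕ) : ℝ) ^ 2)) *
        (starRingEnd ℂ) (a m4 * ex (β * ((n0 + m4 : ℕ) : ℝ) + γ * ((n0 + m4 : ℕ) : ℝ) ^ 2))) =
    a m1 * a m2 * (starRingEnd ℂ) (a m3) * (starRingEnd ℂ) (a m4) *
      ex (γ * (((n0 + m1 : ℕ) : ℝ) ^ 2 + ((n0 + m2 : ℕ) : ℝ) ^ 2 - ((n0 + m3 : ℕ) : ℝ) ^ 2 -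
        ((n0 + m4 : ℕ) : ℝ) ^ 2)) * ex ((((m1 : ℤ) + m2 - m3 - m4 : ℤ) : ℝ) * β) := by
  have h : ex (γ * (((n0 + m1 : ℕ) : ℝ) ^ 2 + ((n0 + m2 : ℕ) : ℝ) ^ 2 - ((n0 + m3 : ℕ) : ℝ) ^ 2 -
        ((n0 + m4 : ℕ) : ℝ) ^ 2)) * ex ((((m1 : ℤ) + m2 - m3 - m4 : ℤ) : ℝ) * β) =
      ex (β * ((n0 + m1 : ℕ) : ℝ) + γ * ((n0 + m1 : ℕ) : ℝ) ^ 2) *
      ex (β * ((n0 + m2 : ℕ) : ℝ) + γ * ((n0 + m2 : ℕ) : ℝ) ^ 2) *
      (ex (-(β * ((n0 + m3 : ℕ) : ℝ) + γ * ((n0 + m3 : ℕ) : ℝ) ^ 2)) *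
        ex (-(β * ((n0 + m4 : ℕ) : ℝ) + γ * ((n0 + m4 : ℕ) : ℝ) ^ 2))) := by
    rw [← ex_add, ← ex_add, ← ex_add, ← ex_add]
    congr 1
    push_cast
    ring
  rw [mul_assoc (a m1 * a m2 * (starRingEnd ℂ) (a m3) * (starRingEnd ℂ) (a m4)), h, map_mul, map_mul,
    conj_ex, conj_ex]
  ring

theorem mom4_eq (a : ℕ → ℂ) (n0 : ℕ) {w M : ℕ} (hM : 0 < M) (hw : 2 * w ≤ M) (γ : ℝ) :
    ((∑ k ∈ range M, ‖T a n0 w (k / M) γ‖ ^ 4 : ℝ) : ℂ) =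
      M * ∑ m1 ∈ range w, ∑ m2 ∈ range w, ∑ m3 ∈ range w,
        if m3 ≤ m1 + m2 ∧ m1 + m2 - m3 < w then
          a m1 * a m2 * (starRingEnd ℂ) (a m3) * (starRingEnd ℂ) (a (m1 + m2 - m3)) *
            ex (γ * (2 * (((m1 : ℝ) - m3) * ((m3 : ℝ) - m2))))
        else 0 := by
  rw [Complex.ofReal_sum]
  have e1 : ∀ k ∈ range M, ((‖T a n0 w (k / M) γ‖ ^ 4 : ℝ) : ℂ) =
      ∑ m1 ∈ range w, ∑ m2 ∈ range w, ∑ m3 ∈ range w, ∑ m4 ∈ range w,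
        a m1 * a m2 * (starRingEnd ℂ) (a m3) * (starRingEnd ℂ) (a m4) *
          ex (γ * (((n0 + m1 : ℕ) : ℝ) ^ 2 + ((n0 + m2 : ℕ) : ℝ) ^ 2 - ((n0 + m3 : ℕ) : ℝ) ^ 2 -
            ((n0 + m4 : ℕ) : ℝ) ^ 2)) * ex ((((m1 : ℤ) + m2 - m3 - m4 : ℤ) : ℝ) * (k / M)) := by
    intro k _
    rw [Mom4_norm]
    unfold T
    rw [map_sum, Mom4_four]
    refine Finset.sum_congr rfl fun m1 _ => Finset.sum_congr rfl fun m2 _ =>
      Finset.sum_congr rfl fun m3 _ => Finset.sum_congr rfl fun m4 _ => ?_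
    exact Mom4_term a n0 γ (k / M) m1 m2 m3 m4
  rw [Finset.sum_congr rfl e1, Finset.sum_comm, Finset.mul_sum]
  refine Finset.sum_congr rfl fun m1 h1 => ?_
  rw [Finset.sum_comm, Finset.mul_sum]
  refine Finset.sum_congr rfl fun m2 h2 => ?_
  rw [Finset.sum_comm, Finset.mul_sum]
  refine Finset.sum_congr rfl fun m3 h3 => ?_
  rw [Finset.sum_comm]
  rw [Finset.mem_range] at h1 h2 h3
  have e2 : ∀ m4 ∈ range w, ∑ k ∈ range M,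
      a m1 * a m2 * (starRingEnd ℂ) (a m3) * (starRingEnd ℂ) (a m4) *
          ex (γ * (((n0 + m1 : ℕ) : ℝ) ^ 2 + ((n0 + m2 : ℕ) : ℝ) ^ 2 - ((n0 + m3 : ℕ) : ℝ) ^ 2 -
            ((n0 + m4 : ℕ) : ℝ) ^ 2)) * ex ((((m1 : ℤ) + m2 - m3 - m4 : ℤ) : ℝ) * (k / M)) =
      if m3 + m4 = m1 + m2 then
        M * (a m1 * a m2 * (starRingEnd ℂ) (a m3) * (starRingEnd ℂ) (a m4) *
          ex (γ * (2 * (((m1 : ℝ) - m3) * ((m3 : ℝ) - m2))))) else 0 := by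
    intro m4 h4
    rw [Finset.mem_range] at h4
    rw [← Finset.mul_sum, sum_ex_int_div hM (by rw [abs_lt]; omega)]
    by_cases h5 : m3 + m4 = m1 + m2
    · rw [if_pos (by omega), if_pos h5]
      have h6 : ((n0 + m1 : ℕ) : ℝ) ^ 2 + ((n0 + m2 : ℕ) : ℝ) ^ 2 - ((n0 + m3 : ℕ) : ℝ) ^ 2 -
            ((n0 + m4 : ℕ) : ℝ) ^ 2 = 2 * (((m1 : ℝ) - m3) * ((m3 : ℝ) - m2)) := by
        have h7 : (m4 : ℝ) = m1 + m2 - m3 := by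
          have : (m3 : ℝ) + m4 = m1 + m2 := by exact_mod_cast h5
          linarith
        push_cast
        rw [h7]
        ring
      rw [h6]
      ring
    · rw [if_neg (by omega), if_neg h5, mul_zero]
  rw [Finset.sum_congr rfl e2]
  by_cases h6 : m3 ≤ m1 + m2 ∧ m1 + m2 - m3 < w
  · rw [if_pos h6, Finset.sum_eq_single (m1 + m2 - m3)]
    · rw [if_pos (by omega)]
    · intro b _ hb
      rw [if_neg (by omega)]
    · intro h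
      exact absurd (Finset.mem_range.2 h6.2) h
  · rw [if_neg h6, mul_zero]
    apply Finset.sum_eq_zero
    intro b hb
    rw [Finset.mem_range] at hb
    rw [if_neg (by omega)]

end FD39
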