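import Pool.Agent.H39.FD.Defs
import Pool.Agent.H39.FD.Mom4
import Pool.Agent.H39.FD.Ker

/-!
ROW Mom4b (project MP_493793_FD, about 110 lines): bound for the fourth moment over both twists.

PROOF. Let `c = 48 (M L) w^2 (1 + log w)^2`. Exchange the sums: `∑_l ∑_k ‖T‖^4` and `mom4_eq` (file Mom4) for `γ = Γ * (l / L)`, then sum over `l` inside: the total (real) number is the norm of its complex cast, so it is
`≤ M * ∑_{m1,m2,m3} (if .. then 16 * ‖∑_l ex (Γ * (l / L) * (2 ((m1 - m3)(m3 - m2))))‖ else 0)` (`norm_sum_le`, the four coefficients have norm `≤ 2`, the `if`-condition does not depend on `l`).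
With `θ = 2 Γ ((m1 - m3)(m3 - m2)) / L` the inner sum is `∑_{l < L} ex (θ * l)`; `|(m1 - m3)(m3 - m2)| ≤ w^2`, so `|θ| ≤ 2 Γ w^2 / L ≤ 1 / 2` (`hΓL`). If the product is `0` the sum is `L = L * Ker`; otherwise
`norm_sum_ex_le` (file Geo) gives `≤ 1 / (2 |θ|) = L / (4 Γ |(m1 - m3)(m3 - m2)|) = L * Ker`. Hence the total is `≤ 16 M L ∑ Ker ≤ 48 M L w^2 (1 + log w)^2` by `kernel_sum` (file Ker).
-/

set_option autoImplicit false

namespace FD39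

open Finset

lemma Mom4b_ker_nonneg {Γ : ℝ} (hΓ : 0 < Γ) (u v : ℝ) : 0 ≤ Ker Γ u v := by
  unfold Ker
  split_ifs
  · norm_num
  · positivity

lemma Mom4b_sum {w L : ℕ} (hL : 0 < L) {Γ : ℝ} (hΓ : 0 < Γ) (hΓL : 4 * (w : ℝ) ^ 2 * Γ ≤ L)
    {u v : ℝ} (hu : |u| ≤ w) (hv : |v| ≤ w) :
    ‖∑ l ∈ range L, ex (Γ * (l / L) * (2 * (u * v)))‖ ≤ L * Ker Γ u v := by
  have hLr : (0 : ℝ) < L := by exact_mod_cast hL
  unfold Ker
  split_ifs with h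
  · refine le_trans (norm_sum_le _ _) ?_
    simp [norm_ex]
  · have habs : 0 < |u * v| := abs_pos.mpr h
    have hab : |u * v| ≤ (w : ℝ) ^ 2 := by
      rw [abs_mul, sq]
      exact mul_le_mul hu hv (abs_nonneg _) (le_trans (abs_nonneg _) hu)
    have e1 : ∀ l : ℕ, ex (Γ * ((l : ℝ) / L) * (2 * (u * v))) = ex ((2 * Γ * (u * v) / L) * (l : ℝ)) := by
      intro l
      congr 1
      field_simp
    rw [Finset.sum_congr rfl fun l _ => e1 l]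
    have h0 : 2 * Γ * (u * v) / L ≠ 0 := by
      apply div_ne_zero _ hLr.ne'
      exact mul_ne_zero (mul_ne_zero two_ne_zero hΓ.ne') h
    have habsθ : |2 * Γ * (u * v) / L| = 2 * Γ * |u * v| / L := by
      rw [abs_div, abs_mul, abs_of_pos hLr, abs_of_pos (by positivity : 0 < 2 * Γ)]
    have h1 : |2 * Γ * (u * v) / L| ≤ 1 / 2 := by
      rw [habsθ, div_le_iff₀ hLr]
      nlinarith [mul_le_mul_of_nonneg_left hab hΓ.le]
    refine le_trans (norm_sum_ex_le h0 h1 L) (le_of_eq ?_)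
    rw [habsθ]
    field_simp
    norm_num

lemma Mom4b_term (a : ℕ → ℂ) (ha : ∀ m, ‖a m‖ ≤ 2) {w L : ℕ} (hL : 0 < L) {Γ : ℝ} (hΓ : 0 < Γ)
    (hΓL : 4 * (w : ℝ) ^ 2 * Γ ≤ L) {m1 m2 m3 : ℕ} (h1 : m1 < w) (h2 : m2 < w) (h3 : m3 < w) :
    ‖∑ l ∈ range L, (if m3 ≤ m1 + m2 ∧ m1 + m2 - m3 < w then
          a m1 * a m2 * (starRingEnd ℂ) (a m3) * (starRingEnd ℂ) (a (m1 + m2 - m3)) *
            ex (Γ * (l / L) * (2 * (((m1 : ℝ) - m3) * ((m3 : ℝ) - m2))))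
        else 0)‖ ≤ 16 * (L * Ker Γ ((m1 : ℝ) - m3) ((m3 : ℝ) - m2)) := by
  have hk : 0 ≤ 16 * ((L : ℝ) * Ker Γ ((m1 : ℝ) - m3) ((m3 : ℝ) - m2)) :=
    mul_nonneg (by norm_num) (mul_nonneg (Nat.cast_nonneg L) (Mom4b_ker_nonneg hΓ _ _))
  by_cases hc : m3 ≤ m1 + m2 ∧ m1 + m2 - m3 < w
  · simp only [if_pos hc]
    rw [← Finset.mul_sum, norm_mul]
    have r1 : (m1 : ℝ) < w := by exact_mod_cast h1
    have r2 : (m2 : ℝ) < w := by exact_mod_cast h2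
    have r3 : (m3 : ℝ) < w := by exact_mod_cast h3
    have p1 : (0 : ℝ) ≤ m1 := Nat.cast_nonneg _
    have p2 : (0 : ℝ) ≤ m2 := Nat.cast_nonneg _
    have p3 : (0 : ℝ) ≤ m3 := Nat.cast_nonneg _
    have hu : |(m1 : ℝ) - m3| ≤ w := abs_le.mpr ⟨by linarith, by linarith⟩
    have hv : |(m3 : ℝ) - m2| ≤ w := abs_le.mpr ⟨by linarith, by linarith⟩
    have hA : ‖a m1 * a m2 * (starRingEnd ℂ) (a m3) * (starRingEnd ℂ) (a (m1 + m2 - m3))‖ ≤ 16 := by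
      rw [norm_mul, norm_mul, norm_mul, RCLike.norm_conj, RCLike.norm_conj]
      have q1 : ‖a m1‖ * ‖a m2‖ ≤ 2 * 2 :=
        mul_le_mul (ha _) (ha _) (norm_nonneg _) (by norm_num)
      have q2 : ‖a m1‖ * ‖a m2‖ * ‖a m3‖ ≤ 2 * 2 * 2 :=
        mul_le_mul q1 (ha _) (norm_nonneg _) (by norm_num)
      have q3 : ‖a m1‖ * ‖a m2‖ * ‖a m3‖ * ‖a (m1 + m2 - m3)‖ ≤ 2 * 2 * 2 * 2 :=
        mul_le_mul q2 (ha _) (norm_nonneg _) (by norm_num)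
      linarith
    exact mul_le_mul hA (Mom4b_sum hL hΓ hΓL hu hv) (norm_nonneg _) (by norm_num)
  · simp only [if_neg hc]
    simpa using hk

theorem mom4_le (a : ℕ → ℂ) (ha : ∀ m, ‖a m‖ ≤ 2) (n0 : ℕ) {w M L : ℕ} (hw : 1 ≤ w) (hM : 2 * w ≤ M)
    (hL : 0 < L) {Γ : ℝ} (hΓ : 0 < Γ) (hΓL : 4 * (w : ℝ) ^ 2 * Γ ≤ L) (hwΓ : 1 ≤ w * Γ) :
    ∑ k ∈ range M, ∑ l ∈ range L, ‖T a n0 w (k / M) (Γ * (l / L))‖ ^ 4 ≤
      48 * ((M : ℝ) * L) * ((w : ℝ) ^ 2 * (1 + Real.log w) ^ 2) := by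
  have hk : ∀ l : ℕ, ((∑ k ∈ range M, ‖T a n0 w (k / M) (Γ * (l / L))‖ ^ 4 : ℝ) : ℂ) = _ :=
    fun l => mom4_eq a n0 (by omega) hM (Γ * (l / L))
  have hS0 : 0 ≤ ∑ k ∈ range M, ∑ l ∈ range L, ‖T a n0 w (k / M) (Γ * (l / L))‖ ^ 4 :=
    Finset.sum_nonneg fun _ _ => Finset.sum_nonneg fun _ _ => by positivity
  have e1 : ((∑ k ∈ range M, ∑ l ∈ range L, ‖T a n0 w (k / M) (Γ * (l / L))‖ ^ 4 : ℝ) : ℂ) =
      M * ∑ m1 ∈ range w, ∑ m2 ∈ range w, ∑ m3 ∈ range w, ∑ l ∈ range L,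
        (if m3 ≤ m1 + m2 ∧ m1 + m2 - m3 < w then
          a m1 * a m2 * (starRingEnd ℂ) (a m3) * (starRingEnd ℂ) (a (m1 + m2 - m3)) *
            ex (Γ * (l / L) * (2 * (((m1 : ℝ) - m3) * ((m3 : ℝ) - m2))))
        else 0) := by
    rw [Finset.sum_comm, Complex.ofReal_sum, Finset.sum_congr rfl fun l _ => hk l,
      ← Finset.mul_sum, Finset.sum_comm]
    congr 1
    refine Finset.sum_congr rfl fun m1 _ => ?_
    rw [Finset.sum_comm]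
    refine Finset.sum_congr rfl fun m2 _ => ?_
    rw [Finset.sum_comm]
  have e2 : ∑ k ∈ range M, ∑ l ∈ range L, ‖T a n0 w (k / M) (Γ * (l / L))‖ ^ 4 =
      ‖((∑ k ∈ range M, ∑ l ∈ range L, ‖T a n0 w (k / M) (Γ * (l / L))‖ ^ 4 : ℝ) : ℂ)‖ := by
    rw [Complex.norm_real, Real.norm_eq_abs, abs_of_nonneg hS0]
  rw [e2, e1, norm_mul, Complex.norm_natCast]
  have hb : ‖∑ m1 ∈ range w, ∑ m2 ∈ range w, ∑ m3 ∈ range w, ∑ l ∈ range L,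
        (if m3 ≤ m1 + m2 ∧ m1 + m2 - m3 < w then
          a m1 * a m2 * (starRingEnd ℂ) (a m3) * (starRingEnd ℂ) (a (m1 + m2 - m3)) *
            ex (Γ * (l / L) * (2 * (((m1 : ℝ) - m3) * ((m3 : ℝ) - m2))))
        else 0)‖ ≤ 16 * (L * ∑ m1 ∈ range w, ∑ m2 ∈ range w, ∑ m3 ∈ range w,
          Ker Γ ((m1 : ℝ) - m3) ((m3 : ℝ) - m2)) := by
    simp only [Finset.mul_sum]
    refine le_trans (norm_sum_le _ _) (Finset.sum_le_sum fun m1 h1 => ?_)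
    refine le_trans (norm_sum_le _ _) (Finset.sum_le_sum fun m2 h2 => ?_)
    refine le_trans (norm_sum_le _ _) (Finset.sum_le_sum fun m3 h3 => ?_)
    exact Mom4b_term a ha hL hΓ hΓL (Finset.mem_range.mp h1) (Finset.mem_range.mp h2)
      (Finset.mem_range.mp h3)
  have hK := kernel_sum hw hΓ hwΓ
  calc (M : ℝ) * _ ≤ M * (16 * (L * ∑ m1 ∈ range w, ∑ m2 ∈ range w, ∑ m3 ∈ range w,
          Ker Γ ((m1 : ℝ) - m3) ((m3 : ℝ) - m2))) :=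
        mul_le_mul_of_nonneg_left hb (Nat.cast_nonneg M)
    _ ≤ M * (16 * (L * (3 * ((w : ℝ) ^ 2 * (1 + Real.log w) ^ 2)))) := by
        gcongr
    _ = 48 * ((M : ℝ) * L) * ((w : ℝ) ^ 2 * (1 + Real.log w) ^ 2) := by ring

end FD39
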