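import Pool.Agent.H39.FD.Defs
import Pool.Agent.H39.FD.Mom2
import Pool.Agent.H39.FD.Mom4b
import Pool.Agent.H39.FD.Hoe

/-!
ROW Blk (project MP_493793_FD, about 50 lines): first moment of a twisted block sum.

PROOF. `hoelder_lower` (file Hoe) for the index set `range M ×ˢ range L` (`Finset.sum_product`), `u (k, l) = ‖T a n0 w (k / M) (Γ * (l / L))‖`, `n = M * L`, `ℓ = 1 + log w ≥ 1`: `h2` from `mom2` (file Mom2; exchange the sums, for every `l` the sum over `k` is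
`M * ∑ ‖a m‖ ^ 2 ≥ M * w`), `h4` from `mom4_le` (file Mom4b).
-/

set_option autoImplicit false

namespace FD39

open Finset

theorem block_avg (a : ℕ → ℂ) (ha : ∀ m, ‖a m‖ ≤ 2) (n0 : ℕ) {w M L : ℕ} (hw : 1 ≤ w) (hM : 2 * w ≤ M)
    (hL : 0 < L) {Γ : ℝ} (hΓ : 0 < Γ) (hΓL : 4 * (w : ℝ) ^ 2 * Γ ≤ L) (hwΓ : 1 ≤ w * Γ)
    (hs : (w : ℝ) ≤ ∑ m ∈ range w, ‖a m‖ ^ 2) :
    (M : ℝ) * L * √w / (8 * (1 + Real.log w)) ≤
      ∑ k ∈ range M, ∑ l ∈ range L, ‖T a n0 w (k / M) (Γ * (l / L))‖ := by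
  have hM0 : 0 < M := by omega
  have hℓ : (1 : ℝ) ≤ 1 + Real.log w := by
    have : 0 ≤ Real.log w := Real.log_natCast_nonneg w
    linarith
  have h2 : ((M : ℝ) * L) * w ≤ ∑ i ∈ range M ×ˢ range L,
      ‖T a n0 w (((i.1 : ℕ) : ℝ) / M) (Γ * (((i.2 : ℕ) : ℝ) / L))‖ ^ 2 := by
    rw [Finset.sum_product, Finset.sum_comm]
    have h3 : ∀ l ∈ range L, (M : ℝ) * w ≤
        ∑ k ∈ range M, ‖T a n0 w (k / M) (Γ * (l / L))‖ ^ 2 := by
      intro l _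
      rw [mom2 a n0 hM0 (by omega) _]
      exact mul_le_mul_of_nonneg_left hs (Nat.cast_nonneg _)
    have h4 := Finset.sum_le_sum h3
    rw [Finset.sum_const, Finset.card_range, nsmul_eq_mul] at h4
    calc (M : ℝ) * L * w = L * (M * w) := by ring
      _ ≤ _ := h4
  have h4 := mom4_le a ha n0 hw hM hL hΓ hΓL hwΓ
  have h5 := hoelder_lower (range M ×ˢ range L)
    (fun i => ‖T a n0 w (((i.1 : ℕ) : ℝ) / M) (Γ * (((i.2 : ℕ) : ℝ) / L))‖)
    (fun i _ => norm_nonneg _) (n := (M : ℝ) * L) (w := (w : ℝ)) (ℓ := 1 + Real.log w)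
    (by positivity) (by exact_mod_cast hw) hℓ h2 (by rw [Finset.sum_product]; exact h4)
  rw [Finset.sum_product] at h5
  exact h5

end FD39
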