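import Pool.Agent.H39.FD.Defs

/-!
ROW Bmp (project MP_493793_FD, about 120 lines): the bumps and the bounds for their derivatives.

PROOF. exists_bump: `ContDiffBump (1 / 2 : ℝ)` with radii `1 / 4`, `1 / 2` (`one_of_mem_closedBall`, `zero_of_le_dist`, `contDiff`), see `bmp`, `b_one`, `b_zero` in `Pool/Agent/H76/EPBump.lean`.
gI_contDiff: `ContDiff.sum`. gI_bound: for every `j` the function `iteratedDeriv j φ` vanishes for `t < 0` and for `t > 1` (`iter_zero_of_far` in that file: `φ` is locally `0` there), is continuous, hence bounded by some `B0 j > 0` (`exists_bdd` there). `iteratedDeriv j (gI ..) x =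
∑_{i ∈ I} 1 / 2 * (w⁻¹) ^ j * iteratedDeriv j φ (w⁻¹ * (x - (N + i w)))` (see `bump_iter`, `pert_iter` there). A term is nonzero only if `0 ≤ t - i ≤ 1`, `t = (x - N) / w`, i.e. for `i ∈ [t - 1, t]`: at most two natural numbers `i` (`⌊t⌋₊`, `⌊t⌋₊ - 1`).
So the sum is `≤ 2 * (1 / 2) * (w⁻¹) ^ j * B0 j` (`Finset.sum_subset`/filter with card `≤ 2`). gI_block: for `x = N + i w + m`, `m < w`: the term `i' = i` is `1 / 2 * φ (m / w)`, for `i' < i` the argument is `≥ 1`, for `i' > i` it is `≤ 0`. gI_far similar (`i < R`: the argument is `≥ 1`).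
-/

set_option autoImplicit false

namespace FD39

open Finset

theorem exists_bump : ∃ φ : ℝ → ℝ, IsBump φ := by
  let b : ContDiffBump (1 / 2 : ℝ) := ⟨1 / 4, 1 / 2, by norm_num, by norm_num⟩
  refine ⟨fun t => b t, b.contDiff, fun t h1 h2 => ?_, fun t ht => ?_, fun t ht => ?_⟩
  · apply b.one_of_mem_closedBall
    rw [Metric.mem_closedBall, Real.dist_eq, abs_le]
    constructor
    · show -(1 / 4 : ℝ) ≤ t - 1 / 2
      linarith
    · show t - 1 / 2 ≤ (1 / 4 : ℝ)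
      linarith
  · apply b.zero_of_le_dist
    rw [Real.dist_eq, abs_of_nonpos (by linarith)]
    show (1 / 2 : ℝ) ≤ _
    linarith
  · apply b.zero_of_le_dist
    rw [Real.dist_eq, abs_of_nonneg (by linarith)]
    show (1 / 2 : ℝ) ≤ _
    linarith

theorem Bmp_scd {φ : ℝ → ℝ} (hφ : IsBump φ) (w n : ℝ) :
    ContDiff ℝ (⊤ : ℕ∞) (fun x => 1 / 2 * φ (w⁻¹ * (x - n))) :=
  contDiff_const.mul (hφ.smooth.comp (contDiff_const.mul (contDiff_id.sub contDiff_const)))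

theorem gI_contDiff {φ : ℝ → ℝ} (hφ : IsBump φ) (N w : ℕ) (I : Finset ℕ) :
    ContDiff ℝ (⊤ : ℕ∞) (gI φ N w I) := by
  unfold gI
  exact ContDiff.sum fun i _ => Bmp_scd hφ _ _

theorem Bmp_far {φ : ℝ → ℝ} (hφ : IsBump φ) (j : ℕ) {t : ℝ} (ht : t < 0 ∨ 1 < t) :
    iteratedDeriv j φ t = 0 := by
  have h1 : φ =ᶠ[nhds t] fun _ => 0 := by
    rcases ht with ht | ht
    · filter_upwards [gt_mem_nhds ht] with x hx
      exact hφ.left x hx.le
    · filter_upwards [lt_mem_nhds ht] with x hx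
      exact hφ.right x hx.le
  rw [h1.iteratedDeriv_eq j]
  exact iteratedDeriv_fun_const_zero

theorem Bmp_bdd {φ : ℝ → ℝ} (hφ : IsBump φ) (j : ℕ) : ∃ B : ℝ, 0 < B ∧ ∀ t, |iteratedDeriv j φ t| ≤ B := by
  have hcont : Continuous (iteratedDeriv j φ) :=
    hφ.smooth.continuous_iteratedDeriv j (by exact_mod_cast le_top)
  obtain ⟨B, hB⟩ := (isCompact_Icc (a := (0 : ℝ)) (b := 1)).exists_bound_of_continuousOn
    hcont.continuousOn
  refine ⟨max B 1, by positivity, fun t => ?_⟩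
  by_cases ht : 0 ≤ t ∧ t ≤ 1
  · have := hB t ht
    rw [Real.norm_eq_abs] at this
    exact this.trans (le_max_left _ _)
  · rw [Bmp_far hφ j (by
      rcases not_and_or.1 ht with h | h
      · exact Or.inl (not_le.1 h)
      · exact Or.inr (not_le.1 h)), abs_zero]
    positivity

theorem Bmp_iter {φ : ℝ → ℝ} (hφ : IsBump φ) (w n : ℝ) (j : ℕ) (x : ℝ) :
    iteratedDeriv j (fun x => 1 / 2 * φ (w⁻¹ * (x - n))) x =
      1 / 2 * ((w⁻¹) ^ j * iteratedDeriv j φ (w⁻¹ * (x - n))) := by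
  rw [iteratedDeriv_const_mul_field]
  congr 1
  have h1 := iteratedDeriv_comp_sub_const j (fun z => φ (w⁻¹ * z)) n
  have h2 := congrFun h1 x
  rw [h2, iteratedDeriv_comp_const_mul (hφ.smooth.of_le (by exact_mod_cast le_top))]

theorem gI_bound {φ : ℝ → ℝ} (hφ : IsBump φ) : ∃ B : ℕ → ℝ, (∀ j, 0 < B j) ∧
    ∀ (j N w : ℕ) (I : Finset ℕ) (x : ℝ), 0 < w →
      |iteratedDeriv j (gI φ N w I) x| ≤ B j * ((w : ℝ)⁻¹) ^ j := by
  choose B hB0 hB using fun j => Bmp_bdd hφ j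
  refine ⟨B, hB0, fun j N w I x hw => ?_⟩
  have hw0 : (0 : ℝ) < w := by exact_mod_cast hw
  have e1 : iteratedDeriv j (gI φ N w I) x =
      ∑ i ∈ I, 1 / 2 * (((w : ℝ)⁻¹) ^ j * iteratedDeriv j φ ((w : ℝ)⁻¹ * (x - (N + i * w : ℕ)))) := by
    have e : gI φ N w I = fun x => ∑ i ∈ I, 1 / 2 * φ ((w : ℝ)⁻¹ * (x - (N + i * w : ℕ))) := rfl
    rw [e, iteratedDeriv_fun_sum (fun i _ => (Bmp_scd hφ _ _).contDiffAt.of_le (by exact_mod_cast le_top))]
    exact Finset.sum_congr rfl fun i _ => Bmp_iter hφ _ _ j x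
  set t : ℝ := (w : ℝ)⁻¹ * (x - N) with ht
  have harg : ∀ i : ℕ, (w : ℝ)⁻¹ * (x - (N + i * w : ℕ)) = t - i := by
    intro i
    rw [ht]
    push_cast
    field_simp
    ring
  rw [e1]
  simp_rw [harg]
  set J : Finset ℕ := I.filter (fun i => i = ⌊t⌋₊ ∨ i = ⌊t⌋₊ - 1) with hJ
  have hz : ∀ i ∈ I, i ∉ J → 1 / 2 * (((w : ℝ)⁻¹) ^ j * iteratedDeriv j φ (t - i)) = 0 := by
    intro i hi hiJ
    have h1 : ¬ (i = ⌊t⌋₊ ∨ i = ⌊t⌋₊ - 1) := fun h => hiJ (Finset.mem_filter.2 ⟨hi, h⟩)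
    have h2 : t - i < 0 ∨ 1 < t - i := by
      by_contra hc
      rw [not_or, not_lt, not_lt] at hc
      obtain ⟨c1, c2⟩ := hc
      have hi0 : (0 : ℝ) ≤ i := Nat.cast_nonneg i
      have ht0 : 0 ≤ t := by linarith
      have h3 : i ≤ ⌊t⌋₊ := Nat.le_floor (by linarith)
      have h4 : ⌊t⌋₊ ≤ i + 1 := by
        have h5 : (⌊t⌋₊ : ℝ) ≤ t := Nat.floor_le ht0
        have h6 : (⌊t⌋₊ : ℝ) ≤ ((i + 1 : ℕ) : ℝ) := by push_cast; linarith
        exact_mod_cast h6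
      apply h1
      omega
    rw [Bmp_far hφ j h2]
    ring
  have hsub : J ⊆ I := Finset.filter_subset _ _
  rw [← Finset.sum_subset hsub hz]
  have hcard : J.card ≤ 2 := by
    have h1 : J ⊆ {⌊t⌋₊, ⌊t⌋₊ - 1} := by
      intro i hi
      have := (Finset.mem_filter.1 hi).2
      simpa using this
    exact (Finset.card_le_card h1).trans Finset.card_le_two
  have hterm : ∀ i ∈ J, |1 / 2 * (((w : ℝ)⁻¹) ^ j * iteratedDeriv j φ (t - i))| ≤ 1 / 2 * (((w : ℝ)⁻¹) ^ j * B j) := by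
    intro i _
    rw [abs_mul, abs_mul, abs_of_pos (by norm_num : (0 : ℝ) < 1 / 2), abs_of_nonneg (by positivity : 0 ≤ ((w : ℝ)⁻¹) ^ j)]
    gcongr
    exact hB j _
  have hBj := hB0 j
  calc |∑ i ∈ J, 1 / 2 * (((w : ℝ)⁻¹) ^ j * iteratedDeriv j φ (t - i))|
      ≤ ∑ i ∈ J, |1 / 2 * (((w : ℝ)⁻¹) ^ j * iteratedDeriv j φ (t - i))| := Finset.abs_sum_le_sum_abs _ _
    _ ≤ ∑ _i ∈ J, 1 / 2 * (((w : ℝ)⁻¹) ^ j * B j) := Finset.sum_le_sum hterm
    _ = J.card * (1 / 2 * (((w : ℝ)⁻¹) ^ j * B j)) := by rw [Finset.sum_const, nsmul_eq_mul]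
    _ ≤ 2 * (1 / 2 * (((w : ℝ)⁻¹) ^ j * B j)) := by
        have : (J.card : ℝ) ≤ 2 := by exact_mod_cast hcard
        gcongr
    _ = B j * ((w : ℝ)⁻¹) ^ j := by ring

theorem Bmp_arg (N w n i : ℕ) :
    (w : ℝ)⁻¹ * (((n : ℕ) : ℝ) - (N + i * w : ℕ)) = ((n : ℝ) - N - i * w) / w := by
  push_cast
  rw [inv_mul_eq_div]
  congr 1
  ring

theorem gI_block {φ : ℝ → ℝ} (hφ : IsBump φ) (N : ℕ) {w m : ℕ} (hm : m < w) (I : Finset ℕ) (i : ℕ) :
    gI φ N w I ((N + i * w + m : ℕ) : ℝ) = if i ∈ I then 1 / 2 * φ ((m : ℝ) / w) else 0 := by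
  have hw : 0 < w := by omega
  have hw0 : (0 : ℝ) < w := by exact_mod_cast hw
  have hm0 : (0 : ℝ) ≤ m := Nat.cast_nonneg m
  have hm1 : (m : ℝ) < w := by exact_mod_cast hm
  have hz : ∀ i' : ℕ, i' ≠ i → 1 / 2 * φ ((w : ℝ)⁻¹ * (((N + i * w + m : ℕ) : ℝ) - (N + i' * w : ℕ))) = 0 := by
    intro i' hi'
    rw [Bmp_arg N w]
    rcases lt_or_gt_of_ne hi' with h | h
    · have h1 : ((i' : ℝ) + 1) ≤ i := by exact_mod_cast h
      rw [hφ.right _ (by
        rw [le_div_iff₀ hw0]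
        push_cast
        nlinarith)]
      ring
    · have h1 : ((i : ℝ) + 1) ≤ i' := by exact_mod_cast h
      rw [hφ.left _ (by
        apply div_nonpos_of_nonpos_of_nonneg _ hw0.le
        push_cast
        nlinarith)]
      ring
  unfold gI
  split_ifs with hi
  · rw [Finset.sum_eq_single i (fun i' _ hi' => hz i' hi') (fun h => absurd hi h), Bmp_arg N w]
    congr 2
    push_cast
    ring_nf
  · exact Finset.sum_eq_zero fun i' hi' => hz i' (fun h => hi (h ▸ hi'))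

theorem gI_far {φ : ℝ → ℝ} (hφ : IsBump φ) (N : ℕ) {w R n : ℕ} (hw : 0 < w) {I : Finset ℕ}
    (hI : I ⊆ range R) (hn : N + R * w ≤ n) : gI φ N w I (n : ℝ) = 0 := by
  have hw0 : (0 : ℝ) < w := by exact_mod_cast hw
  unfold gI
  refine Finset.sum_eq_zero fun i hi => ?_
  have h1 : i < R := Finset.mem_range.1 (hI hi)
  have h2 : ((i : ℝ) + 1) ≤ R := by exact_mod_cast h1
  have h3 : (N : ℝ) + R * w ≤ n := by exact_mod_cast hn
  rw [Bmp_arg N w, hφ.right _ (by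
    rw [le_div_iff₀ hw0]
    nlinarith)]
  ring

end FD39
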