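import Pool.Agent.H39.FD.Defs
import Pool.Agent.H39.FD.Bmp
import Pool.Agent.H76.EPModel

/-!
ROW Cls (project MP_493793_FD, about 120 lines): membership in the class.

PROOF. Let `B` be from `gI_bound hφ` (file Bmp), `r j = c * rf σ j * 2 ^ (-σ - j) > 0` (`rf_pos`), `E j = 8 * (1 + B (j + 1)) / r j`, `κ = 1 / (1 + ∑ j ∈ range P, E j)`; so `8 κ (1 + B (j + 1)) ≤ r j` for `j < P`. Write `y = F N ^ (σ - 1) > 0`, `x ∈ [N, 2 N]` (`N ≥ 1`, `F > 0`).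
Smoothness: `f0_contDiffAt`, polynomials, `gI_contDiff`. `iteratedDerivWithin (j + 1) f (Icc N (2 N)) x = iteratedDeriv (j + 1) f x` (`iteratedDerivWithin_eq_iteratedDeriv`, `uniqueDiffOn_Icc`; see `contDiffOn_pert` and its use in `Pool/Agent/H76/EPStage.lean`), and this is the sum of
`iteratedDeriv (j + 1)` of the parts (`iteratedDeriv_add` for functions smooth at `x`): `iter_f0` gives exactly `(-1) ^ j * rf σ j * y * x ^ (-σ - j)` (`rising = rf` by `rfl`); the polynomial `β x + γ x ^ 2` gives `β + 2 γ x` (`j = 0`), `2 γ` (`j = 1`), `0` (`j ≥ 2`), in absolute value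
`≤ 5 κ F / N ^ (j + 1)` (`1 ≤ κ F / N`, `β < 1`, `x ≤ 2 N`, `γ ≤ κ F / N ^ 2`); the bumps give `≤ B (j + 1) * (w⁻¹) ^ (j + 1) = B (j + 1) * (N / w) ^ (j + 1) / N ^ (j + 1) ≤ B (j + 1) κ F / N ^ (j + 1)` (`N / w ≥ 1`, `j + 1 ≤ P`, `pow_le_pow_right₀`).
The right side: `y x ^ (-σ - j) ≥ y (2 N) ^ (-σ - j) = 2 ^ (-σ - j) * F / N ^ (j + 1)` (`Real.rpow_le_rpow_of_nonpos`, `Real.mul_rpow`, `Real.rpow_add`), so it is `≥ r j * F / N ^ (j + 1) ≥ 8 κ (1 + B) F / N ^ (j + 1) > (5 + B) κ F / N ^ (j + 1)`.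
-/

set_option autoImplicit false

namespace FD39

open Finset

theorem Cls_poly {β γ G n x : ℝ} (hn : 1 ≤ n) (hG : n ≤ G) (hβ0 : 0 ≤ β) (hβ1 : β < 1)
    (hγ0 : 0 ≤ γ) (hγ : γ ≤ G / n ^ 2) (hx0 : 0 ≤ x) (hx : x ≤ 2 * n) (j : ℕ) :
    |iteratedDeriv (j + 1) (fun x : ℝ => β * x + γ * x ^ 2) x| ≤ 5 * G / n ^ (j + 1) := by
  have hn0 : 0 < n := by linarith
  have hG0 : 0 < G := by linarith
  have h1 : deriv (fun x : ℝ => β * x + γ * x ^ 2) = fun x => β + 2 * γ * x := by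
    funext z
    have h2 : HasDerivAt (fun x : ℝ => β * x + γ * x ^ 2) (β * 1 + γ * (2 * z)) z := by
      have h3 : HasDerivAt (fun x : ℝ => β * x) (β * 1) z := (hasDerivAt_id z).const_mul β
      have h4 : HasDerivAt (fun x : ℝ => γ * x ^ 2) (γ * (((2 : ℕ) : ℝ) * z ^ (2 - 1))) z :=
        (hasDerivAt_pow 2 z).const_mul γ
      have h5 := h3.add h4
      have e : β * 1 + γ * (2 * z) = β * 1 + γ * (((2 : ℕ) : ℝ) * z ^ (2 - 1)) := by norm_num
      rw [e]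
      exact h5
    rw [h2.deriv]
    ring
  have h6 : deriv (fun x : ℝ => β + 2 * γ * x) = fun _ => 2 * γ := by
    funext z
    have h2 : HasDerivAt (fun x : ℝ => β + 2 * γ * x) (2 * γ * 1) z :=
      ((hasDerivAt_id z).const_mul (2 * γ)).const_add β
    rw [h2.deriv, mul_one]
  rw [iteratedDeriv_succ', h1]
  rcases j with _ | k
  · simp only [iteratedDeriv_zero, zero_add, pow_one]
    have e1 : 0 ≤ β + 2 * γ * x := by positivity
    rw [abs_of_nonneg e1, le_div_iff₀ hn0]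
    have e2 : γ * n ^ 2 ≤ G := by
      rwa [le_div_iff₀ (by positivity)] at hγ
    have e3 : 2 * γ * x * n ≤ 4 * (γ * n ^ 2) := by
      have : γ * x ≤ γ * (2 * n) := mul_le_mul_of_nonneg_left hx hγ0
      nlinarith
    have e4 : β * n ≤ n := by nlinarith
    nlinarith
  · rw [iteratedDeriv_succ', h6]
    rcases k with _ | k
    · simp only [iteratedDeriv_zero, zero_add]
      rw [abs_of_nonneg (by positivity)]
      have e1 : (0 : ℝ) ≤ G / n ^ 2 := by positivity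
      calc 2 * γ ≤ 5 * (G / n ^ 2) := by linarith
        _ = 5 * G / n ^ (1 + 1) := by ring
    · have e1 : iteratedDeriv (k + 1) (fun _ : ℝ => 2 * γ) x = 0 := by
        rw [iteratedDeriv_succ']
        have : deriv (fun _ : ℝ => 2 * γ) = fun _ => 0 := by
          funext z
          exact deriv_const z _
        rw [this, iteratedDeriv_fun_const_zero]
      rw [e1, abs_zero]
      positivity

open Pool.Agent.H76.EP in
theorem mem_class {σ c : ℝ} (hσ : 0 < σ) (hc : 0 < c) (P : ℕ) {φ : ℝ → ℝ} (hφ : IsBump φ) :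
    ∃ κ : ℝ, 0 < κ ∧ κ ≤ 1 ∧ ∀ (N w : ℕ) (F β γ : ℝ) (I : Finset ℕ), 1 ≤ w → w ≤ N →
      (N : ℝ) ≤ κ * F → 0 ≤ β → β < 1 → 0 ≤ γ → γ ≤ κ * F / (N : ℝ) ^ 2 →
      ((N : ℝ) / w) ^ P ≤ κ * F →
      GKClass N P σ (F * (N : ℝ) ^ (σ - 1)) c
        (fun x => f0 σ (F * (N : ℝ) ^ (σ - 1)) x + β * x + γ * x ^ 2 + gI φ N w I x) := by
  obtain ⟨B, hB0, hB⟩ := gI_bound hφ
  obtain ⟨r, hr⟩ : ∃ r : ℕ → ℝ, r = fun j => c * rf σ j * (2 : ℝ) ^ (-σ - j) := ⟨_, rfl⟩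
  have hr0 : ∀ j, 0 < r j := by
    intro j
    rw [hr]
    have := rf_pos hσ j
    positivity
  obtain ⟨E, hE⟩ : ∃ E : ℕ → ℝ, E = fun j => 8 * (1 + B (j + 1)) / r j := ⟨_, rfl⟩
  have hE0 : ∀ j, 0 < E j := by
    intro j
    rw [hE]
    have h1 := hB0 (j + 1)
    have h2 := hr0 j
    show 0 < 8 * (1 + B (j + 1)) / r j
    positivity
  have hS0 : 0 ≤ ∑ j ∈ range P, E j := Finset.sum_nonneg fun j _ => (hE0 j).le
  obtain ⟨κ, hκ⟩ : ∃ κ : ℝ, κ = 1 / (1 + ∑ j ∈ range P, E j) := ⟨_, rfl⟩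
  have hκ0 : 0 < κ := by rw [hκ]; positivity
  have hκ1 : κ ≤ 1 := by
    rw [hκ, div_le_one (by positivity)]
    linarith
  have hκE : ∀ j < P, 8 * κ * (1 + B (j + 1)) ≤ r j := by
    intro j hj
    have h1 : E j ≤ ∑ j ∈ range P, E j :=
      Finset.single_le_sum (fun i _ => (hE0 i).le) (Finset.mem_range.2 hj)
    have h2 : κ * E j ≤ 1 := by
      rw [hκ, one_div, inv_mul_le_iff₀ (by positivity)]
      linarith
    have h3 := hr0 j
    have h4 : κ * E j = 8 * κ * (1 + B (j + 1)) / r j := by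
      rw [hE]
      ring
    rw [h4, div_le_one h3] at h2
    exact h2
  refine ⟨κ, hκ0, hκ1, ?_⟩
  intro N w F β γ I hw hwN hNF hβ0 hβ1 hγ0 hγ hP
  have hw1 : (1 : ℝ) ≤ w := by exact_mod_cast hw
  have hwN' : (w : ℝ) ≤ N := by exact_mod_cast hwN
  have hN1 : (1 : ℝ) ≤ N := le_trans hw1 hwN'
  have hN0 : (0 : ℝ) < N := by linarith
  have hκF : 0 < κ * F := by linarith
  have hF0 : 0 < F := pos_of_mul_pos_right hκF hκ0.le
  obtain ⟨Y, hY⟩ : ∃ Y : ℝ, Y = F * (N : ℝ) ^ (σ - 1) := ⟨_, rfl⟩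
  have hY0 : 0 < Y := by rw [hY]; positivity
  rw [← hY]
  have hfun : (fun x => f0 σ Y x + β * x + γ * x ^ 2 + gI φ N w I x) =
      fun x => f0 σ Y x + ((fun x : ℝ => β * x + γ * x ^ 2) x + gI φ N w I x) := by
    funext x
    show _ = f0 σ Y x + (β * x + γ * x ^ 2 + gI φ N w I x)
    ring
  rw [hfun]
  have hq : ContDiff ℝ (⊤ : ℕ∞) (fun x : ℝ => β * x + γ * x ^ 2) :=
    (contDiff_const.mul contDiff_id).add (contDiff_const.mul (contDiff_id.pow 2))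
  have hg := gI_contDiff hφ N w I
  have hsm : ∀ x : ℝ, 0 < x → ContDiffAt ℝ (⊤ : ℕ∞)
      (fun x => f0 σ Y x + ((fun x : ℝ => β * x + γ * x ^ 2) x + gI φ N w I x)) x := by
    intro x hx
    exact (f0_contDiffAt σ Y hx).add (hq.contDiffAt.add hg.contDiffAt)
  refine ⟨fun x hx => (hsm x (by linarith [hx.1])).contDiffWithinAt, ?_⟩
  intro j hj x hx
  have hx0 : 0 < x := by linarith [hx.1]
  have hlt : (N : ℝ) < 2 * N := by linarith
  have e0 : iteratedDerivWithin (j + 1)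
      (fun x => f0 σ Y x + ((fun x : ℝ => β * x + γ * x ^ 2) x + gI φ N w I x))
      (Set.Icc (N : ℝ) (2 * N)) x = iteratedDeriv (j + 1)
      (fun x => f0 σ Y x + ((fun x : ℝ => β * x + γ * x ^ 2) x + gI φ N w I x)) x :=
    iteratedDerivWithin_eq_iteratedDeriv (uniqueDiffOn_Icc hlt)
      ((hsm x hx0).of_le (by exact_mod_cast le_top)) hx
  have e1 : iteratedDeriv (j + 1)
      (fun x => f0 σ Y x + ((fun x : ℝ => β * x + γ * x ^ 2) x + gI φ N w I x)) x =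
      iteratedDeriv (j + 1) (f0 σ Y) x + (iteratedDeriv (j + 1) (fun x : ℝ => β * x + γ * x ^ 2) x +
        iteratedDeriv (j + 1) (gI φ N w I) x) := by
    have h1 := iteratedDeriv_fun_add (n := j + 1) (x := x) (f := f0 σ Y)
      (g := fun x => (fun x : ℝ => β * x + γ * x ^ 2) x + gI φ N w I x)
      ((f0_contDiffAt σ Y hx0).of_le (by exact_mod_cast le_top))
      ((hq.contDiffAt.add hg.contDiffAt).of_le (by exact_mod_cast le_top))
    have h2 := iteratedDeriv_fun_add (n := j + 1) (x := x) (f := fun x : ℝ => β * x + γ * x ^ 2)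
      (g := gI φ N w I)
      (hq.contDiffAt.of_le (by exact_mod_cast le_top))
      (hg.contDiffAt.of_le (by exact_mod_cast le_top))
    rw [h1, h2]
  rw [e0, e1, iter_f0 σ Y j hx0]
  have hrf : rising σ j = rf σ j := rfl
  rw [hrf]
  have e2 : (-1) ^ j * rf σ j * Y * x ^ (-σ - (j : ℝ)) +
      (iteratedDeriv (j + 1) (fun x : ℝ => β * x + γ * x ^ 2) x +
        iteratedDeriv (j + 1) (gI φ N w I) x) - (-1) ^ j * rf σ j * Y * x ^ (-σ - (j : ℝ)) =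
      iteratedDeriv (j + 1) (fun x : ℝ => β * x + γ * x ^ 2) x +
        iteratedDeriv (j + 1) (gI φ N w I) x := by ring
  rw [e2]
  have hpol := Cls_poly hN1 hNF hβ0 hβ1 hγ0 hγ hx0.le hx.2 j
  have hwpos : 0 < w := by omega
  have hbmp := hB (j + 1) N w I x hwpos
  have hNj : (0 : ℝ) < (N : ℝ) ^ (j + 1) := by positivity
  have hw0 : (0 : ℝ) < w := by linarith
  have hwj : ((w : ℝ)⁻¹) ^ (j + 1) ≤ κ * F / (N : ℝ) ^ (j + 1) := by
    rw [le_div_iff₀ hNj, ← mul_pow, inv_mul_eq_div]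
    refine le_trans ?_ hP
    exact pow_le_pow_right₀ (by rw [le_div_iff₀ hw0]; linarith) hj
  have hbmp2 : |iteratedDeriv (j + 1) (gI φ N w I) x| ≤ B (j + 1) * (κ * F / (N : ℝ) ^ (j + 1)) :=
    hbmp.trans (mul_le_mul_of_nonneg_left hwj (hB0 (j + 1)).le)
  have hleft : |iteratedDeriv (j + 1) (fun x : ℝ => β * x + γ * x ^ 2) x +
        iteratedDeriv (j + 1) (gI φ N w I) x| ≤
      (5 + B (j + 1)) * κ * (F / (N : ℝ) ^ (j + 1)) := by
    refine (abs_add_le _ _).trans ?_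
    calc _ ≤ 5 * (κ * F) / (N : ℝ) ^ (j + 1) + B (j + 1) * (κ * F / (N : ℝ) ^ (j + 1)) :=
          add_le_add hpol hbmp2
      _ = _ := by ring
  have hFN : 0 < F / (N : ℝ) ^ (j + 1) := by positivity
  have hBj := hB0 (j + 1)
  have hmid : (5 + B (j + 1)) * κ * (F / (N : ℝ) ^ (j + 1)) < r j * (F / (N : ℝ) ^ (j + 1)) := by
    apply mul_lt_mul_of_pos_right _ hFN
    refine lt_of_lt_of_le ?_ (hκE j hj)
    nlinarith [mul_pos hκ0 hBj]
  have hrpow : (2 : ℝ) ^ (-σ - (j : ℝ)) * (F / (N : ℝ) ^ (j + 1)) ≤ Y * x ^ (-σ - (j : ℝ)) := by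
    have hj0 : (0 : ℝ) ≤ j := Nat.cast_nonneg j
    have h1 : (2 * (N : ℝ)) ^ (-σ - (j : ℝ)) ≤ x ^ (-σ - (j : ℝ)) :=
      Real.rpow_le_rpow_of_nonpos hx0 hx.2 (by linarith)
    have h2 : Y * (2 * (N : ℝ)) ^ (-σ - (j : ℝ)) = (2 : ℝ) ^ (-σ - (j : ℝ)) * (F / (N : ℝ) ^ (j + 1)) := by
      rw [hY, Real.mul_rpow (by norm_num) hN0.le]
      have h3 : (N : ℝ) ^ (σ - 1) * (N : ℝ) ^ (-σ - (j : ℝ)) = ((N : ℝ) ^ (j + 1))⁻¹ := by
        rw [← Real.rpow_add hN0, ← Real.rpow_natCast, ← Real.rpow_neg hN0.le]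
        congr 1
        push_cast
        ring
      calc F * (N : ℝ) ^ (σ - 1) * ((2 : ℝ) ^ (-σ - (j : ℝ)) * (N : ℝ) ^ (-σ - (j : ℝ))) =
            (2 : ℝ) ^ (-σ - (j : ℝ)) * (F * ((N : ℝ) ^ (σ - 1) * (N : ℝ) ^ (-σ - (j : ℝ)))) := by ring
        _ = _ := by rw [h3, div_eq_mul_inv]
    rw [← h2]
    exact mul_le_mul_of_nonneg_left h1 hY0.le
  have hright : r j * (F / (N : ℝ) ^ (j + 1)) ≤ c * (rf σ j * Y * x ^ (-σ - (j : ℝ))) := by
    have h1 : 0 ≤ c * rf σ j := (mul_pos hc (rf_pos hσ j)).le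
    rw [hr]
    calc c * rf σ j * (2 : ℝ) ^ (-σ - (j : ℝ)) * (F / (N : ℝ) ^ (j + 1)) =
          (c * rf σ j) * ((2 : ℝ) ^ (-σ - (j : ℝ)) * (F / (N : ℝ) ^ (j + 1))) := by ring
      _ ≤ (c * rf σ j) * (Y * x ^ (-σ - (j : ℝ))) := mul_le_mul_of_nonneg_left hrpow h1
      _ = _ := by ring
  exact lt_of_le_of_lt hleft (lt_of_lt_of_le hmid hright)

end FD39
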