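import Pool.Agent.H39.FD.Defs
import Pool.Agent.H39.FD.Bmp

/-!
ROW Dec (project MP_493793_FD, about 80 lines): decomposition of the exponential sum.

PROOF. Let `A n = ex (g n + β n + γ n ^ 2)`, so the `n`-th term is `A n * ex (gI n) = A n + A n * (ex (gI n) - 1)`. `S = ∑_{n ∈ Icc N (2 N)} A n`. It remains to show `∑_{n ∈ Icc N (2 N)} A n * (ex (gI n) - 1) = ∑_{i ∈ I} T ..`. The terms with `n ≥ N + R w` vanish (`gI_far`, `ex_zero`), the others are
`n = N + i w + m` with `i < R`, `m < w` (bijection: `Finset.sum_product`, `Nat.div_add_mod`; or induction on `R` for `∑_{n ∈ Ico N (N + R w)} F n = ∑_{i < R} ∑_{m < w} F (N + i w + m)`, `Finset.sum_Ico_consecutive`). By `gI_block` the `i`-th inner sum is `0` for `i ∉ I`, and for `i ∈ I` it is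
`∑_m A n * (ex (1 / 2 * φ (m / w)) - 1)`, which is `T (fun m => ex (g n) * (ex (..) - 1)) (N + i w) w β γ` (`ex_add`, the cast `((N + i w + m : ℕ) : ℝ)` is the same in both).
-/

set_option autoImplicit false

namespace FD39

open Finset

private theorem Dec_blocks (F : ℕ → ℂ) (N w R : ℕ) :
    ∑ n ∈ Ico N (N + R * w), F n = ∑ i ∈ range R, ∑ m ∈ range w, F (N + i * w + m) := by
  induction R with
  | zero => simp
  | succ R ih =>
    rw [Finset.sum_range_succ, ← ih, ← Finset.sum_Ico_consecutive F (show N ≤ N + R * w by omega)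
      (show N + R * w ≤ N + (R + 1) * w by nlinarith)]
    congr 1
    rw [Finset.sum_Ico_eq_sum_range]
    have e : N + (R + 1) * w - (N + R * w) = w := by
      have : (R + 1) * w = R * w + w := by ring
      omega
    rw [e]

theorem decomp {φ : ℝ → ℝ} (hφ : IsBump φ) (g : ℝ → ℝ) (N : ℕ) {w R : ℕ} (hw : 0 < w) (hR : R * w ≤ N)
    (β γ : ℝ) : ∃ S : ℂ, ∀ I ⊆ range R,
      ∑ n ∈ Icc N (2 * N), ex (g n + β * n + γ * (n : ℝ) ^ 2 + gI φ N w I n) =
        S + ∑ i ∈ I, T (fun m => ex (g ((N + i * w + m : ℕ) : ℝ)) *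
          (ex (1 / 2 * φ ((m : ℝ) / w)) - 1)) (N + i * w) w β γ := by
  refine ⟨∑ n ∈ Icc N (2 * N), ex (g n + β * n + γ * (n : ℝ) ^ 2), fun I hI => ?_⟩
  set G : ℕ → ℂ := fun n => ex (g n + β * n + γ * (n : ℝ) ^ 2) * (ex (gI φ N w I n) - 1) with hG
  have h1 : ∑ n ∈ Icc N (2 * N), ex (g n + β * n + γ * (n : ℝ) ^ 2 + gI φ N w I n) =
      ∑ n ∈ Icc N (2 * N), ex (g n + β * n + γ * (n : ℝ) ^ 2) + ∑ n ∈ Icc N (2 * N), G n := by
    rw [← Finset.sum_add_distrib]
    refine Finset.sum_congr rfl fun n _ => ?_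
    rw [ex_add]
    simp only [hG]
    ring
  rw [h1]
  congr 1
  have hsub : Ico N (N + R * w) ⊆ Icc N (2 * N) := by
    intro n hn
    rw [Finset.mem_Ico] at hn
    rw [Finset.mem_Icc]
    omega
  have h2 : ∑ n ∈ Icc N (2 * N), G n = ∑ n ∈ Ico N (N + R * w), G n := by
    symm
    refine Finset.sum_subset hsub fun n hn hn' => ?_
    rw [Finset.mem_Icc] at hn
    rw [Finset.mem_Ico] at hn'
    have h3 : N + R * w ≤ n := by omega
    simp only [hG]
    rw [gI_far hφ N hw hI h3, ex_zero]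
    ring
  rw [h2, Dec_blocks]
  symm
  have hz : ∀ i ∈ range R, i ∉ I → ∑ m ∈ range w, G (N + i * w + m) = 0 := by
    intro i _ hi
    refine Finset.sum_eq_zero fun m hm => ?_
    simp only [hG]
    rw [gI_block hφ N (Finset.mem_range.1 hm), if_neg hi, ex_zero]
    ring
  rw [← Finset.sum_subset hI hz]
  refine Finset.sum_congr rfl fun i hi => ?_
  unfold T
  refine Finset.sum_congr rfl fun m hm => ?_
  simp only [hG]
  rw [gI_block hφ N (Finset.mem_range.1 hm), if_pos hi, ex_add, ex_add, ex_add]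
  ring

end FD39
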