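import Mathlib

/-! Definitions and basic facts for the project MP_493793_FD (phases with a fixed number of controlled
derivatives); no row. -/

set_option autoImplicit false

namespace FD39

open Finset

/-- `e(x) = exp(2 π i x)` -/
noncomputable def ex (x : ℝ) : ℂ := Complex.exp (2 * (Real.pi : ℂ) * Complex.I * ((x : ℝ) : ℂ))

lemma ex_eq (x : ℝ) : ex x = Complex.exp (((2 * Real.pi * x : ℝ) : ℂ) * Complex.I) := by
  unfold ex
  congr 1
  push_cast
  ring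

lemma ex_zero : ex 0 = 1 := by simp [ex]

lemma norm_ex (x : ℝ) : ‖ex x‖ = 1 := by
  rw [ex_eq]
  exact Complex.norm_exp_ofReal_mul_I _

lemma ex_ne_zero (x : ℝ) : ex x ≠ 0 := Complex.exp_ne_zero _

lemma ex_add (x y : ℝ) : ex (x + y) = ex x * ex y := by
  unfold ex
  rw [← Complex.exp_add]
  congr 1
  push_cast
  ring

lemma ex_sum {ι : Type*} (s : Finset ι) (f : ι → ℝ) : ex (∑ i ∈ s, f i) = ∏ i ∈ s, ex (f i) := by
  classical
  induction s using Finset.induction_on with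
  | empty => simp [ex_zero]
  | insert a s ha ih => rw [Finset.sum_insert ha, Finset.prod_insert ha, ex_add, ih]

lemma ex_nat_mul (n : ℕ) (x : ℝ) : ex (n * x) = ex x ^ n := by
  induction n with
  | zero => simp [ex_zero]
  | succ n ih =>
    push_cast
    rw [add_mul, one_mul, ex_add, ih, pow_succ]

lemma conj_ex (x : ℝ) : (starRingEnd ℂ) (ex x) = ex (-x) := by
  unfold ex
  rw [← Complex.exp_conj]
  congr 1
  simp only [map_mul, Complex.conj_I, Complex.conj_ofReal, map_ofNat]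
  push_cast
  ring

lemma ex_neg (x : ℝ) : ex (-x) = (ex x)⁻¹ := by
  have h : ex (-x) * ex x = 1 := by rw [← ex_add, neg_add_cancel, ex_zero]
  exact eq_inv_of_mul_eq_one_left h

lemma ex_sub (x y : ℝ) : ex (x - y) = ex x * (starRingEnd ℂ) (ex y) := by
  rw [conj_ex, ← ex_add, sub_eq_add_neg]

lemma ex_int (k : ℤ) : ex (k : ℝ) = 1 := by
  unfold ex
  have : (2 * (Real.pi : ℂ) * Complex.I * (((k : ℤ) : ℝ) : ℂ)) = (k : ℂ) * (2 * Real.pi * Complex.I) := by
    push_cast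
    ring
  rw [this]
  exact Complex.exp_int_mul_two_pi_mul_I k

lemma ex_half : ex (1 / 2) = -1 := by
  rw [ex_eq, show 2 * Real.pi * (1 / 2) = Real.pi by ring]
  exact Complex.exp_pi_mul_I

/-- `|e(x) - e(y)| = 2 |sin π (x - y)|` -/
lemma norm_ex_sub_ex (x y : ℝ) : ‖ex x - ex y‖ = 2 * |Real.sin (Real.pi * (x - y))| := by
  have h1 : ex x - ex y = ex ((x + y) / 2) * (2 * Real.sin (Real.pi * (x - y)) * Complex.I) := by
    have e1 : ex x = ex ((x + y) / 2) * ex ((x - y) / 2) := by rw [← ex_add]; congr 1; ring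
    have e2 : ex y = ex ((x + y) / 2) * ex (-((x - y) / 2)) := by rw [← ex_add]; congr 1; ring
    have e3 : ex ((x - y) / 2) - ex (-((x - y) / 2)) =
        2 * Real.sin (Real.pi * (x - y)) * Complex.I := by
      rw [ex_eq, ex_eq, show 2 * Real.pi * ((x - y) / 2) = Real.pi * (x - y) by ring,
        show 2 * Real.pi * (-((x - y) / 2)) = -(Real.pi * (x - y)) by ring]
      rw [Complex.ofReal_neg, Complex.exp_mul_I, Complex.exp_mul_I, Complex.cos_neg, Complex.sin_neg,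
        Complex.ofReal_sin]
      ring
    rw [e1, e2, ← mul_sub, e3]
  rw [h1, norm_mul, norm_ex, one_mul, norm_mul, norm_mul, Complex.norm_I, mul_one,
    Complex.norm_real, Real.norm_eq_abs]
  norm_num

lemma norm_ex_sub_one (x : ℝ) : ‖ex x - 1‖ = 2 * |Real.sin (Real.pi * x)| := by
  have := norm_ex_sub_ex x 0
  rwa [ex_zero, sub_zero] at this

/-- Jordan's inequality in the form used here. -/
lemma two_mul_le_sin {x : ℝ} (h0 : 0 ≤ x) (h1 : x ≤ 1 / 2) : 2 * x ≤ Real.sin (Real.pi * x) := by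
  have h2 := Real.mul_le_sin (x := Real.pi * x) (by positivity)
    (by nlinarith [Real.pi_pos])
  have h3 : 2 / Real.pi * (Real.pi * x) = 2 * x := by
    field_simp
  rwa [h3] at h2

/-- The twisted block sum. -/
noncomputable def T (a : ℕ → ℂ) (n0 w : ℕ) (β γ : ℝ) : ℂ :=
  ∑ m ∈ range w, a m * ex (β * ((n0 + m : ℕ) : ℝ) + γ * ((n0 + m : ℕ) : ℝ) ^ 2)

/-- The kernel of the fourth moment. -/
noncomputable def Ker (Γ a b : ℝ) : ℝ := if a * b = 0 then 1 else 1 / (4 * Γ * |a * b|)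

/-- The sum of the bumps with indices in `I`. -/
noncomputable def gI (φ : ℝ → ℝ) (N w : ℕ) (I : Finset ℕ) (x : ℝ) : ℝ :=
  ∑ i ∈ I, 1 / 2 * φ ((w : ℝ)⁻¹ * (x - (N + i * w : ℕ)))

/-- The properties of the bump function. -/
structure IsBump (φ : ℝ → ℝ) : Prop where
  smooth : ContDiff ℝ (⊤ : ℕ∞) φ
  one : ∀ t, 1 / 4 ≤ t → t ≤ 3 / 4 → φ t = 1
  left : ∀ t, t ≤ 0 → φ t = 0
  right : ∀ t, 1 ≤ t → φ t = 0

/-- rising factorial `σ (σ+1) ... (σ+j-1)` -/
noncomputable def rising (σ : ℝ) (j : ℕ) : ℝ := ∏ i ∈ Finset.range j, (σ + i)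

/-- The class `F(N, P, σ, y, c)` of Graham and Kolesnik (smooth functions on `[N, 2N]`). -/
def GKClass (N : ℝ) (P : ℕ) (σ y c : ℝ) (f : ℝ → ℝ) : Prop :=
  ContDiffOn ℝ (⊤ : ℕ∞) f (Set.Icc N (2 * N)) ∧
    ∀ j < P, ∀ x ∈ Set.Icc N (2 * N),
      |iteratedDerivWithin (j + 1) f (Set.Icc N (2 * N)) x -
          (-1) ^ j * rising σ j * y * x ^ (-σ - j)| <
        c * (rising σ j * y * x ^ (-σ - j))

/-- The size `min (√F, √N F^(1/(2P)), N)`. -/
noncomputable def size (P : ℕ) (N F : ℝ) : ℝ :=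
  min (min (√F) (√N * F ^ (1 / (2 * (P : ℝ))))) N

/-- `(p, q)` is an exponent pair for the classes `F(N, P, σ, y, c)` with `σ`, `P`, `c` fixed. -/
def IsPairFor (σ : ℝ) (P : ℕ) (c p q : ℝ) : Prop :=
  ∀ ε : ℝ, 0 < ε → ∃ K : ℝ, ∀ N N' y : ℝ, ∀ f : ℝ → ℝ, 2 ≤ N → N ≤ N' → N' ≤ 2 * N →
    N ≤ y * N ^ (1 - σ) → GKClass N P σ y c f →
      ‖∑ n ∈ Finset.Icc ⌈N⌉₊ ⌊N'⌋₊, ex (f (n : ℝ))‖
        ≤ K * (y * N ^ (1 - σ)) ^ p * N ^ (q - p + 1 / 2) * (y * N ^ (1 - σ)) ^ ε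

end FD39
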