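import Pool.Agent.H39.FD.Defs

/-!
ROW Dif (project MP_493793_FD, about 90 lines): differences and derivatives.

PROOF. For `S = Icc a b`, `G j = iteratedDerivWithin j f S`: `HasDerivWithinAt (G j) (G (j + 1) x) S x` for `x ∈ S` (`ContDiffOn.differentiableOn_iteratedDerivWithin` with `uniqueDiffOn_Icc hab`, `iteratedDerivWithin_succ`, `DifferentiableWithinAt.hasDerivWithinAt`), `G 0 = f` (`iteratedDerivWithin_zero`). Auxiliary lemma (mean value): if
`HasDerivWithinAt g (g' x) (Icc a b) x` and `m ≤ g' x ≤ M` on `Icc a b`, `a ≤ x`, `x + 1 ≤ b` then `m ≤ g (x + 1) - g x ≤ M` (`exists_hasDerivAt_eq_slope` on `[x, x + 1]`: continuity from `HasDerivWithinAt.continuousWithinAt`, interior points: `HasDerivWithinAt.hasDerivAt` with `Icc_mem_nhds`).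
Apply it three (two) times to the functions `D h x = h (x + 1) - h x` on smaller intervals: for the second difference: `g = G 1` on `Icc a b` gives `m ≤ G 1 (x + 1) - G 1 x ≤ M` for `a ≤ x ≤ b - 1`, which is the derivative of `x ↦ G 0 (x + 1) - G 0 x` on `Icc a (b - 1)`; apply the lemma again (if `b - 1 > a`; here `x + 2 ≤ b`). Same for the third difference, starting with `G 2`.
-/

set_option autoImplicit false

namespace FD39

open Finset

private lemma Dif_mv {g g' : ℝ → ℝ} {a b m M : ℝ}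
    (hg : ∀ x ∈ Set.Icc a b, HasDerivWithinAt g (g' x) (Set.Icc a b) x)
    (hm : ∀ x ∈ Set.Icc a b, m ≤ g' x ∧ g' x ≤ M) {x : ℝ} (hx : a ≤ x) (hx1 : x + 1 ≤ b) :
    m ≤ g (x + 1) - g x ∧ g (x + 1) - g x ≤ M := by
  obtain ⟨c, hc, h⟩ := exists_hasDerivAt_eq_slope g g' (by linarith : x < x + 1)
    (fun y hy => ((hg y ⟨by linarith [hy.1], by linarith [hy.2]⟩).continuousWithinAt.mono
      (Set.Icc_subset_Icc hx hx1)))
    (fun y hy => (hg y ⟨by linarith [hy.1], by linarith [hy.2]⟩).hasDerivAt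
      (Icc_mem_nhds (by linarith [hy.1]) (by linarith [hy.2])))
  have h2 := hm c ⟨by linarith [hc.1], by linarith [hc.2]⟩
  have h3 : x + 1 - x = 1 := by ring
  rw [h, h3, div_one] at h2
  exact h2

private lemma Dif_G {f : ℝ → ℝ} {a b : ℝ} (hab : a < b)
    (hf : ContDiffOn ℝ (⊤ : ℕ∞) f (Set.Icc a b)) (j : ℕ) {x : ℝ} (hx : x ∈ Set.Icc a b) :
    HasDerivWithinAt (iteratedDerivWithin j f (Set.Icc a b))
      (iteratedDerivWithin (j + 1) f (Set.Icc a b) x) (Set.Icc a b) x := by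
  have h1 : DifferentiableOn ℝ (iteratedDerivWithin j f (Set.Icc a b)) (Set.Icc a b) :=
    hf.differentiableOn_iteratedDerivWithin (by exact_mod_cast WithTop.coe_lt_top j)
      (uniqueDiffOn_Icc hab)
  have h2 := (h1 x hx).hasDerivWithinAt
  rwa [← iteratedDerivWithin_succ] at h2

private lemma Dif_step {g g' : ℝ → ℝ} {a b : ℝ}
    (hg : ∀ x ∈ Set.Icc a b, HasDerivWithinAt g (g' x) (Set.Icc a b) x) :
    ∀ x ∈ Set.Icc a (b - 1), HasDerivWithinAt (fun y => g (y + 1) - g y) (g' (x + 1) - g' x)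
      (Set.Icc a (b - 1)) x := by
  intro x hx
  have h1 : HasDerivWithinAt g (g' x) (Set.Icc a (b - 1)) x :=
    (hg x ⟨hx.1, by linarith [hx.2]⟩).mono (Set.Icc_subset_Icc_right (by linarith))
  have h2 : HasDerivWithinAt (fun y => g (y + 1)) (g' (x + 1)) (Set.Icc a (b - 1)) x := by
    have h3 := hg (x + 1) ⟨by linarith [hx.1], by linarith [hx.2]⟩
    have h4 : HasDerivWithinAt (fun y : ℝ => y + 1) 1 (Set.Icc a (b - 1)) x :=
      (hasDerivWithinAt_id x _).add_const 1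
    have hmap : Set.MapsTo (fun y : ℝ => y + 1) (Set.Icc a (b - 1)) (Set.Icc a b) :=
      fun y hy => ⟨by linarith [hy.1], by linarith [hy.2]⟩
    have h5 := HasDerivWithinAt.comp x h3 h4 hmap
    rw [mul_one] at h5
    exact h5
  exact h2.sub h1

theorem second_diff {f : ℝ → ℝ} {a b m M : ℝ} (hab : a < b) (hf : ContDiffOn ℝ (⊤ : ℕ∞) f (Set.Icc a b))
    (hm : ∀ x ∈ Set.Icc a b, m ≤ iteratedDerivWithin 2 f (Set.Icc a b) x ∧
      iteratedDerivWithin 2 f (Set.Icc a b) x ≤ M) {x : ℝ} (hx : a ≤ x) (hx2 : x + 2 ≤ b) :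
    m ≤ f (x + 2) - 2 * f (x + 1) + f x ∧ f (x + 2) - 2 * f (x + 1) + f x ≤ M := by
  have h0 := fun y (hy : y ∈ Set.Icc a b) => Dif_G hab hf 0 hy
  have h1 := fun y (hy : y ∈ Set.Icc a b) => Dif_G hab hf 1 hy
  have m1 : ∀ y ∈ Set.Icc a (b - 1), _ := fun y hy =>
    Dif_mv h1 hm (x := y) hy.1 (by linarith [hy.2])
  have m2 := Dif_mv (Dif_step h0) m1 (x := x) hx (by linarith)
  simp only [iteratedDerivWithin_zero] at m2
  have e2 : x + 1 + 1 = x + 2 := by ring
  rw [e2] at m2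
  constructor
  · linarith [m2.1]
  · linarith [m2.2]

theorem third_diff {f : ℝ → ℝ} {a b m M : ℝ} (hab : a < b) (hf : ContDiffOn ℝ (⊤ : ℕ∞) f (Set.Icc a b))
    (hm : ∀ x ∈ Set.Icc a b, m ≤ iteratedDerivWithin 3 f (Set.Icc a b) x ∧
      iteratedDerivWithin 3 f (Set.Icc a b) x ≤ M) {x : ℝ} (hx : a ≤ x) (hx3 : x + 3 ≤ b) :
    m ≤ f (x + 3) - 3 * f (x + 2) + 3 * f (x + 1) - f x ∧
      f (x + 3) - 3 * f (x + 2) + 3 * f (x + 1) - f x ≤ M := by
  have h0 := fun y (hy : y ∈ Set.Icc a b) => Dif_G hab hf 0 hy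
  have h1 := fun y (hy : y ∈ Set.Icc a b) => Dif_G hab hf 1 hy
  have h2 := fun y (hy : y ∈ Set.Icc a b) => Dif_G hab hf 2 hy
  have m1 : ∀ y ∈ Set.Icc a (b - 1), _ := fun y hy =>
    Dif_mv h2 hm (x := y) hy.1 (by linarith [hy.2])
  have m2 : ∀ y ∈ Set.Icc a (b - 1 - 1), _ := fun y hy =>
    Dif_mv (Dif_step h1) m1 (x := y) hy.1 (by linarith [hy.2])
  have m3 := Dif_mv (Dif_step (Dif_step h0)) m2 (x := x) hx (by linarith)
  simp only [iteratedDerivWithin_zero] at m3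
  have e2 : x + 1 + 1 = x + 2 := by ring
  have e3 : x + 2 + 1 = x + 3 := by ring
  rw [e2, e3] at m3
  constructor
  · linarith [m3.1]
  · linarith [m3.2]

end FD39
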