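import Pool.Agent.H39.FD.Defs
import Pool.Agent.H39.FD.Dif

/-!
ROW Dik (project MP_493793_FD, about 80 lines): differences and derivatives of any order.

PROOF. The cases `k = 2, 3` are PROVED in `Pool/Agent/H39/FD/Dif.lean` (reuse its auxiliary lemmas). General statement by induction on `k`: for a family `G : ℕ → ℝ → ℝ` with `HasDerivWithinAt (G j) (G (j + 1) x) (Icc a b) x` for `j < k`, `x ∈ Icc a b`, and `m ≤ G k x ≤ M` on `Icc a b`: `m ≤ (fwdDiff 1)^[k] (G 0) x ≤ M` for `a ≤ x`, `x + k ≤ b`.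
Step: apply the hypothesis for `k` to the family `G' j x = G j (x + 1) - G j x` on `Icc a (b - 1)` (`j ≤ k`), where `G' k` is between `m` and `M` by the mean value theorem for `G k` (auxiliary lemma of file Dif), and `(fwdDiff 1)^[k + 1] (G 0) = (fwdDiff 1)^[k] (fwdDiff 1 (G 0))` (`Function.iterate_succ_apply`), `fwdDiff 1 (G 0) = G' 0` by `rfl`-like unfolding.
seq_diff: induction on `k` (`Function.iterate_succ_apply'`, `fwdDiff`).
-/

set_option autoImplicit false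

namespace FD39

open Finset

private lemma Dik_mv {g g' : ℝ → ℝ} {a b m M : ℝ}
    (hg : ∀ x ∈ Set.Icc a b, HasDerivWithinAt g (g' x) (Set.Icc a b) x)
    (hm : ∀ x ∈ Set.Icc a b, m ≤ g' x ∧ g' x ≤ M) {x : ℝ} (hx : a ≤ x) (hx1 : x + 1 ≤ b) :
    m ≤ g (x + 1) - g x ∧ g (x + 1) - g x ≤ M := by
  obtain ⟨c, hc, h⟩ := exists_hasDerivAt_eq_slope g g' (by linarith : x < x + 1)
    (fun y hy => ((hg y ⟨by linarith [hy.1], by linarith [hy.2]⟩).continuousWithinAt.mono
      (Set.Icc_subset_Icc hx hx1)))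
    (fun y hy => (hg y ⟨by linarith [hy.1], by linarith [hy.2]⟩).hasDerivAt
      (Icc_mem_nhds (by linarith [hy.1]) (by linarith [hy.2])))
  have h2 := hm c ⟨by linarith [hc.1], by linarith [hc.2]⟩
  have h3 : x + 1 - x = 1 := by ring
  rw [h, h3, div_one] at h2
  exact h2

private lemma Dik_G {f : ℝ → ℝ} {a b : ℝ} (hab : a < b)
    (hf : ContDiffOn ℝ (⊤ : ℕ∞) f (Set.Icc a b)) (j : ℕ) {x : ℝ} (hx : x ∈ Set.Icc a b) :
    HasDerivWithinAt (iteratedDerivWithin j f (Set.Icc a b))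
      (iteratedDerivWithin (j + 1) f (Set.Icc a b) x) (Set.Icc a b) x := by
  have h1 : DifferentiableOn ℝ (iteratedDerivWithin j f (Set.Icc a b)) (Set.Icc a b) :=
    hf.differentiableOn_iteratedDerivWithin (by exact_mod_cast WithTop.coe_lt_top j)
      (uniqueDiffOn_Icc hab)
  have h2 := (h1 x hx).hasDerivWithinAt
  rwa [← iteratedDerivWithin_succ] at h2

private lemma Dik_step {g g' : ℝ → ℝ} {a b : ℝ}
    (hg : ∀ x ∈ Set.Icc a b, HasDerivWithinAt g (g' x) (Set.Icc a b) x) :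
    ∀ x ∈ Set.Icc a (b - 1), HasDerivWithinAt (fun y => g (y + 1) - g y) (g' (x + 1) - g' x)
      (Set.Icc a (b - 1)) x := by
  intro x hx
  have h1 : HasDerivWithinAt g (g' x) (Set.Icc a (b - 1)) x :=
    (hg x ⟨hx.1, by linarith [hx.2]⟩).mono (Set.Icc_subset_Icc_right (by linarith))
  have h2 : HasDerivWithinAt (fun y => g (y + 1)) (g' (x + 1)) (Set.Icc a (b - 1)) x := by
    have h3 := hg (x + 1) ⟨by linarith [hx.1], by linarith [hx.2]⟩
    have h4 : HasDerivWithinAt (fun y : ℝ => y + 1) 1 (Set.Icc a (b - 1)) x :=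
      (hasDerivWithinAt_id x _).add_const 1
    have hmap : Set.MapsTo (fun y : ℝ => y + 1) (Set.Icc a (b - 1)) (Set.Icc a b) :=
      fun y hy => ⟨by linarith [hy.1], by linarith [hy.2]⟩
    have h5 := HasDerivWithinAt.comp x h3 h4 hmap
    rw [mul_one] at h5
    exact h5
  exact h2.sub h1

/-- the statement for families of functions -/
private lemma Dik_fam (k : ℕ) : ∀ (G : ℕ → ℝ → ℝ) (a b m M : ℝ),
    (∀ j < k, ∀ x ∈ Set.Icc a b, HasDerivWithinAt (G j) (G (j + 1) x) (Set.Icc a b) x) →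
    (∀ x ∈ Set.Icc a b, m ≤ G k x ∧ G k x ≤ M) → ∀ x : ℝ, a ≤ x → x + k ≤ b →
    m ≤ (fwdDiff (1 : ℝ))^[k] (G 0) x ∧ (fwdDiff (1 : ℝ))^[k] (G 0) x ≤ M := by
  induction k with
  | zero =>
    intro G a b m M _ hm x hx hxk
    have h := hm x ⟨hx, by simpa using hxk⟩
    simpa using h
  | succ k ih =>
    intro G a b m M hG hm x hx hxk
    have hxk' : x + k ≤ b - 1 := by
      push_cast at hxk
      linarith
    have h := ih (fun j y => G j (y + 1) - G j y) a (b - 1) m M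
      (fun j hj => Dik_step (hG j (by omega)))
      (fun y hy => Dik_mv (hG k (by omega)) hm (x := y) hy.1 (by linarith [hy.2])) x hx hxk'
    have e : fwdDiff (1 : ℝ) (G 0) = fun y => G 0 (y + 1) - G 0 y := rfl
    rw [Function.iterate_succ_apply, e]
    exact h

theorem kth_diff {f : ℝ → ℝ} {a b m M : ℝ} (hab : a < b) (hf : ContDiffOn ℝ (⊤ : ℕ∞) f (Set.Icc a b))
    (k : ℕ) (hm : ∀ x ∈ Set.Icc a b, m ≤ iteratedDerivWithin k f (Set.Icc a b) x ∧
      iteratedDerivWithin k f (Set.Icc a b) x ≤ M) {x : ℝ} (hx : a ≤ x) (hxk : x + k ≤ b) :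
    m ≤ (fwdDiff (1 : ℝ))^[k] f x ∧ (fwdDiff (1 : ℝ))^[k] f x ≤ M := by
  have h := Dik_fam k (fun j => iteratedDerivWithin j f (Set.Icc a b)) a b m M
    (fun j _ y hy => Dik_G hab hf j hy) hm x hx hxk
  simpa only [iteratedDerivWithin_zero] using h

theorem seq_diff (f : ℝ → ℝ) (n0 k n : ℕ) :
    (fwdDiff (1 : ℕ))^[k] (fun n : ℕ => f ((n0 + n : ℕ) : ℝ)) n =
      (fwdDiff (1 : ℝ))^[k] f ((n0 + n : ℕ) : ℝ) := by
  induction k generalizing n with
  | zero => rfl
  | succ k ih =>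
    rw [Function.iterate_succ_apply', Function.iterate_succ_apply', fwdDiff, fwdDiff, ih, ih]
    have e : ((n0 + (n + 1) : ℕ) : ℝ) = ((n0 + n : ℕ) : ℝ) + 1 := by
      push_cast
      ring
    rw [e]

end FD39
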