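import Pool.Agent.H39.FD.Defs

/-!
ROW KL (project MP_493793_FD, about 110 lines): Kusmin - Landau inequality for sequences.

PROOF. Let `d n = u (n + 1) - u n - k ∈ [θ, 1 - θ]` for `a ≤ n < b`, `z n = ex (u (n + 1) - u n) = ex (d n)` (`ex_int`), `C n = 1 / (z n - 1)`; `z n ≠ 1` because `‖ex (d n) - 1‖ = 2 |sin π d n| ≥ 4 θ` (`norm_ex_sub_one`, `two_mul_le_sin` for `d n ≤ 1/2`, and for `1 - d n` otherwise: `sin (π d) = sin (π (1 - d))`). Then `ex (u n) = C n * (ex (u (n + 1)) - ex (u n))`.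
Summation by parts: for `a < b`: `∑_{n ∈ Ico a b} ex (u n) = C (b - 1) * ex (u b) - C a * ex (u a) + ∑_{n ∈ Ico (a + 1) b} (C (n - 1) - C n) * ex (u n)` (prove it by induction on `b`, `Nat.le_induction`). `‖C n‖ ≤ 1 / (4 θ)`. And
`C (n - 1) - C n = (z n - z (n - 1)) / ((z (n - 1) - 1) (z n - 1))`, norm `= 2 |sin π (d n - d (n - 1))| / (4 |sin π d (n - 1)| |sin π d n|) = (1 / 2) (cot π d (n - 1) - cot π d n)` as `0 < d (n - 1) ≤ d n < 1` (`norm_ex_sub_ex`, `norm_ex_sub_one`; `cot x = cos x / sin x`, `sin (y - x) = sin y cos x - cos y sin x`), which telescopes: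
`∑ ≤ (1 / 2) (cot π d a - cot π d (b - 1)) ≤ 1 / (2 θ)` (`|cot π d| = |cos π d| / |sin π d| ≤ 1 / (2 θ)`). Total `≤ 2 / (4 θ) + 1 / (2 θ) = 1 / θ`.
-/

set_option autoImplicit false

namespace FD39

open Finset

private lemma KL_sin {θ x : ℝ} (hθ : 0 < θ) (h0 : θ ≤ x) (h1 : x ≤ 1 - θ) :
    2 * θ ≤ Real.sin (Real.pi * x) := by
  rcases le_total x (1 / 2) with h | h
  · have := two_mul_le_sin (x := x) (by linarith) h
    linarith
  · have h2 := two_mul_le_sin (x := 1 - x) (by linarith) (by linarith)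
    have h3 : Real.sin (Real.pi * (1 - x)) = Real.sin (Real.pi * x) := by
      rw [mul_sub, mul_one, Real.sin_pi_sub]
    rw [h3] at h2
    linarith

private noncomputable def KLct (x : ℝ) : ℝ := Real.cos (Real.pi * x) / Real.sin (Real.pi * x)

private lemma KL_ct {θ x : ℝ} (hθ : 0 < θ) (h0 : θ ≤ x) (h1 : x ≤ 1 - θ) : |KLct x| ≤ 1 / (2 * θ) := by
  have hs := KL_sin hθ h0 h1
  unfold KLct
  rw [abs_div, abs_of_pos (show 0 < Real.sin (Real.pi * x) by linarith)]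
  exact div_le_div₀ zero_le_one (Real.abs_cos_le_one _) (by linarith) hs

private lemma KL_inv {θ x : ℝ} (hθ : 0 < θ) (h0 : θ ≤ x) (h1 : x ≤ 1 - θ) :
    ‖(ex x - 1)⁻¹‖ ≤ 1 / (4 * θ) := by
  have hs := KL_sin hθ h0 h1
  rw [norm_inv, norm_ex_sub_one, abs_of_pos (show 0 < Real.sin (Real.pi * x) by linarith), ← one_div]
  exact div_le_div_of_nonneg_left zero_le_one (by linarith) (by linarith)

private lemma KL_ne {θ x : ℝ} (hθ : 0 < θ) (h0 : θ ≤ x) (h1 : x ≤ 1 - θ) : ex x - 1 ≠ 0 := by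
  have hs := KL_sin hθ h0 h1
  rw [← norm_pos_iff, norm_ex_sub_one, abs_of_pos (show 0 < Real.sin (Real.pi * x) by linarith)]
  linarith

private lemma KL_dif {θ x y : ℝ} (hθ : 0 < θ) (h0 : θ ≤ x) (hxy : x ≤ y) (h1 : y ≤ 1 - θ) :
    ‖(ex x - 1)⁻¹ - (ex y - 1)⁻¹‖ = 1 / 2 * (KLct x - KLct y) := by
  have hsx := KL_sin hθ h0 (hxy.trans h1)
  have hsy := KL_sin hθ (h0.trans hxy) h1
  have hx := KL_ne hθ h0 (hxy.trans h1)
  have hy := KL_ne hθ (h0.trans hxy) h1
  rw [inv_sub_inv hx hy, sub_sub_sub_cancel_right, norm_div, norm_mul, norm_ex_sub_ex,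
    norm_ex_sub_one, norm_ex_sub_one, abs_of_pos (show 0 < Real.sin (Real.pi * x) by linarith),
    abs_of_pos (show 0 < Real.sin (Real.pi * y) by linarith)]
  have hd : 0 ≤ Real.sin (Real.pi * (y - x)) := by
    apply Real.sin_nonneg_of_nonneg_of_le_pi
    · exact mul_nonneg Real.pi_pos.le (by linarith)
    · nlinarith [Real.pi_pos]
  rw [abs_of_nonneg hd, mul_sub, Real.sin_sub]
  unfold KLct
  have hsx0 : Real.sin (Real.pi * x) ≠ 0 := by linarith
  have hsy0 : Real.sin (Real.pi * y) ≠ 0 := by linarith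
  field_simp

theorem kusmin_landau (u : ℕ → ℝ) {a b : ℕ} (hab : a ≤ b) (k : ℤ) {θ : ℝ} (hθ : 0 < θ)
    (hmono : ∀ n, a ≤ n → n + 1 < b → u (n + 1) - u n ≤ u (n + 2) - u (n + 1))
    (hlo : ∀ n, a ≤ n → n < b → k + θ ≤ u (n + 1) - u n)
    (hhi : ∀ n, a ≤ n → n < b → u (n + 1) - u n ≤ k + 1 - θ) :
    ‖∑ n ∈ Ico a b, ex (u n)‖ ≤ 1 / θ := by
  rcases hab.eq_or_lt with rfl | hlt
  · rw [Ico_self, sum_empty, norm_zero]
    positivity
  obtain ⟨m, rfl⟩ : ∃ m, b = m + 1 := ⟨b - 1, by omega⟩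
  have ham : a ≤ m := by omega
  obtain ⟨d, hd⟩ : ∃ d : ℕ → ℝ, ∀ n, d n = u (n + 1) - u n - k := ⟨_, fun _ => rfl⟩
  obtain ⟨C, hC⟩ : ∃ C : ℕ → ℂ, ∀ n, C n = (ex (d n) - 1)⁻¹ := ⟨_, fun _ => rfl⟩
  have hd0 : ∀ n, a ≤ n → n ≤ m → θ ≤ d n := fun n h1 h2 => by
    have := hlo n h1 (by omega)
    rw [hd]
    linarith
  have hd1 : ∀ n, a ≤ n → n ≤ m → d n ≤ 1 - θ := fun n h1 h2 => by
    have := hhi n h1 (by omega)
    rw [hd]
    linarith
  have hdm : ∀ n, a ≤ n → n < m → d n ≤ d (n + 1) := fun n h1 h2 => by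
    have := hmono n h1 (by omega)
    rw [hd, hd]
    linarith
  have hstep : ∀ n, a ≤ n → n ≤ m → ex (u n) = C n * (ex (u (n + 1)) - ex (u n)) := by
    intro n h1 h2
    have h3 : ex (u (n + 1)) = ex (u n) * ex (d n) := by
      have h4 : u (n + 1) = u n + (d n + (k : ℝ)) := by
        rw [hd]
        ring
      rw [h4, ex_add, ex_add, ex_int, mul_one]
    have h5 := KL_ne hθ (hd0 n h1 h2) (hd1 n h1 h2)
    rw [h3, hC]
    have h6 : ex (u n) * ex (d n) - ex (u n) = (ex (d n) - 1) * ex (u n) := by ring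
    rw [h6, inv_mul_cancel_left₀ h5]
  have hparts : ∀ j, a ≤ j → j ≤ m → ∑ n ∈ Ico a (j + 1), ex (u n) =
      C j * ex (u (j + 1)) - C a * ex (u a) + ∑ n ∈ Ico a j, (C n - C (n + 1)) * ex (u (n + 1)) := by
    intro j hj
    induction j, hj using Nat.le_induction with
    | base =>
      intro _
      rw [Nat.Ico_succ_singleton, sum_singleton, Ico_self, sum_empty, add_zero, ← mul_sub]
      exact hstep a le_rfl ham
    | succ j hj ih =>
      intro hjm
      rw [sum_Ico_succ_top (by omega), ih (by omega), sum_Ico_succ_top hj]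
      have h1 := hstep (j + 1) (by omega) hjm
      have h2 : C (j + 1) * ex (u (j + 1 + 1)) = ex (u (j + 1)) + C (j + 1) * ex (u (j + 1)) := by
        rw [mul_sub] at h1
        linear_combination -h1
      rw [h2]
      ring
  have hvar : ∀ j, a ≤ j → j ≤ m → ‖∑ n ∈ Ico a j, (C n - C (n + 1)) * ex (u (n + 1))‖ ≤
      1 / 2 * (KLct (d a) - KLct (d j)) := by
    intro j hj
    induction j, hj using Nat.le_induction with
    | base =>
      intro _
      rw [Ico_self, sum_empty, norm_zero, sub_self, mul_zero]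
    | succ j hj ih =>
      intro hjm
      rw [sum_Ico_succ_top hj]
      refine (norm_add_le _ _).trans ?_
      have h1 := ih (by omega)
      have h2 : ‖(C j - C (j + 1)) * ex (u (j + 1))‖ = 1 / 2 * (KLct (d j) - KLct (d (j + 1))) := by
        rw [norm_mul, norm_ex, mul_one, hC, hC]
        exact KL_dif hθ (hd0 j hj (by omega)) (hdm j hj (by omega)) (hd1 (j + 1) (by omega) hjm)
      rw [h2]
      linarith
  rw [hparts m ham le_rfl]
  refine (norm_add_le _ _).trans ?_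
  have h1 := hvar m ham le_rfl
  have h2 : ‖C m * ex (u (m + 1)) - C a * ex (u a)‖ ≤ 1 / (4 * θ) + 1 / (4 * θ) := by
    refine (norm_sub_le _ _).trans ?_
    rw [norm_mul, norm_mul, norm_ex, norm_ex, mul_one, mul_one, hC, hC]
    exact add_le_add (KL_inv hθ (hd0 m ham le_rfl) (hd1 m ham le_rfl))
      (KL_inv hθ (hd0 a le_rfl ham) (hd1 a le_rfl ham))
  have h3 := abs_le.1 (KL_ct hθ (hd0 m ham le_rfl) (hd1 m ham le_rfl))
  have h4 := abs_le.1 (KL_ct hθ (hd0 a le_rfl ham) (hd1 a le_rfl ham))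
  have h5 : 1 / (4 * θ) + 1 / (4 * θ) + 1 / 2 * (1 / (2 * θ) + 1 / (2 * θ)) = 1 / θ := by
    field_simp
    norm_num
  linarith [h3.1, h4.2]

end FD39
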