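import Pool.Agent.H39.FD.Defs
import Pool.Agent.H39.FD.KL

/-!
ROW Sec (project MP_493793_FD, about 140 lines): the second derivative test for sequences.

PROOF. If `L ≤ 1` the sum has norm `≤ 1 ≤ 1 / √lam`. Let `L ≥ 2`, `d n = u (n + 1) - u n` for `n < L - 1`; `lam ≤ d (n + 1) - d n ≤ C lam` for `n + 1 < L - 1`, so `d` is strictly increasing with `d n' - d n ≥ lam (n' - n)` for `n ≤ n' < L - 1`, and `d (L - 2) - d 0 ≤ C lam L`. Let `θ = √lam / 2 ≤ 1 / 2`. Split off the last term: the norm is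
`≤ 1 + ‖∑_{n < L - 1} ex (u n)‖`. Let `κ n = ⌊d n + θ⌋` (an integer, monotone in `n`). `∑_{n < L - 1} = ∑_{k ∈ Icc (κ 0) (κ (L - 2))} ∑_{n < L - 1, κ n = k}` (`Finset.sum_fiberwise_of_maps_to`); number of `k`: `κ (L - 2) - κ 0 + 1 ≤ C lam L + 2`. For fixed `k` the fibre is
`{n : k - θ ≤ d n < k + 1 - θ} = {n : k - θ ≤ d n < k + θ} ∪ {n : k + θ ≤ d n < k + 1 - θ}` (disjoint). Lemma: for a monotone `d` and reals `s, t` the set `{n < L' : s ≤ d n < t}` is an `Ico a b` with `a ≤ b ≤ L'` (`a = card of {n < L' : d n < s}`, `b = card of {n < L' : d n < t}` for `s ≤ t`; or by induction on `L'`).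
The first set is an `Ico a b` with `lam (b - 1 - a) ≤ 2 θ`, so it has at most `2 θ / lam + 1 = 1 / √lam + 1 ≤ 2 / √lam` elements; on the second set `kusmin_landau` (file KL) gives `≤ 1 / θ = 2 / √lam`. So each `k` contributes `≤ 4 / √lam`, the total is `≤ 1 + (C lam L + 2) * 4 / √lam ≤ 4 C L √lam + 9 / √lam ≤ 9 C (L √lam + 1 / √lam)`.
-/

set_option autoImplicit false

namespace FD39

open Finset

theorem Sec_lower (p : ℕ → Prop) [DecidablePred p] (M : ℕ)
    (h : ∀ n m, n ≤ m → m < M → p m → p n) :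
    (range M).filter p = range ((range M).filter p).card := by
  induction M with
  | zero => simp
  | succ M ih =>
    by_cases hp : p M
    · have h1 : (range (M + 1)).filter p = range (M + 1) := by
        apply filter_true_of_mem
        intro n hn
        exact h n M (by rw [mem_range] at hn; omega) (by omega) hp
      rw [h1, card_range]
    · have h1 : (range (M + 1)).filter p = (range M).filter p := by
        rw [range_add_one, filter_insert, if_neg hp]
      rw [h1]
      exact ih (fun n m hnm hm => h n m hnm (by omega))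

theorem Sec_grow (d : ℕ → ℝ) (M : ℕ) {lam : ℝ}
    (hd : ∀ n, n + 1 < M → lam ≤ d (n + 1) - d n) (n m : ℕ) (hnm : n ≤ m) (hm : m < M) :
    lam * ((m : ℝ) - n) ≤ d m - d n := by
  induction m, hnm using Nat.le_induction with
  | base => simp
  | succ m hnm ih =>
    have h1 := ih (by omega)
    have h2 := hd m hm
    push_cast
    linarith

theorem Sec_grow' (d : ℕ → ℝ) (M : ℕ) {c : ℝ}
    (hd : ∀ n, n + 1 < M → d (n + 1) - d n ≤ c) (m : ℕ) (hm : m < M) :
    d m - d 0 ≤ c * m := by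
  induction m with
  | zero => simp
  | succ m ih =>
    have h1 := ih (by omega)
    have h2 := hd m hm
    push_cast
    linarith

theorem Sec_one (u : ℕ → ℝ) (M : ℕ) {lam : ℝ} (hlam : 0 < lam) (hlam1 : lam ≤ 1)
    (hd : ∀ n, n + 1 < M → lam ≤ (u (n + 1 + 1) - u (n + 1)) - (u (n + 1) - u n)) (k : ℤ) :
    ‖∑ n ∈ (range M).filter (fun n => ⌊(u (n + 1) - u n) + √lam / 2⌋ = k), ex (u n)‖ ≤
      4 / √lam := by
  obtain ⟨s, hs⟩ : ∃ s, s = √lam := ⟨_, rfl⟩
  rw [← hs]
  have hs0 : 0 < s := by rw [hs]; exact Real.sqrt_pos.2 hlam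
  have hss : s * s = lam := by rw [hs]; exact Real.mul_self_sqrt hlam.le
  have hs1 : s ≤ 1 := by
    rw [hs]
    exact Real.sqrt_le_one.2 hlam1
  obtain ⟨d, hdd⟩ : ∃ d : ℕ → ℝ, d = fun n => u (n + 1) - u n := ⟨_, rfl⟩
  have hd' : ∀ n, n + 1 < M → lam ≤ d (n + 1) - d n := by
    intro n hn
    rw [hdd]
    exact hd n hn
  have hgrow := Sec_grow d M hd'
  have hmono : ∀ n m, n ≤ m → m < M → d n ≤ d m := by
    intro n m hnm hm
    have h1 := hgrow n m hnm hm
    have h2 : (0 : ℝ) ≤ (m : ℝ) - n := by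
      have : (n : ℝ) ≤ m := by exact_mod_cast hnm
      linarith
    have h3 := mul_nonneg hlam.le h2
    linarith
  obtain ⟨A, hA⟩ : ∃ A : ℝ → ℕ, A = fun t => ((range M).filter (fun n => d n < t)).card := ⟨_, rfl⟩
  have hAr : ∀ t, (range M).filter (fun n => d n < t) = range (A t) := by
    intro t
    rw [hA]
    exact Sec_lower _ M (fun n m hnm hm h => lt_of_le_of_lt (hmono n m hnm hm) h)
  have hAm : ∀ t n, n < A t ↔ n < M ∧ d n < t := by
    intro t n
    have h1 : n ∈ (range M).filter (fun n => d n < t) ↔ n ∈ range (A t) := by rw [hAr]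
    rw [mem_filter, mem_range, mem_range] at h1
    exact h1.symm
  have hAmono : ∀ t t', t ≤ t' → A t ≤ A t' := by
    intro t t' htt
    rw [hA]
    apply card_le_card
    intro n hn
    rw [mem_filter] at hn ⊢
    exact ⟨hn.1, lt_of_lt_of_le hn.2 htt⟩
  have hAM : ∀ t, A t ≤ M := by
    intro t
    rw [hA]
    exact (card_filter_le _ _).trans (by rw [card_range])
  have hfib : (range M).filter (fun n => ⌊(u (n + 1) - u n) + s / 2⌋ = k) =
      Ico (A (k - s / 2)) (A (k + 1 - s / 2)) := by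
    ext n
    rw [mem_filter, mem_range, mem_Ico, hAm, ← not_lt, hAm, Int.floor_eq_iff]
    have e : d n = u (n + 1) - u n := by rw [hdd]
    rw [← e]
    constructor
    · rintro ⟨h1, h2, h3⟩
      refine ⟨fun h4 => ?_, h1, by linarith⟩
      linarith [h4.2]
    · rintro ⟨h1, h2, h3⟩
      refine ⟨h2, ?_, by linarith⟩
      by_contra h4
      exact h1 ⟨h2, by linarith⟩
  rw [hfib, ← sum_Ico_consecutive _ (hAmono (k - s / 2) (k + s / 2) (by linarith))
    (hAmono (k + s / 2) (k + 1 - s / 2) (by linarith))]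
  have hP1 : ‖∑ n ∈ Ico (A (k - s / 2)) (A (k + s / 2)), ex (u n)‖ ≤ 2 / s := by
    refine (norm_sum_le _ _).trans ?_
    have h1 : ∑ n ∈ Ico (A (k - s / 2)) (A (k + s / 2)), ‖ex (u n)‖ =
        ((A (k + s / 2) - A (k - s / 2) : ℕ) : ℝ) := by
      simp [norm_ex]
    rw [h1]
    rcases Nat.lt_or_ge (A (k - s / 2)) (A (k + s / 2)) with hlt | hge
    · obtain ⟨a, ha⟩ : ∃ a, a = A (k - s / 2) := ⟨_, rfl⟩
      obtain ⟨b, hb⟩ : ∃ b, b + 1 = A (k + s / 2) := ⟨A (k + s / 2) - 1, by omega⟩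
      rw [← ha, ← hb] at hlt ⊢
      have h2 : b < M ∧ d b < k + s / 2 := (hAm _ _).1 (by omega)
      have h3 : ¬ (a < M ∧ d a < k - s / 2) := by
        rw [← hAm]
        omega
      have h4 : (k : ℝ) - s / 2 ≤ d a := by
        by_contra h5
        exact h3 ⟨by omega, by linarith⟩
      have h5 := hgrow a b (by omega) h2.1
      have h6 : lam * ((b : ℝ) - a) ≤ s := by linarith [h2.2]
      have h7 : s * ((b : ℝ) - a) ≤ 1 := by
        rw [← hss] at h6
        have : s * (s * ((b : ℝ) - a)) ≤ s * 1 := by linarith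
        exact le_of_mul_le_mul_left this hs0
      rw [Nat.cast_sub (by omega)]
      push_cast
      rw [le_div_iff₀ hs0]
      nlinarith
    · have h2 : A (k + s / 2) - A (k - s / 2) = 0 := by omega
      rw [h2]
      push_cast
      positivity
  have hP2 : ‖∑ n ∈ Ico (A (k + s / 2)) (A (k + 1 - s / 2)), ex (u n)‖ ≤ 2 / s := by
    have h1 := kusmin_landau u (a := A (k + s / 2)) (b := A (k + 1 - s / 2))
      (hAmono (k + s / 2) (k + 1 - s / 2) (by linarith)) k (θ := s / 2) (by positivity)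
      (by
        intro n _ hn
        have h2 : n + 1 < M := lt_of_lt_of_le hn (hAM _)
        have h3 := hmono n (n + 1) (by omega) h2
        rw [hdd] at h3
        exact h3)
      (by
        intro n hn hn2
        have h2 : n < M := lt_of_lt_of_le hn2 (hAM _)
        have h3 : ¬ (n < M ∧ d n < k + s / 2) := by
          rw [← hAm]
          omega
        have h4 : (k : ℝ) + s / 2 ≤ d n := by
          by_contra h5
          exact h3 ⟨h2, by linarith⟩
        rw [hdd] at h4
        exact h4)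
      (by
        intro n _ hn2
        have h3 := ((hAm _ _).1 hn2).2
        rw [hdd] at h3
        exact h3.le)
    refine h1.trans (le_of_eq ?_)
    field_simp
  calc ‖∑ n ∈ Ico (A (k - s / 2)) (A (k + s / 2)), ex (u n) +
        ∑ n ∈ Ico (A (k + s / 2)) (A (k + 1 - s / 2)), ex (u n)‖
      ≤ 2 / s + 2 / s := (norm_add_le _ _).trans (add_le_add hP1 hP2)
    _ = 4 / s := by ring

theorem second_test (u : ℕ → ℝ) (L : ℕ) {lam C : ℝ} (hlam : 0 < lam) (hlam1 : lam ≤ 1) (hC : 1 ≤ C)
    (hd : ∀ n, n + 2 < L → lam ≤ u (n + 2) - 2 * u (n + 1) + u n ∧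
      u (n + 2) - 2 * u (n + 1) + u n ≤ C * lam) :
    ‖∑ n ∈ range L, ex (u n)‖ ≤ 9 * C * (L * √lam + 1 / √lam) := by
  have hs0 : 0 < √lam := Real.sqrt_pos.2 hlam
  have hss : √lam * √lam = lam := Real.mul_self_sqrt hlam.le
  have hs1 : √lam ≤ 1 := Real.sqrt_le_one.2 hlam1
  have hinv : 1 ≤ 1 / √lam := by
    rw [le_div_iff₀ hs0]
    linarith
  have hnn : 0 ≤ (L : ℝ) * √lam := by positivity
  have hbase : 1 / √lam ≤ C * (L * √lam + 1 / √lam) := by
    have h1 : (0 : ℝ) ≤ L * √lam + 1 / √lam := by positivity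
    nlinarith
  rcases Nat.lt_or_ge L 2 with hL | hL
  · have h1 : ‖∑ n ∈ range L, ex (u n)‖ ≤ L := by
      refine (norm_sum_le _ _).trans ?_
      simp [norm_ex]
    have h2 : (L : ℝ) ≤ 1 := by
      have : L ≤ 1 := by omega
      exact_mod_cast this
    linarith
  · obtain ⟨M, rfl⟩ : ∃ M, L = M + 1 := ⟨L - 1, by omega⟩
    have hM : 0 < M := by omega
    rw [sum_range_succ]
    obtain ⟨d, hdd⟩ : ∃ d : ℕ → ℝ, d = fun n => u (n + 1) - u n := ⟨_, rfl⟩
    have hlo : ∀ n, n + 1 < M → lam ≤ d (n + 1) - d n := by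
      intro n hn
      have h1 := (hd n (by omega)).1
      rw [hdd]
      dsimp only
      have e : u (n + 1 + 1) = u (n + 2) := rfl
      rw [e]
      linarith
    have hhi : ∀ n, n + 1 < M → d (n + 1) - d n ≤ C * lam := by
      intro n hn
      have h1 := (hd n (by omega)).2
      rw [hdd]
      dsimp only
      have e : u (n + 1 + 1) = u (n + 2) := rfl
      rw [e]
      linarith
    have hmono : ∀ n m, n ≤ m → m < M → d n ≤ d m := by
      intro n m hnm hm
      have h1 := Sec_grow d M hlo n m hnm hm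
      have h2 : (0 : ℝ) ≤ (m : ℝ) - n := by
        have : (n : ℝ) ≤ m := by exact_mod_cast hnm
        linarith
      have h3 := mul_nonneg hlam.le h2
      linarith
    obtain ⟨κ, hκ⟩ : ∃ κ : ℕ → ℤ, κ = fun n => ⌊d n + √lam / 2⌋ := ⟨_, rfl⟩
    have hmaps : ∀ n ∈ range M, κ n ∈ Icc (κ 0) (κ (M - 1)) := by
      intro n hn
      rw [mem_range] at hn
      rw [mem_Icc, hκ]
      constructor
      · exact Int.floor_le_floor (by linarith [hmono 0 n (by omega) hn])
      · exact Int.floor_le_floor (by linarith [hmono n (M - 1) (by omega) (by omega)])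
    have hfw : ∑ n ∈ range M, ex (u n) =
        ∑ k ∈ Icc (κ 0) (κ (M - 1)), ∑ n ∈ (range M).filter (fun n => κ n = k), ex (u n) :=
      (sum_fiberwise_of_maps_to hmaps _).symm
    have hone : ∀ k ∈ Icc (κ 0) (κ (M - 1)),
        ‖∑ n ∈ (range M).filter (fun n => κ n = k), ex (u n)‖ ≤ 4 / √lam := by
      intro k _
      have h1 := Sec_one u M hlam hlam1 (by
        intro n hn
        have h2 := hlo n hn
        rw [hdd] at h2
        exact h2) k
      rw [hκ, hdd]
      exact h1
    have hcount : ((Icc (κ 0) (κ (M - 1))).card : ℝ) ≤ C * lam * (M + 1 : ℕ) + 2 := by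
      rw [Int.card_Icc]
      have hle : κ 0 ≤ κ (M - 1) := by
        have := hmaps 0 (mem_range.2 hM)
        exact (mem_Icc.1 this).2
      have h1 : (((κ (M - 1) + 1 - κ 0).toNat : ℤ) : ℝ) = ((κ (M - 1) + 1 - κ 0 : ℤ) : ℝ) := by
        rw [Int.toNat_of_nonneg (by omega)]
      have h2 : (((κ (M - 1) + 1 - κ 0).toNat : ℕ) : ℝ) = ((κ (M - 1) + 1 - κ 0 : ℤ) : ℝ) := by
        rw [← h1, Int.cast_natCast]
      rw [h2]
      push_cast
      have h3 : (κ (M - 1) : ℝ) ≤ d (M - 1) + √lam / 2 := by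
        rw [hκ]
        exact Int.floor_le _
      have h4 : d 0 + √lam / 2 < (κ 0 : ℝ) + 1 := by
        rw [hκ]
        exact Int.lt_floor_add_one _
      have h5 := Sec_grow' d M hhi (M - 1) (by omega)
      have h6 : ((M - 1 : ℕ) : ℝ) ≤ (M : ℝ) + 1 := by
        have : ((M - 1 : ℕ) : ℝ) ≤ (M : ℝ) := by
          exact_mod_cast Nat.sub_le M 1
        linarith
      have h7 : C * lam * ((M - 1 : ℕ) : ℝ) ≤ C * lam * ((M : ℝ) + 1) :=
        mul_le_mul_of_nonneg_left h6 (by positivity)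
      linarith
    have hsum : ‖∑ n ∈ range M, ex (u n)‖ ≤ (C * lam * (M + 1 : ℕ) + 2) * (4 / √lam) := by
      rw [hfw]
      refine (norm_sum_le _ _).trans ((sum_le_sum hone).trans ?_)
      rw [sum_const, nsmul_eq_mul]
      exact mul_le_mul_of_nonneg_right hcount (by positivity)
    have hlast : ‖ex (u M)‖ = 1 := norm_ex _
    refine (norm_add_le _ _).trans ?_
    rw [hlast]
    have hq : lam * (4 / √lam) = 4 * √lam := by
      nth_rewrite 1 [← hss]
      field_simp
    have e1 : (C * lam * (M + 1 : ℕ) + 2) * (4 / √lam) =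
        4 * (C * ((M + 1 : ℕ) * √lam)) + 8 * (1 / √lam) := by
      have : (C * lam * (M + 1 : ℕ) + 2) * (4 / √lam) =
          C * (M + 1 : ℕ) * (lam * (4 / √lam)) + 8 * (1 / √lam) := by ring
      rw [this, hq]
      ring
    rw [e1] at hsum
    have h8 : (0 : ℝ) ≤ C * ((M + 1 : ℕ) * √lam) := by positivity
    have h9 : 1 / √lam ≤ C * (1 / √lam) := by
      have : (0 : ℝ) ≤ 1 / √lam := by positivity
      nlinarith
    have h10 : 9 * C * ((M + 1 : ℕ) * √lam + 1 / √lam) =
        9 * (C * ((M + 1 : ℕ) * √lam)) + 9 * (C * (1 / √lam)) := by ring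
    rw [h10]
    linarith

end FD39
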