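import Pool.Agent.H39.FD.Defs
import Pool.Agent.H39.FD.Sec
import Pool.Agent.H39.FD.Dif

/-!
ROW Up2 (project MP_493793_FD, about 110 lines): upper bound from two derivatives.

PROOF. `A = (1 - c) σ 2 ^ (-σ - 1) > 0`, `C = (1 + c) / (1 - c) * 2 ^ (σ + 1) ≥ 1`, `K = 2 √A + 9 C (2 √A + 1 / √A)`. Let `F = y N ^ (1 - σ) ≥ N > 0`, so `y > 0`; `lam = A F / N ^ 2`. The condition of the class with `j = 1` (`1 < P`, `rising σ 1 = σ`), `D2 f = iteratedDerivWithin 2 f ..`: `|D2 f + σ y x ^ (-σ - 1)| < c σ y x ^ (-σ - 1)`, so `(1 - c) σ y x ^ (-σ - 1) ≤ - D2 f ≤ (1 + c) σ y x ^ (-σ - 1)`; and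
`(2 N) ^ (-σ - 1) ≤ x ^ (-σ - 1) ≤ N ^ (-σ - 1)`, `y N ^ (-σ - 1) = F / N ^ 2` (`Real.rpow_add`). So `lam ≤ - D2 f ≤ C lam` on `[N, 2 N]`, and `second_diff` (file Dif, `m = - C lam`, `M = - lam`) gives the condition of `second_test` (file Sec) for `u n = - f (n0 + n)`, `n0 = ⌈N⌉₊`, `L = ⌊N'⌋₊ + 1 - n0 ≤ N + 1 ≤ 2 N`
(`n0 + n ≤ ⌊N'⌋₊ ≤ N' ≤ 2 N` for `n < L`). `∑_{n ∈ Icc n0 ⌊N'⌋₊} ex (f n) = ∑_{n < L} ex (f (n0 + n))` (`Finset.sum_Ico_eq_sum_range`; if `⌊N'⌋₊ < n0` the sum is empty, `0`), and its norm is the norm of `∑ ex (- f (n0 + n)) = conj ..` (`conj_ex`, `RCLike.norm_conj`). If `lam ≤ 1`: the norm is `≤ 9 C (2 N √lam + 1 / √lam)`,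
`N √lam = √A √F`, `1 / √lam = N / (√A √F) ≤ √F / √A` (`N ≤ F`). If `lam > 1`: the norm is `≤ L ≤ 2 N ≤ 2 N √lam = 2 √A √F`.
-/

set_option autoImplicit false

namespace FD39

open Finset

theorem Up2_cls {σ c : ℝ} (hσ : 0 < σ) (hc : 0 < c) (hc1 : c < 1) {P : ℕ} {N y : ℝ} {f : ℝ → ℝ}
    (hP : 2 ≤ P) (hN : 2 ≤ N) (hy : 0 < y) (hG : GKClass N P σ y c f) {x : ℝ}
    (hx : x ∈ Set.Icc N (2 * N)) :
    -((1 + c) * σ * (y * N ^ (1 - σ)) / N ^ 2) ≤ iteratedDerivWithin 2 f (Set.Icc N (2 * N)) x ∧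
      iteratedDerivWithin 2 f (Set.Icc N (2 * N)) x ≤
        -((1 - c) * σ * 2 ^ (-σ - 1) * (y * N ^ (1 - σ)) / N ^ 2) := by
  have h1 := hG.2 1 (by omega) x hx
  have hr : rising σ 1 = σ := by
    unfold rising
    simp
  have hN0 : 0 < N := by linarith
  have hx0 : 0 < x := lt_of_lt_of_le hN0 hx.1
  rw [hr] at h1
  simp only [Nat.cast_one, pow_one, Nat.reduceAdd] at h1
  obtain ⟨t, ht⟩ : ∃ t : ℝ, t = σ * y * x ^ (-σ - 1) := ⟨_, rfl⟩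
  rw [← ht] at h1
  have h2 : -1 * σ * y * x ^ (-σ - 1) = -t := by
    rw [ht]
    ring
  rw [h2, abs_lt] at h1
  have e1 : x ^ (-σ - 1) ≤ N ^ (-σ - 1) := Real.rpow_le_rpow_of_nonpos hN0 hx.1 (by linarith)
  have e2 : (2 * N) ^ (-σ - 1) ≤ x ^ (-σ - 1) :=
    Real.rpow_le_rpow_of_nonpos hx0 hx.2 (by linarith)
  have e3 : N ^ (-σ - 1) = N ^ (1 - σ) / N ^ 2 := by
    rw [show -σ - 1 = (1 - σ) - 2 by ring, Real.rpow_sub hN0, Real.rpow_two]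
  have e4 : (2 * N) ^ (-σ - 1) = 2 ^ (-σ - 1) * (N ^ (1 - σ) / N ^ 2) := by
    rw [Real.mul_rpow (by norm_num) hN0.le, e3]
  rw [e3] at e1
  rw [e4] at e2
  have hσy : 0 < σ * y := mul_pos hσ hy
  have f1 := mul_le_mul_of_nonneg_left e1 hσy.le
  have f2 := mul_le_mul_of_nonneg_left e2 hσy.le
  rw [← ht] at f1 f2
  have g1 : (1 + c) * t ≤ (1 + c) * (σ * y * (N ^ (1 - σ) / N ^ 2)) :=
    mul_le_mul_of_nonneg_left f1 (by linarith)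
  have g2 : (1 - c) * (σ * y * (2 ^ (-σ - 1) * (N ^ (1 - σ) / N ^ 2))) ≤ (1 - c) * t :=
    mul_le_mul_of_nonneg_left f2 (by linarith)
  have k1 : (1 + c) * σ * (y * N ^ (1 - σ)) / N ^ 2 = (1 + c) * (σ * y * (N ^ (1 - σ) / N ^ 2)) := by
    ring
  have k2 : (1 - c) * σ * 2 ^ (-σ - 1) * (y * N ^ (1 - σ)) / N ^ 2 =
      (1 - c) * (σ * y * (2 ^ (-σ - 1) * (N ^ (1 - σ) / N ^ 2))) := by
    ring
  rw [k1, k2]
  constructor
  · nlinarith [h1.1]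
  · nlinarith [h1.2]

theorem Up2_sum (g : ℕ → ℝ) (s : Finset ℕ) : ‖∑ n ∈ s, ex (g n)‖ = ‖∑ n ∈ s, ex (-g n)‖ := by
  have h : (starRingEnd ℂ) (∑ n ∈ s, ex (g n)) = ∑ n ∈ s, ex (-g n) := by
    rw [map_sum]
    exact Finset.sum_congr rfl fun n _ => conj_ex _
  rw [← h, RCLike.norm_conj]

theorem upper2 {σ c : ℝ} (hσ : 0 < σ) (hc : 0 < c) (hc1 : c < 1) :
    ∃ K : ℝ, 0 < K ∧ ∀ (P : ℕ) (N N' y : ℝ) (f : ℝ → ℝ), 2 ≤ P → 2 ≤ N → N ≤ N' → N' ≤ 2 * N →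
      N ≤ y * N ^ (1 - σ) → GKClass N P σ y c f →
      ‖∑ n ∈ Icc ⌈N⌉₊ ⌊N'⌋₊, ex (f (n : ℝ))‖ ≤ K * √(y * N ^ (1 - σ)) := by
  have h2pos : (0 : ℝ) < 2 ^ (-σ - 1) := Real.rpow_pos_of_pos (by norm_num) _
  obtain ⟨A, hA⟩ : ∃ A : ℝ, A = (1 - c) * σ * 2 ^ (-σ - 1) := ⟨_, rfl⟩
  have hA0 : 0 < A := by
    rw [hA]
    exact mul_pos (mul_pos (by linarith) hσ) h2pos
  obtain ⟨C, hC⟩ : ∃ C : ℝ, C = (1 + c) / (1 - c) * 2 ^ (σ + 1) := ⟨_, rfl⟩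
  have hc2 : 0 < 1 - c := by linarith
  have h22 : (2 : ℝ) ^ (σ + 1) * 2 ^ (-σ - 1) = 1 := by
    rw [← Real.rpow_add (by norm_num), show σ + 1 + (-σ - 1) = 0 by ring, Real.rpow_zero]
  have hC1 : 1 ≤ C := by
    rw [hC]
    have a1 : 1 ≤ (1 + c) / (1 - c) := by
      rw [le_div_iff₀ hc2]
      linarith
    have a2 : (1 : ℝ) ≤ 2 ^ (σ + 1) := Real.one_le_rpow (by norm_num) (by linarith)
    nlinarith
  have hCA : C * A = (1 + c) * σ := by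
    rw [hC, hA]
    calc (1 + c) / (1 - c) * 2 ^ (σ + 1) * ((1 - c) * σ * 2 ^ (-σ - 1)) =
        (1 + c) / (1 - c) * (1 - c) * σ * (2 ^ (σ + 1) * 2 ^ (-σ - 1)) := by ring
      _ = (1 + c) * σ := by
        rw [h22, div_mul_cancel₀ _ hc2.ne', mul_one]
  have hsA : 0 < √A := Real.sqrt_pos.2 hA0
  refine ⟨2 * √A + 9 * C * (2 * √A + 1 / √A), by positivity, ?_⟩
  intro P N N' y f hP hN hNN hN2 hNF hG
  obtain ⟨F, hF⟩ : ∃ F : ℝ, F = y * N ^ (1 - σ) := ⟨_, rfl⟩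
  have hN0 : 0 < N := by linarith
  have hNp : 0 < N ^ (1 - σ) := Real.rpow_pos_of_pos hN0 _
  have hy : 0 < y := by
    by_contra h
    push Not at h
    have := mul_nonpos_of_nonpos_of_nonneg h hNp.le
    linarith
  rw [← hF] at hNF ⊢
  have hF0 : 0 < F := by linarith
  have hsF : 0 < √F := Real.sqrt_pos.2 hF0
  have hsF2 : √F * √F = F := Real.mul_self_sqrt hF0.le
  have hK1 : 0 ≤ 9 * C * (2 * √A + 1 / √A) := by positivity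
  obtain ⟨lam, hlam⟩ : ∃ lam : ℝ, lam = A * F / N ^ 2 := ⟨_, rfl⟩
  have hlam0 : 0 < lam := by
    rw [hlam]
    positivity
  have hslam : √lam = √A * √F / N := by
    rw [hlam, Real.sqrt_div (by positivity), Real.sqrt_sq hN0.le, Real.sqrt_mul hA0.le]
  rcases Nat.lt_or_ge ⌊N'⌋₊ ⌈N⌉₊ with hM | hM
  · rw [Finset.Icc_eq_empty (by omega), Finset.sum_empty, norm_zero]
    positivity
  have hcls : ∀ x ∈ Set.Icc N (2 * N),
      -(C * lam) ≤ iteratedDerivWithin 2 f (Set.Icc N (2 * N)) x ∧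
        iteratedDerivWithin 2 f (Set.Icc N (2 * N)) x ≤ -lam := by
    intro x hx
    have h1 := Up2_cls hσ hc hc1 hP hN hy hG hx
    rw [← hF, ← hA] at h1
    have h3 : C * lam = (1 + c) * σ * F / N ^ 2 := by
      rw [hlam, ← hCA]
      ring
    rw [h3, hlam]
    exact h1
  have hN'0 : 0 ≤ N' := by linarith
  have hfl : ((⌊N'⌋₊ : ℕ) : ℝ) ≤ N' := Nat.floor_le hN'0
  have hce : N ≤ ((⌈N⌉₊ : ℕ) : ℝ) := Nat.le_ceil N
  obtain ⟨L, hL⟩ : ∃ L : ℕ, L = ⌊N'⌋₊ + 1 - ⌈N⌉₊ := ⟨_, rfl⟩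
  have hLr : (L : ℝ) ≤ 2 * N := by
    have h1 : L + ⌈N⌉₊ = ⌊N'⌋₊ + 1 := by omega
    have h2 : (L : ℝ) + ((⌈N⌉₊ : ℕ) : ℝ) = ((⌊N'⌋₊ : ℕ) : ℝ) + 1 := by exact_mod_cast h1
    linarith
  have hsum : ∑ n ∈ Icc ⌈N⌉₊ ⌊N'⌋₊, ex (f (n : ℝ)) =
      ∑ n ∈ range L, ex (f ((⌈N⌉₊ + n : ℕ) : ℝ)) := by
    have h1 : Icc ⌈N⌉₊ ⌊N'⌋₊ = Ico ⌈N⌉₊ (⌊N'⌋₊ + 1) := by
      ext n
      simp only [Finset.mem_Icc, Finset.mem_Ico]
      omega
    rw [h1, Finset.sum_Ico_eq_sum_range, hL]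
  rw [hsum]
  have hLs : (L : ℝ) * √lam ≤ 2 * √A * √F := by
    have h1 : (L : ℝ) * √lam ≤ 2 * N * √lam :=
      mul_le_mul_of_nonneg_right hLr (Real.sqrt_nonneg _)
    have h2 : 2 * N * √lam = 2 * √A * √F := by
      rw [hslam]
      field_simp
    linarith
  rcases le_or_gt lam 1 with hl | hl
  · have h1 := second_test (fun n => -f ((⌈N⌉₊ + n : ℕ) : ℝ)) L hlam0 hl hC1 ?_
    · rw [Up2_sum (fun n => f ((⌈N⌉₊ + n : ℕ) : ℝ))]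
      refine h1.trans ?_
      have h3 : 1 / √lam ≤ 1 / √A * √F := by
        rw [hslam, one_div_div, div_le_iff₀ (by positivity)]
        have h4 : 1 / √A * √F * (√A * √F) = F := by
          calc 1 / √A * √F * (√A * √F) = (1 / √A * √A) * (√F * √F) := by ring
            _ = F := by rw [one_div_mul_cancel hsA.ne', one_mul, hsF2]
        rw [h4]
        exact hNF
      have h5 : 9 * C * (L * √lam + 1 / √lam) ≤ 9 * C * (2 * √A * √F + 1 / √A * √F) :=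
        mul_le_mul_of_nonneg_left (add_le_add hLs h3) (by positivity)
      have h6 : 9 * C * (2 * √A * √F + 1 / √A * √F) = 9 * C * (2 * √A + 1 / √A) * √F := by ring
      have h7 : 0 ≤ 2 * √A * √F := by positivity
      have h8 : (2 * √A + 9 * C * (2 * √A + 1 / √A)) * √F =
        2 * √A * √F + 9 * C * (2 * √A + 1 / √A) * √F := by ring
      rw [h8]
      linarith
    · intro n hn
      have h2 : ((⌈N⌉₊ + n : ℕ) : ℝ) + 2 ≤ 2 * N := by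
        have h3 : ⌈N⌉₊ + n + 2 ≤ ⌊N'⌋₊ := by omega
        have h4 : ((⌈N⌉₊ + n : ℕ) : ℝ) + 2 ≤ ((⌊N'⌋₊ : ℕ) : ℝ) := by exact_mod_cast h3
        linarith
      have h3 : N ≤ ((⌈N⌉₊ + n : ℕ) : ℝ) := by
        push_cast
        have : (0 : ℝ) ≤ n := Nat.cast_nonneg n
        linarith
      have h4 := second_diff (by linarith) hG.1 hcls h3 h2
      have e2 : ((⌈N⌉₊ + (n + 2) : ℕ) : ℝ) = ((⌈N⌉₊ + n : ℕ) : ℝ) + 2 := by
        push_cast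
        ring
      have e1 : ((⌈N⌉₊ + (n + 1) : ℕ) : ℝ) = ((⌈N⌉₊ + n : ℕ) : ℝ) + 1 := by
        push_cast
        ring
      rw [e2, e1]
      constructor
      · linarith [h4.2]
      · linarith [h4.1]
  · have h1 : ‖∑ n ∈ range L, ex (f ((⌈N⌉₊ + n : ℕ) : ℝ))‖ ≤ L := by
      refine (norm_sum_le _ _).trans ?_
      simp only [norm_ex, Finset.sum_const, Finset.card_range, nsmul_eq_mul, mul_one, le_refl]
    have h2 : 1 ≤ √lam := by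
      rw [Real.one_le_sqrt]
      exact hl.le
    have h3 : (L : ℝ) ≤ L * √lam := by
      have : (0 : ℝ) ≤ L := Nat.cast_nonneg L
      nlinarith
    have h8 : (2 * √A + 9 * C * (2 * √A + 1 / √A)) * √F =
      2 * √A * √F + 9 * C * (2 * √A + 1 / √A) * √F := by ring
    have h9 : 0 ≤ 9 * C * (2 * √A + 1 / √A) * √F := mul_nonneg hK1 hsF.le
    rw [h8]
    linarith

end FD39
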