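import Pool.Agent.H39.FD.Defs

/-!
ROW Vdc (project MP_493793_FD, about 110 lines): van der Corput inequality.

PROOF. `H * ∑_{n < L} a n = ∑_{m ∈ range (L + H)} c m`, `c m = ∑_{h < H} (if h ≤ m ∧ m - h < L then a (m - h) else 0)` (each `n < L` is `m - h` for exactly the `H` pairs `(m, h) = (n + h, h)`, `n + h < L + H`). Cauchy - Schwarz
(`norm_sum_le` and `sq_sum_le_card_mul_sum_sq`): `H ^ 2 ‖∑ a‖ ^ 2 ≤ (L + H) ∑_m ‖c m‖ ^ 2`. `∑_m ‖c m‖ ^ 2 = ∑_{h, h' < H} ∑_m [..] a (m - h) conj (a (m - h'))`; the terms `h = h'` give `H L`, the pairs with `|h - h'| = r ≥ 1` (`2 (H - r)` ordered pairs, `≤ 2 H`) give in norm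
`‖∑_{n < L - r} a (n + r) conj (a n)‖` each (`r < H ≤ L`). So `∑_m ‖c m‖ ^ 2 ≤ H L + 2 H ∑_{1 ≤ r < H} ‖∑_{n < L - r} a (n + r) conj (a n)‖`, and `L + H ≤ 2 L`; divide by `H ^ 2`.
-/

set_option autoImplicit false

namespace FD39

open Finset

/-- the sequence moved to `[H, H + L)` and extended by zero -/
private noncomputable def Vdc_b (a : ℕ → ℂ) (L H n : ℕ) : ℂ := if H ≤ n ∧ n < H + L then a (n - H) else 0

private lemma Vdc_shift (g : ℕ → ℂ) {L H h : ℕ} (hg : ∀ n, ¬ (H ≤ n ∧ n < H + L) → g n = 0) (hh : h ≤ H) :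
    ∑ m ∈ range (L + H), g (m + h) = ∑ n ∈ range L, g (n + H) := by
  rw [Finset.range_eq_Ico, Finset.range_eq_Ico, Finset.sum_Ico_add', Finset.sum_Ico_add']
  symm
  apply Finset.sum_subset
  · intro x hx
    rw [Finset.mem_Ico] at hx ⊢
    omega
  · intro x _ hx
    apply hg
    intro hc
    apply hx
    rw [Finset.mem_Ico]
    omega

private lemma Vdc_bshift (a : ℕ → ℂ) (L H n : ℕ) (hn : n < L) : Vdc_b a L H (n + H) = a n := by
  rw [Vdc_b, if_pos ⟨by omega, by omega⟩]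
  congr 1
  omega

private lemma Vdc_A (a : ℕ → ℂ) {L H h r : ℕ} (hh : h ≤ H) :
    ∑ m ∈ range (L + H), Vdc_b a L H (m + h + r) * (starRingEnd ℂ) (Vdc_b a L H (m + h)) =
      ∑ n ∈ range (L - r), a (n + r) * (starRingEnd ℂ) (a n) := by
  rw [Vdc_shift (fun n => Vdc_b a L H (n + r) * (starRingEnd ℂ) (Vdc_b a L H n)) (h := h) _ hh]
  · have h1 : ∀ n ∈ range L, Vdc_b a L H (n + H + r) * (starRingEnd ℂ) (Vdc_b a L H (n + H)) =
        if n < L - r then a (n + r) * (starRingEnd ℂ) (a n) else 0 := by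
      intro n hn
      rw [Finset.mem_range] at hn
      rw [Vdc_bshift a L H n hn]
      by_cases hr : n < L - r
      · rw [if_pos hr, show n + H + r = n + r + H by omega, Vdc_bshift a L H (n + r) (by omega)]
      · rw [if_neg hr, Vdc_b, if_neg (by omega), zero_mul]
    rw [Finset.sum_congr rfl h1, ← Finset.sum_filter]
    apply Finset.sum_congr _ (fun _ _ => rfl)
    ext n
    rw [Finset.mem_filter, Finset.mem_range, Finset.mem_range]
    omega
  · intro n hn
    rw [show Vdc_b a L H n = 0 from if_neg hn, map_zero, mul_zero]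

private lemma Vdc_pair (a : ℕ → ℂ) {L H h h' : ℕ} (hh : h < H) (hh' : h' < H) :
    ‖∑ m ∈ range (L + H), Vdc_b a L H (m + h) * (starRingEnd ℂ) (Vdc_b a L H (m + h'))‖ =
      ‖∑ n ∈ range (L - (max h h' - min h h')), a (n + (max h h' - min h h')) * (starRingEnd ℂ) (a n)‖ := by
  rcases le_total h' h with hle | hle
  · rw [max_eq_left hle, min_eq_right hle, ← Vdc_A a (h := h') (r := h - h') hh'.le]
    congr 1
    apply Finset.sum_congr rfl
    intro m _
    rw [show m + h' + (h - h') = m + h by omega]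
  · rw [max_eq_right hle, min_eq_left hle, ← Vdc_A a (h := h) (r := h' - h) hh.le, ← RCLike.norm_conj, map_sum]
    congr 1
    apply Finset.sum_congr rfl
    intro m _
    rw [show m + h + (h' - h) = m + h' by omega, map_mul, Complex.conj_conj, mul_comm]

private lemma Vdc_row (f : ℕ → ℝ) (hf : ∀ r, 0 ≤ f r) {H h : ℕ} (hh : h < H) :
    ∑ h' ∈ range H, f (max h h' - min h h') ≤ f 0 + 2 * ∑ r ∈ Ico 1 H, f r := by
  have hsplit : ∑ h' ∈ range H, f (max h h' - min h h') =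
      ∑ h' ∈ range h, f (h - h') + (f 0 + ∑ h' ∈ Ico (h + 1) H, f (h' - h)) := by
    rw [Finset.range_eq_Ico, ← Finset.sum_Ico_consecutive _ (Nat.zero_le h) hh.le,
      Finset.sum_eq_sum_Ico_succ_bot hh]
    congr 1
    · rw [Finset.range_eq_Ico]
      apply Finset.sum_congr rfl
      intro x hx
      rw [Finset.mem_Ico] at hx
      rw [max_eq_left hx.2.le, min_eq_right hx.2.le]
    · congr 1
      · rw [max_self, min_self, Nat.sub_self]
      · apply Finset.sum_congr rfl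
        intro x hx
        rw [Finset.mem_Ico] at hx
        rw [max_eq_right (by omega), min_eq_left (by omega)]
  have h1 : ∑ h' ∈ range h, f (h - h') ≤ ∑ r ∈ Ico 1 H, f r := by
    have e : ∑ h' ∈ range h, f (h - h') = ∑ r ∈ (range h).image (fun x => h - x), f r := by
      rw [Finset.sum_image]
      intro x hx y hy hxy
      rw [Finset.mem_coe, Finset.mem_range] at hx hy
      simp only at hxy
      omega
    rw [e]
    apply Finset.sum_le_sum_of_subset_of_nonneg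
    · intro r hr
      rw [Finset.mem_image] at hr
      obtain ⟨x, hx, rfl⟩ := hr
      rw [Finset.mem_range] at hx
      rw [Finset.mem_Ico]
      omega
    · intro i _ _
      exact hf i
  have h2 : ∑ h' ∈ Ico (h + 1) H, f (h' - h) ≤ ∑ r ∈ Ico 1 H, f r := by
    have e : ∑ h' ∈ Ico (h + 1) H, f (h' - h) = ∑ r ∈ (Ico (h + 1) H).image (fun x => x - h), f r := by
      rw [Finset.sum_image]
      intro x hx y hy hxy
      rw [Finset.mem_coe, Finset.mem_Ico] at hx hy
      simp only at hxy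
      omega
    rw [e]
    apply Finset.sum_le_sum_of_subset_of_nonneg
    · intro r hr
      rw [Finset.mem_image] at hr
      obtain ⟨x, hx, rfl⟩ := hr
      rw [Finset.mem_Ico] at hx
      rw [Finset.mem_Ico]
      omega
    · intro i _ _
      exact hf i
  rw [hsplit]
  linarith

theorem vdc (a : ℕ → ℂ) (ha : ∀ n, ‖a n‖ = 1) {L H : ℕ} (hH : 1 ≤ H) (hHL : H ≤ L) :
    (‖∑ n ∈ range L, a n‖ ^ 2 : ℝ) ≤ 2 * (L : ℝ) ^ 2 / H +
      4 * L / H * ∑ r ∈ Ico 1 H, ‖∑ n ∈ range (L - r), a (n + r) * (starRingEnd ℂ) (a n)‖ := by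
  set A : ℕ → ℝ := fun r => ‖∑ n ∈ range (L - r), a (n + r) * (starRingEnd ℂ) (a n)‖ with hA
  have hA0 : ∀ r, 0 ≤ A r := fun r => norm_nonneg _
  set c : ℕ → ℂ := fun m => ∑ h ∈ range H, Vdc_b a L H (m + h) with hc
  have hH0 : (0 : ℝ) < H := by exact_mod_cast hH
  have hL0 : (0 : ℝ) < L := by exact_mod_cast (lt_of_lt_of_le hH hHL)
  -- the sum of the `c m`
  have hsum : ∑ m ∈ range (L + H), c m = H * ∑ n ∈ range L, a n := by
    rw [hc]
    simp only
    rw [Finset.sum_comm]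
    have h1 : ∀ h ∈ range H, ∑ m ∈ range (L + H), Vdc_b a L H (m + h) = ∑ n ∈ range L, a n := by
      intro h hh
      rw [Finset.mem_range] at hh
      rw [Vdc_shift (Vdc_b a L H) (fun n hn => if_neg hn) hh.le]
      apply Finset.sum_congr rfl
      intro n hn
      exact Vdc_bshift a L H n (Finset.mem_range.mp hn)
    rw [Finset.sum_congr rfl h1, Finset.sum_const, Finset.card_range, nsmul_eq_mul]
  -- the sum of the squares
  have hsq : ∑ m ∈ range (L + H), ‖c m‖ ^ 2 ≤ H * (L + 2 * ∑ r ∈ Ico 1 H, A r) := by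
    have e1 : ((∑ m ∈ range (L + H), ‖c m‖ ^ 2 : ℝ) : ℂ) =
        ∑ h ∈ range H, ∑ h' ∈ range H, ∑ m ∈ range (L + H),
          Vdc_b a L H (m + h) * (starRingEnd ℂ) (Vdc_b a L H (m + h')) := by
      push_cast
      have e2 : ∀ m ∈ range (L + H), ((‖c m‖ : ℂ)) ^ 2 = ∑ h ∈ range H, ∑ h' ∈ range H,
          Vdc_b a L H (m + h) * (starRingEnd ℂ) (Vdc_b a L H (m + h')) := by
        intro m _
        have e3 : ((‖c m‖ : ℂ)) ^ 2 = c m * (starRingEnd ℂ) (c m) := by
          rw [RCLike.mul_conj]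
          rfl
        rw [e3, hc]
        simp only
        rw [map_sum, Finset.sum_mul_sum]
      rw [Finset.sum_congr rfl e2, Finset.sum_comm]
      apply Finset.sum_congr rfl
      intro h _
      rw [Finset.sum_comm]
    have e4 : ∑ m ∈ range (L + H), ‖c m‖ ^ 2 = ‖((∑ m ∈ range (L + H), ‖c m‖ ^ 2 : ℝ) : ℂ)‖ := by
      rw [Complex.norm_real, Real.norm_eq_abs, abs_of_nonneg (Finset.sum_nonneg fun _ _ => by positivity)]
    rw [e4, e1]
    calc ‖∑ h ∈ range H, ∑ h' ∈ range H, ∑ m ∈ range (L + H),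
          Vdc_b a L H (m + h) * (starRingEnd ℂ) (Vdc_b a L H (m + h'))‖
        ≤ ∑ h ∈ range H, ∑ h' ∈ range H, ‖∑ m ∈ range (L + H),
          Vdc_b a L H (m + h) * (starRingEnd ℂ) (Vdc_b a L H (m + h'))‖ :=
          (norm_sum_le _ _).trans (Finset.sum_le_sum fun h _ => norm_sum_le _ _)
      _ = ∑ h ∈ range H, ∑ h' ∈ range H, A (max h h' - min h h') := by
          apply Finset.sum_congr rfl
          intro h hh
          apply Finset.sum_congr rfl
          intro h' hh'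
          exact Vdc_pair a (Finset.mem_range.mp hh) (Finset.mem_range.mp hh')
      _ ≤ ∑ _h ∈ range H, (A 0 + 2 * ∑ r ∈ Ico 1 H, A r) :=
          Finset.sum_le_sum fun h hh => Vdc_row A hA0 (Finset.mem_range.mp hh)
      _ = H * (A 0 + 2 * ∑ r ∈ Ico 1 H, A r) := by
          rw [Finset.sum_const, Finset.card_range, nsmul_eq_mul]
      _ ≤ H * (L + 2 * ∑ r ∈ Ico 1 H, A r) := by
          have h0 : A 0 ≤ L := by
            rw [hA]
            simp only
            refine (norm_sum_le _ _).trans ?_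
            have h2 : ∀ n ∈ range (L - 0), ‖a (n + 0) * (starRingEnd ℂ) (a n)‖ = 1 := by
              intro n _
              rw [norm_mul, RCLike.norm_conj, ha, ha, one_mul]
            rw [Finset.sum_congr rfl h2, Finset.sum_const, Finset.card_range, nsmul_eq_mul, mul_one, Nat.sub_zero]
          gcongr
  -- Cauchy - Schwarz
  have hcs : (H * ‖∑ n ∈ range L, a n‖) ^ 2 ≤ (L + H) * ∑ m ∈ range (L + H), ‖c m‖ ^ 2 := by
    have h1 : (H : ℝ) * ‖∑ n ∈ range L, a n‖ ≤ ∑ m ∈ range (L + H), ‖c m‖ := by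
      calc (H : ℝ) * ‖∑ n ∈ range L, a n‖ = ‖∑ m ∈ range (L + H), c m‖ := by
            rw [hsum, norm_mul, Complex.norm_natCast]
        _ ≤ ∑ m ∈ range (L + H), ‖c m‖ := norm_sum_le _ _
    have h2 := sq_sum_le_card_mul_sum_sq (s := range (L + H)) (f := fun m => ‖c m‖)
    rw [Finset.card_range] at h2
    push_cast at h2
    refine le_trans ?_ h2
    have h3 : 0 ≤ (H : ℝ) * ‖∑ n ∈ range L, a n‖ := by positivity
    gcongr
  have hfin : (H * ‖∑ n ∈ range L, a n‖) ^ 2 ≤ (2 * L) * (H * (L + 2 * ∑ r ∈ Ico 1 H, A r)) := by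
    have hHL' : (H : ℝ) ≤ L := by exact_mod_cast hHL
    have hs0 : 0 ≤ ∑ m ∈ range (L + H), ‖c m‖ ^ 2 := Finset.sum_nonneg fun _ _ => by positivity
    calc (H * ‖∑ n ∈ range L, a n‖) ^ 2 ≤ (L + H) * ∑ m ∈ range (L + H), ‖c m‖ ^ 2 := hcs
      _ ≤ (2 * L) * ∑ m ∈ range (L + H), ‖c m‖ ^ 2 := by
          gcongr
          linarith
      _ ≤ (2 * L) * (H * (L + 2 * ∑ r ∈ Ico 1 H, A r)) := by gcongr
  have e5 : 2 * (L : ℝ) ^ 2 / H + 4 * L / H * ∑ r ∈ Ico 1 H, A r = (2 * L) * (H * (L + 2 * ∑ r ∈ Ico 1 H, A r)) / H ^ 2 := by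
    field_simp
    ring
  change ‖∑ n ∈ range L, a n‖ ^ 2 ≤ 2 * (L : ℝ) ^ 2 / H + 4 * L / H * ∑ r ∈ Ico 1 H, A r
  rw [e5, le_div_iff₀ (by positivity)]
  calc ‖∑ n ∈ range L, a n‖ ^ 2 * (H : ℝ) ^ 2 = (H * ‖∑ n ∈ range L, a n‖) ^ 2 := by ring
    _ ≤ _ := hfin

end FD39
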