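import Pool.Agent.H39.FD.Defs
import Pool.Agent.H39.FD.Sec
import Pool.Agent.H39.FD.Vdc

/-!
ROW Vk (project MP_493793_FD, about 200 lines): the k-th derivative test for sequences.

PROOF. Induction on `k` (for fixed `C`); the case `k = 3` with explicit constants is the PROVED theorem `third_test` (`Pool/Agent/H39/FD/Thi.lean`), same method. Write `D = fwdDiff 1`, `a = 1 / (2 ^ k - 2)`, `b = 4 / 2 ^ k`. Base `k = 2`: `second_test` (file Sec; `a = 1 / 2`, `b = 1`, `L ^ (0 : ℝ) = 1`).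
Step `k → k + 1`: the new exponents are `1 / (2 ^ (k + 1) - 2) = e / 2` with `e = 1 / (2 ^ k - 1)`, and `1 - b / 2`. `K` from the hypothesis for `k`. Let `x = lam ^ (-e) ≥ 1`. If `L < x`: `‖S‖ ≤ L = L ^ (1 - b / 2) * L ^ (b / 2) ≤ L ^ (1 - b / 2) * x ^ (b / 2)` and `x ^ (b / 2) = lam ^ (-(e b / 2)) ≤ lam ^ (-(e / 2))` (`b ≤ 1`, `lam ≤ 1`).
Otherwise `H = ⌈x⌉₊`, `1 ≤ H ≤ L`, `x ≤ H ≤ 2 x`; `vdc` (file Vdc) with `a n = ex (u n)`, `ex (u (n + r)) * conj (ex (u n)) = ex (v n)`, `v n = u (n + r) - u n`. `v = ∑_{i < r} (D u) (· + i)` (telescoping), so `D^[k] v n = ∑_{i < r} D^[k + 1] u (n + i) ∈ [r lam, C r lam]` for `n + k < L - r` (`D` is additive: `fwdDiff_iter` lemmas, or prove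
`D^[k] (fun n => u (n + r) - u n) n = D^[k] u (n + r) - D^[k] u n` by induction on `k` and then telescope `∑_{i < r} (D^[k] u (n + i + 1) - D^[k] u (n + i))`, `Function.iterate_succ_apply'`), and `r lam ≤ x lam ≤ 1` (`r < H` gives `r ≤ x`). Induction hypothesis with `r lam` and `L - r ≤ L`: `≤ K (L (r lam) ^ a + L ^ (1 - b) (r lam) ^ (-a)) ≤ K (L (H lam) ^ a + L ^ (1 - b) r ^ (-a) lam ^ (-a))`.
`∑_{1 ≤ r < H} r ^ (-a) ≤ H ^ (1 / 2 - a) * ∑ r ^ (-1 / 2) ≤ 2 H ^ (1 - a)` (`a ≤ 1 / 2`). So `‖S‖ ^ 2 ≤ 2 L ^ 2 / H + 4 K L ^ 2 (H lam) ^ a + 8 K L ^ (2 - b) (H lam) ^ (-a)`. Now `1 / H ≤ lam ^ e`, `(H lam) ^ a ≤ 2 (x lam) ^ a = 2 lam ^ e` (`a (1 - e) = e`), `(H lam) ^ (-a) ≤ (x lam) ^ (-a) = lam ^ (-e)`. Total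
`≤ (2 + 8 K) (L ^ 2 lam ^ e + L ^ (2 - b) lam ^ (-e)) ≤ (2 + 8 K) (L lam ^ (e / 2) + L ^ (1 - b / 2) lam ^ (-(e / 2))) ^ 2`; `K' = 1 + √(2 + 8 K)`.
-/

/-!
ROW Vk (project MP_493793_FD, about 200 lines): the k-th derivative test for sequences.

PROOF. Induction on `k` (for fixed `C`); the case `k = 3` with explicit constants is the PROVED theorem `third_test` (`Pool/Agent/H39/FD/Thi.lean`), same method. Write `D = fwdDiff 1`, `a = 1 / (2 ^ k - 2)`, `b = 4 / 2 ^ k`. Base `k = 2`: `second_test` (file Sec; `a = 1 / 2`, `b = 1`, `L ^ (0 : ℝ) = 1`).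
Step `k → k + 1`: the new exponents are `1 / (2 ^ (k + 1) - 2) = e / 2` with `e = 1 / (2 ^ k - 1)`, and `1 - b / 2`. `K` from the hypothesis for `k`. Let `x = lam ^ (-e) ≥ 1`. If `L < x`: `‖S‖ ≤ L = L ^ (1 - b / 2) * L ^ (b / 2) ≤ L ^ (1 - b / 2) * x ^ (b / 2)` and `x ^ (b / 2) = lam ^ (-(e b / 2)) ≤ lam ^ (-(e / 2))` (`b ≤ 1`, `lam ≤ 1`).
Otherwise `H = ⌈x⌉₊`, `1 ≤ H ≤ L`, `x ≤ H ≤ 2 x`; `vdc` (file Vdc) with `a n = ex (u n)`, `ex (u (n + r)) * conj (ex (u n)) = ex (v n)`, `v n = u (n + r) - u n`. `v = ∑_{i < r} (D u) (· + i)` (telescoping), so `D^[k] v n = ∑_{i < r} D^[k + 1] u (n + i) ∈ [r lam, C r lam]` for `n + k < L - r` (`D` is additive: `fwdDiff_iter` lemmas, or prove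
`D^[k] (fun n => u (n + r) - u n) n = D^[k] u (n + r) - D^[k] u n` by induction on `k` and then telescope `∑_{i < r} (D^[k] u (n + i + 1) - D^[k] u (n + i))`, `Function.iterate_succ_apply'`), and `r lam ≤ x lam ≤ 1` (`r < H` gives `r ≤ x`). Induction hypothesis with `r lam` and `L - r ≤ L`: `≤ K (L (r lam) ^ a + L ^ (1 - b) (r lam) ^ (-a)) ≤ K (L (H lam) ^ a + L ^ (1 - b) r ^ (-a) lam ^ (-a))`.
`∑_{1 ≤ r < H} r ^ (-a) ≤ H ^ (1 / 2 - a) * ∑ r ^ (-1 / 2) ≤ 2 H ^ (1 - a)` (`a ≤ 1 / 2`). So `‖S‖ ^ 2 ≤ 2 L ^ 2 / H + 4 K L ^ 2 (H lam) ^ a + 8 K L ^ (2 - b) (H lam) ^ (-a)`. Now `1 / H ≤ lam ^ e`, `(H lam) ^ a ≤ 2 (x lam) ^ a = 2 lam ^ e` (`a (1 - e) = e`), `(H lam) ^ (-a) ≤ (x lam) ^ (-a) = lam ^ (-e)`. Total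
`≤ (2 + 8 K) (L ^ 2 lam ^ e + L ^ (2 - b) lam ^ (-e)) ≤ (2 + 8 K) (L lam ^ (e / 2) + L ^ (1 - b / 2) lam ^ (-(e / 2))) ^ 2`; `K' = 1 + √(2 + 8 K)`.
-/

set_option autoImplicit false

namespace FD39

open Finset

private lemma Vk_iter (u : ℕ → ℝ) (r k n : ℕ) :
    (fwdDiff 1)^[k] (fun m => u (m + r) - u m) n =
      (fwdDiff 1)^[k] u (n + r) - (fwdDiff 1)^[k] u n := by
  induction k generalizing n with
  | zero => rfl
  | succ k ih =>
    rw [Function.iterate_succ_apply', Function.iterate_succ_apply']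
    show (fwdDiff 1)^[k] (fun m => u (m + r) - u m) (n + 1) -
      (fwdDiff 1)^[k] (fun m => u (m + r) - u m) n =
        ((fwdDiff 1)^[k] u (n + r + 1) - (fwdDiff 1)^[k] u (n + r)) -
          ((fwdDiff 1)^[k] u (n + 1) - (fwdDiff 1)^[k] u n)
    rw [ih, ih, show n + 1 + r = n + r + 1 by ring]
    ring

private lemma Vk_tel (g : ℕ → ℝ) (n r : ℕ) :
    g (n + r) - g n = ∑ i ∈ range r, (g (n + i + 1) - g (n + i)) := by
  induction r with
  | zero => simp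
  | succ r ih =>
    rw [sum_range_succ, ← ih, show n + (r + 1) = n + r + 1 by ring]
    ring

private lemma Vk_sqrt_sum' (H : ℕ) : ∑ r ∈ Ico 1 (H + 1), 1 / √(r : ℝ) ≤ 2 * √(H : ℝ) := by
  induction H with
  | zero => simp
  | succ H ih =>
    rw [sum_Ico_succ_top (by omega)]
    have h0 : (0 : ℝ) ≤ (H : ℝ) := Nat.cast_nonneg H
    have hs : (0 : ℝ) < √((H + 1 : ℕ) : ℝ) := by
      apply Real.sqrt_pos.2
      positivity
    have ht : (0 : ℝ) ≤ √(H : ℝ) := Real.sqrt_nonneg _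
    have hs2 : √((H + 1 : ℕ) : ℝ) ^ 2 = (H : ℝ) + 1 := by
      rw [Real.sq_sqrt (by positivity)]
      push_cast
      ring
    have ht2 : √(H : ℝ) ^ 2 = (H : ℝ) := Real.sq_sqrt h0
    have h1 : 1 / √((H + 1 : ℕ) : ℝ) ≤ 2 * √((H + 1 : ℕ) : ℝ) - 2 * √(H : ℝ) := by
      rw [div_le_iff₀ hs]
      nlinarith [sq_nonneg (√((H + 1 : ℕ) : ℝ) - √(H : ℝ))]
    linarith

private lemma Vk_sqrt_sum (H : ℕ) : ∑ r ∈ Ico 1 H, 1 / √(r : ℝ) ≤ 2 * √(H : ℝ) := by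
  rcases H with _ | H
  · simp
  · refine (Vk_sqrt_sum' H).trans ?_
    have : √(H : ℝ) ≤ √((H + 1 : ℕ) : ℝ) := by
      apply Real.sqrt_le_sqrt
      push_cast
      linarith
    linarith

private lemma Vk_pow_sum {H : ℕ} (hH : 1 ≤ H) {a : ℝ} (ha2 : a ≤ 1 / 2) :
    ∑ r ∈ Ico 1 H, (r : ℝ) ^ (-a) ≤ 2 * ((H : ℝ) ^ (-a) * H) := by
  have hH0 : (0 : ℝ) < H := by exact_mod_cast hH
  have h1 : ∀ r ∈ Ico 1 H, (r : ℝ) ^ (-a) ≤ (H : ℝ) ^ (1 / 2 - a) * (1 / √(r : ℝ)) := by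
    intro r hr
    obtain ⟨hr1, hrH⟩ := mem_Ico.1 hr
    have hr0 : (0 : ℝ) < r := by exact_mod_cast hr1
    have hrH' : (r : ℝ) ≤ H := by exact_mod_cast hrH.le
    have e1 : (r : ℝ) ^ (-a) = (r : ℝ) ^ (1 / 2 - a) * (1 / √(r : ℝ)) := by
      rw [Real.sqrt_eq_rpow, one_div ((r : ℝ) ^ (1 / 2 : ℝ)), ← Real.rpow_neg hr0.le,
        ← Real.rpow_add hr0]
      congr 1
      ring
    rw [e1]
    refine mul_le_mul_of_nonneg_right ?_ (by positivity)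
    exact Real.rpow_le_rpow hr0.le hrH' (by linarith)
  refine (sum_le_sum h1).trans ?_
  rw [← mul_sum]
  have h2 : (H : ℝ) ^ (1 / 2 - a) * ∑ r ∈ Ico 1 H, 1 / √(r : ℝ) ≤
      (H : ℝ) ^ (1 / 2 - a) * (2 * √(H : ℝ)) :=
    mul_le_mul_of_nonneg_left (Vk_sqrt_sum H) (by positivity)
  refine h2.trans (le_of_eq ?_)
  have e2 : (H : ℝ) ^ (-a) * H = (H : ℝ) ^ (1 / 2 - a) * √(H : ℝ) := by
    rw [Real.sqrt_eq_rpow, ← Real.rpow_add hH0]
    conv_lhs => rw [← Real.rpow_one (H : ℝ), ← Real.rpow_mul hH0.le, ← Real.rpow_add hH0]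
    congr 1
    ring
  rw [e2]
  ring

private lemma Vk_corr {C K a b : ℝ} (hb : b ≤ 1) (hK : 0 < K) {k : ℕ}
    (h : ∀ (u : ℕ → ℝ) (L : ℕ) (lam : ℝ), 0 < lam → lam ≤ 1 →
      (∀ n, n + k < L → lam ≤ (fwdDiff 1)^[k] u n ∧ (fwdDiff 1)^[k] u n ≤ C * lam) →
      ‖∑ n ∈ range L, ex (u n)‖ ≤ K * ((L : ℝ) * lam ^ a + (L : ℝ) ^ (1 - b) * lam ^ (-a)))
    (u : ℕ → ℝ) (L : ℕ) {lam : ℝ} (hlam : 0 < lam)
    (hd : ∀ n, n + (k + 1) < L → lam ≤ (fwdDiff 1)^[k + 1] u n ∧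
      (fwdDiff 1)^[k + 1] u n ≤ C * lam)
    (r : ℕ) (hr : 1 ≤ r) (hr1 : (r : ℝ) * lam ≤ 1) :
    ‖∑ n ∈ range (L - r), ex (u (n + r)) * (starRingEnd ℂ) (ex (u n))‖ ≤
      K * ((L : ℝ) * (r * lam) ^ a + (L : ℝ) ^ (1 - b) * (r * lam) ^ (-a)) := by
  have hr0 : (0 : ℝ) < (r : ℝ) := by exact_mod_cast hr
  have h1 : ∑ n ∈ range (L - r), ex (u (n + r)) * (starRingEnd ℂ) (ex (u n)) =
      ∑ n ∈ range (L - r), ex ((fun m => u (m + r) - u m) n) := by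
    refine sum_congr rfl fun n _ => ?_
    rw [← ex_sub]
  rw [h1]
  have h2 := h (fun m => u (m + r) - u m) (L - r) (r * lam) (by positivity) hr1 (by
    intro n hn
    rw [Vk_iter, Vk_tel]
    have hb : ∀ i ∈ range r,
        lam ≤ (fwdDiff 1)^[k] u (n + i + 1) - (fwdDiff 1)^[k] u (n + i) ∧
        (fwdDiff 1)^[k] u (n + i + 1) - (fwdDiff 1)^[k] u (n + i) ≤ C * lam := by
      intro i hi
      have hi' := mem_range.1 hi
      have h3 := hd (n + i) (by omega)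
      rw [Function.iterate_succ_apply'] at h3
      exact h3
    constructor
    · calc (r : ℝ) * lam = ∑ _i ∈ range r, lam := by simp
        _ ≤ _ := sum_le_sum fun i hi => (hb i hi).1
    · calc _ ≤ ∑ _i ∈ range r, C * lam := sum_le_sum fun i hi => (hb i hi).2
        _ = C * (r * lam) := by simp; ring)
  refine h2.trans ?_
  have h3 : ((L - r : ℕ) : ℝ) ≤ (L : ℝ) := by
    exact_mod_cast Nat.sub_le L r
  have h4 : ((L - r : ℕ) : ℝ) * (r * lam) ^ a ≤ (L : ℝ) * (r * lam) ^ a :=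
    mul_le_mul_of_nonneg_right h3 (by positivity)
  have h5 : ((L - r : ℕ) : ℝ) ^ (1 - b) * (r * lam) ^ (-a) ≤
      (L : ℝ) ^ (1 - b) * (r * lam) ^ (-a) :=
    mul_le_mul_of_nonneg_right (Real.rpow_le_rpow (Nat.cast_nonneg _) h3 (by linarith))
      (by positivity)
  exact mul_le_mul_of_nonneg_left (by linarith) hK.le

private lemma Vk_step {C K a b e : ℝ} (ha : 0 ≤ a) (ha2 : a ≤ 1 / 2) (hb0 : 0 ≤ b) (hb : b ≤ 1)
    (he : 0 < e) (he1 : e ≤ 1) (hae : a * (1 - e) = e) (hK : 0 < K) {k : ℕ}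
    (h : ∀ (u : ℕ → ℝ) (L : ℕ) (lam : ℝ), 0 < lam → lam ≤ 1 →
      (∀ n, n + k < L → lam ≤ (fwdDiff 1)^[k] u n ∧ (fwdDiff 1)^[k] u n ≤ C * lam) →
      ‖∑ n ∈ range L, ex (u n)‖ ≤ K * ((L : ℝ) * lam ^ a + (L : ℝ) ^ (1 - b) * lam ^ (-a)))
    (u : ℕ → ℝ) (L : ℕ) {lam : ℝ} (hlam : 0 < lam) (hlam1 : lam ≤ 1)
    (hd : ∀ n, n + (k + 1) < L → lam ≤ (fwdDiff 1)^[k + 1] u n ∧
      (fwdDiff 1)^[k + 1] u n ≤ C * lam) :
    ‖∑ n ∈ range L, ex (u n)‖ ≤ (2 + 8 * K) * ((L : ℝ) * lam ^ (e / 2) +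
      (L : ℝ) ^ (1 - b / 2) * lam ^ (-(e / 2))) := by
  have hA0 : 0 ≤ (L : ℝ) * lam ^ (e / 2) := by positivity
  have hB0 : 0 ≤ (L : ℝ) ^ (1 - b / 2) * lam ^ (-(e / 2)) := by positivity
  rcases Nat.eq_zero_or_pos L with rfl | hLpos
  · rw [range_zero, sum_empty, norm_zero]
    positivity
  have hL0 : (0 : ℝ) < L := by exact_mod_cast hLpos
  obtain ⟨x, hx⟩ : ∃ x, x = lam ^ (-e) := ⟨_, rfl⟩
  have hx1 : 1 ≤ x := by
    rw [hx]
    exact Real.one_le_rpow_of_pos_of_le_one_of_nonpos hlam hlam1 (by linarith)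
  have hx0 : 0 < x := by linarith
  have hxl : x * lam = lam ^ (1 - e) := by
    rw [hx]
    conv_lhs => rw [← Real.rpow_one lam, ← Real.rpow_mul hlam.le, ← Real.rpow_add hlam]
    congr 1
    ring
  rcases lt_or_ge (L : ℝ) x with hLx | hLx
  · -- the short case
    have h1 : ‖∑ n ∈ range L, ex (u n)‖ ≤ L := by
      refine (norm_sum_le _ _).trans ?_
      simp [norm_ex]
    have h2 : (L : ℝ) = (L : ℝ) ^ (1 - b / 2) * (L : ℝ) ^ (b / 2) := by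
      rw [← Real.rpow_add hL0]
      norm_num
    have h3 : (L : ℝ) ^ (b / 2) ≤ lam ^ (-(e / 2)) := by
      calc (L : ℝ) ^ (b / 2) ≤ x ^ (b / 2) := Real.rpow_le_rpow hL0.le hLx.le (by linarith)
        _ = lam ^ (-e * (b / 2)) := by rw [hx, ← Real.rpow_mul hlam.le]
        _ ≤ lam ^ (-(e / 2)) := by
          apply Real.rpow_le_rpow_of_exponent_ge hlam hlam1
          nlinarith
    have h4 : (L : ℝ) ≤ (L : ℝ) ^ (1 - b / 2) * lam ^ (-(e / 2)) := by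
      calc (L : ℝ) = (L : ℝ) ^ (1 - b / 2) * (L : ℝ) ^ (b / 2) := h2
        _ ≤ _ := mul_le_mul_of_nonneg_left h3 (by positivity)
    have h5 : (L : ℝ) * lam ^ (e / 2) + (L : ℝ) ^ (1 - b / 2) * lam ^ (-(e / 2)) ≤
        (2 + 8 * K) * ((L : ℝ) * lam ^ (e / 2) + (L : ℝ) ^ (1 - b / 2) * lam ^ (-(e / 2))) :=
      le_mul_of_one_le_left (by linarith) (by linarith)
    linarith
  · -- the long case
    obtain ⟨H, hH⟩ : ∃ H, H = ⌈x⌉₊ := ⟨_, rfl⟩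
    have hxH : x ≤ H := by
      rw [hH]
      exact Nat.le_ceil x
    have hH1 : 1 ≤ H := by
      have : (1 : ℝ) ≤ H := hx1.trans hxH
      exact_mod_cast this
    have hHx : (H : ℝ) ≤ 2 * x := by
      have := Nat.ceil_lt_add_one (a := x) (by linarith)
      rw [← hH] at this
      linarith
    have hHL : H ≤ L := by
      rw [hH]
      exact Nat.ceil_le.2 hLx
    have hH0 : (0 : ℝ) < H := by linarith
    have hv := vdc (fun n => ex (u n)) (fun n => norm_ex _) hH1 hHL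
    have hHlam : 0 < (H : ℝ) * lam := by positivity
    have hsum : ∑ r ∈ Ico 1 H,
        ‖∑ n ∈ range (L - r), ex (u (n + r)) * (starRingEnd ℂ) (ex (u n))‖
        ≤ K * (H * (L * (H * lam) ^ a) +
          (L : ℝ) ^ (1 - b) * (2 * ((H : ℝ) ^ (-a) * H) * lam ^ (-a))) := by
      have hterm : ∀ r ∈ Ico 1 H,
          ‖∑ n ∈ range (L - r), ex (u (n + r)) * (starRingEnd ℂ) (ex (u n))‖ ≤
            K * (L * (H * lam) ^ a + (L : ℝ) ^ (1 - b) * ((r : ℝ) ^ (-a) * lam ^ (-a))) := by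
        intro r hr
        obtain ⟨hr1, hrH⟩ := mem_Ico.1 hr
        have hrx : (r : ℝ) < x := by
          rw [hH] at hrH
          exact Nat.lt_ceil.1 hrH
        have hr0 : (0 : ℝ) < r := by exact_mod_cast hr1
        have hrl : (r : ℝ) * lam ≤ 1 := by
          have h1 : (r : ℝ) * lam ≤ x * lam := mul_le_mul_of_nonneg_right hrx.le hlam.le
          have h3 : lam ^ (1 - e) ≤ 1 := Real.rpow_le_one hlam.le hlam1 (by linarith)
          linarith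
        refine (Vk_corr hb hK h u L hlam hd r hr1 hrl).trans ?_
        refine mul_le_mul_of_nonneg_left ?_ hK.le
        have hrH' : (r : ℝ) ≤ H := by exact_mod_cast hrH.le
        have h7 : ((r : ℝ) * lam) ^ a ≤ (H * lam) ^ a :=
          Real.rpow_le_rpow (by positivity) (mul_le_mul_of_nonneg_right hrH' hlam.le) ha
        have h8 : ((r : ℝ) * lam) ^ (-a) = (r : ℝ) ^ (-a) * lam ^ (-a) :=
          Real.mul_rpow hr0.le hlam.le
        rw [h8]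
        have := mul_le_mul_of_nonneg_left h7 hL0.le
        linarith
      refine (sum_le_sum hterm).trans ?_
      rw [← mul_sum, sum_add_distrib]
      refine mul_le_mul_of_nonneg_left ?_ hK.le
      have h9 : ∑ _r ∈ Ico 1 H, (L : ℝ) * (H * lam) ^ a ≤ H * (L * (H * lam) ^ a) := by
        rw [sum_const, Nat.card_Ico, nsmul_eq_mul]
        refine mul_le_mul_of_nonneg_right ?_ (by positivity)
        exact_mod_cast Nat.sub_le H 1
      have h10 : ∑ r ∈ Ico 1 H, (L : ℝ) ^ (1 - b) * ((r : ℝ) ^ (-a) * lam ^ (-a)) ≤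
          (L : ℝ) ^ (1 - b) * (2 * ((H : ℝ) ^ (-a) * H) * lam ^ (-a)) := by
        rw [← mul_sum, ← sum_mul]
        refine mul_le_mul_of_nonneg_left ?_ (by positivity)
        exact mul_le_mul_of_nonneg_right (Vk_pow_sum hH1 ha2) (by positivity)
      linarith
    have hfin1 : (‖∑ n ∈ range L, ex (u n)‖ ^ 2 : ℝ) ≤
        2 * (L : ℝ) ^ 2 / H + 4 * L / H *
          (K * (H * (L * (H * lam) ^ a) +
          (L : ℝ) ^ (1 - b) * (2 * ((H : ℝ) ^ (-a) * H) * lam ^ (-a)))) := by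
      refine hv.trans ?_
      have : 0 ≤ 4 * (L : ℝ) / H := by positivity
      have := mul_le_mul_of_nonneg_left hsum this
      linarith
    have hid : 2 * (L : ℝ) ^ 2 / H + 4 * L / H *
          (K * (H * (L * (H * lam) ^ a) +
          (L : ℝ) ^ (1 - b) * (2 * ((H : ℝ) ^ (-a) * H) * lam ^ (-a)))) =
        2 * (L : ℝ) ^ 2 * (1 / H) + 4 * K * (L : ℝ) ^ 2 * (H * lam) ^ a +
          8 * K * (L * (L : ℝ) ^ (1 - b)) * (H * lam) ^ (-a) := by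
      rw [Real.mul_rpow hH0.le hlam.le (z := -a)]
      field_simp
      ring
    rw [hid] at hfin1
    -- the powers
    have p1 : 1 / (H : ℝ) ≤ lam ^ e := by
      have e1 : lam ^ e = 1 / x := by
        rw [hx, Real.rpow_neg hlam.le, one_div, inv_inv]
      rw [e1]
      exact one_div_le_one_div_of_le hx0 hxH
    have p2 : ((H : ℝ) * lam) ^ a ≤ 2 * lam ^ e := by
      have e1 : (H : ℝ) * lam ≤ 2 * (x * lam) := by nlinarith
      have e2 : (2 : ℝ) ^ a ≤ 2 := by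
        calc (2 : ℝ) ^ a ≤ 2 ^ (1 : ℝ) :=
              Real.rpow_le_rpow_of_exponent_le (by norm_num) (by linarith)
          _ = 2 := Real.rpow_one 2
      calc ((H : ℝ) * lam) ^ a ≤ (2 * (x * lam)) ^ a := Real.rpow_le_rpow hHlam.le e1 ha
        _ = 2 ^ a * (x * lam) ^ a := Real.mul_rpow (by norm_num) (by positivity)
        _ = 2 ^ a * lam ^ e := by
          rw [hxl, ← Real.rpow_mul hlam.le, mul_comm (1 - e) a, hae]
        _ ≤ 2 * lam ^ e := mul_le_mul_of_nonneg_right e2 (by positivity)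
    have p3 : ((H : ℝ) * lam) ^ (-a) ≤ lam ^ (-e) := by
      calc ((H : ℝ) * lam) ^ (-a) ≤ (x * lam) ^ (-a) :=
            Real.rpow_le_rpow_of_nonpos (by positivity)
              (mul_le_mul_of_nonneg_right hxH hlam.le) (by linarith)
        _ = lam ^ (-e) := by
          rw [hxl, ← Real.rpow_mul hlam.le]
          congr 1
          linarith
    have q1 : 2 * (L : ℝ) ^ 2 * (1 / H) ≤ 2 * (L : ℝ) ^ 2 * lam ^ e :=
      mul_le_mul_of_nonneg_left p1 (by positivity)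
    have q2 : 4 * K * (L : ℝ) ^ 2 * (H * lam) ^ a ≤ 4 * K * (L : ℝ) ^ 2 * (2 * lam ^ e) :=
      mul_le_mul_of_nonneg_left p2 (by positivity)
    have q3 : 8 * K * (L * (L : ℝ) ^ (1 - b)) * (H * lam) ^ (-a) ≤
        8 * K * (L * (L : ℝ) ^ (1 - b)) * lam ^ (-e) :=
      mul_le_mul_of_nonneg_left p3 (by positivity)
    have s1 : (L : ℝ) ^ 2 * lam ^ e = ((L : ℝ) * lam ^ (e / 2)) ^ 2 := by
      rw [mul_pow, ← Real.rpow_natCast (lam ^ (e / 2)) 2, ← Real.rpow_mul hlam.le]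
      congr 2
      push_cast
      ring
    have s2 : (L * (L : ℝ) ^ (1 - b)) * lam ^ (-e) =
        ((L : ℝ) ^ (1 - b / 2) * lam ^ (-(e / 2))) ^ 2 := by
      rw [mul_pow, ← Real.rpow_natCast (lam ^ (-(e / 2))) 2, ← Real.rpow_mul hlam.le,
        ← Real.rpow_natCast ((L : ℝ) ^ (1 - b / 2)) 2, ← Real.rpow_mul hL0.le]
      have t1 : (L : ℝ) * (L : ℝ) ^ (1 - b) = (L : ℝ) ^ (1 + (1 - b)) := by
        rw [Real.rpow_add hL0, Real.rpow_one]
      rw [t1]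
      congr 2
      · push_cast
        ring
      · push_cast
        ring
    obtain ⟨A, hA⟩ : ∃ A, A = (L : ℝ) * lam ^ (e / 2) := ⟨_, rfl⟩
    obtain ⟨B, hB⟩ : ∃ B, B = (L : ℝ) ^ (1 - b / 2) * lam ^ (-(e / 2)) := ⟨_, rfl⟩
    rw [← hA] at s1 hA0 ⊢
    rw [← hB] at s2 hB0 ⊢
    have hrhs0 : 0 ≤ (2 + 8 * K) * (A + B) := by positivity
    refine abs_le_of_sq_le_sq' ?_ hrhs0 |>.2
    have k1 : (‖∑ n ∈ range L, ex (u n)‖ ^ 2 : ℝ) ≤ (2 + 8 * K) * (A ^ 2 + B ^ 2) := by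
      rw [← s1, ← s2]
      have hh : 0 ≤ (L * (L : ℝ) ^ (1 - b)) * lam ^ (-e) := by positivity
      linarith
    have k2 : A ^ 2 + B ^ 2 ≤ (A + B) ^ 2 := by nlinarith [mul_nonneg hA0 hB0]
    calc (‖∑ n ∈ range L, ex (u n)‖ ^ 2 : ℝ) ≤ (2 + 8 * K) * (A ^ 2 + B ^ 2) := k1
      _ ≤ (2 + 8 * K) * (A + B) ^ 2 := mul_le_mul_of_nonneg_left k2 (by positivity)
      _ ≤ (2 + 8 * K) ^ 2 * (A + B) ^ 2 := by
        refine mul_le_mul_of_nonneg_right ?_ (by positivity)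
        nlinarith
      _ = ((2 + 8 * K) * (A + B)) ^ 2 := by ring

theorem kth_test {C : ℝ} (hC : 1 ≤ C) (k : ℕ) (hk : 2 ≤ k) :
    ∃ K : ℝ, 0 < K ∧ ∀ (u : ℕ → ℝ) (L : ℕ) (lam : ℝ), 0 < lam → lam ≤ 1 →
      (∀ n, n + k < L → lam ≤ (fwdDiff 1)^[k] u n ∧ (fwdDiff 1)^[k] u n ≤ C * lam) →
      ‖∑ n ∈ range L, ex (u n)‖ ≤ K * ((L : ℝ) * lam ^ (1 / ((2 : ℝ) ^ k - 2)) +
        (L : ℝ) ^ (1 - 4 / (2 : ℝ) ^ k) * lam ^ (-(1 / ((2 : ℝ) ^ k - 2)))) := by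
  induction k, hk using Nat.le_induction with
  | base =>
    refine ⟨9 * C, by linarith, fun u L lam hlam hlam1 hd => ?_⟩
    have h1 := second_test u L hlam hlam1 hC (by
      intro n hn
      have h2 := hd n hn
      have h3 : (fwdDiff 1)^[2] u n = u (n + 2) - 2 * u (n + 1) + u n := by
        show (u (n + 1 + 1) - u (n + 1)) - (u (n + 1) - u n) = _
        ring
      rw [h3] at h2
      exact h2)
    refine h1.trans (le_of_eq ?_)
    have e1 : (1 / ((2 : ℝ) ^ 2 - 2)) = 1 / 2 := by norm_num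
    have e2 : (1 - 4 / (2 : ℝ) ^ 2) = 0 := by norm_num
    rw [e1, e2, Real.rpow_zero, one_mul, Real.sqrt_eq_rpow, Real.rpow_neg hlam.le, one_div
      (lam ^ (1 / 2 : ℝ))]
  | succ k hk ih =>
    obtain ⟨K, hK, h⟩ := ih
    have hX : (4 : ℝ) ≤ 2 ^ k := by
      calc (4 : ℝ) = 2 ^ 2 := by norm_num
        _ ≤ 2 ^ k := pow_le_pow_right₀ (by norm_num) hk
    obtain ⟨X, hXd⟩ : ∃ X, X = (2 : ℝ) ^ k := ⟨_, rfl⟩
    rw [← hXd] at hX
    refine ⟨2 + 8 * K, by linarith, fun u L lam hlam hlam1 hd => ?_⟩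
    have hX2 : (2 : ℝ) ^ (k + 1) = 2 * X := by
      rw [pow_succ, ← hXd]
      ring
    have hn1 : X - 2 ≠ 0 := by linarith
    have hn2 : X - 1 ≠ 0 := by linarith
    have hn3 : X ≠ 0 := by linarith
    rw [← hXd] at h
    have e1 : 1 / ((2 : ℝ) ^ (k + 1) - 2) = (1 / (X - 1)) / 2 := by
      rw [hX2]
      have : 2 * X - 2 ≠ 0 := by linarith
      field_simp
    have e2 : 1 - 4 / (2 : ℝ) ^ (k + 1) = 1 - (4 / X) / 2 := by
      rw [hX2]
      field_simp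
    rw [e1, e2]
    refine Vk_step (a := 1 / (X - 2)) (b := 4 / X) (e := 1 / (X - 1)) ?_ ?_ ?_ ?_ ?_ ?_ ?_ hK h u L
      hlam hlam1 hd
    · exact div_nonneg zero_le_one (by linarith)
    · exact one_div_le_one_div_of_le (by norm_num) (by linarith)
    · positivity
    · rw [div_le_one (by linarith)]
      exact hX
    · exact div_pos one_pos (by linarith)
    · rw [div_le_one (by linarith)]
      linarith
    · field_simp
      ring

end FD39
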