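import Pool.Agent.H39.FD.Defs
import Pool.Agent.H39.FD.Vk
import Pool.Agent.H39.FD.Dik
import Pool.Agent.H39.FD.Up2

/-!
ROW Upk (project MP_493793_FD, about 160 lines): upper bound from P derivatives.

PROOF. Induction on `P` (`Nat.le_induction`). `F = y N ^ (1 - σ) ≥ N ≥ 2`. Base `P = 2`: `upper2` (file Up2) and `√F = N (F / N ^ 2) ^ (1 / 2)`. Step: let `P ≥ 3`, `a = 1 / (2 ^ P - 2)`, `a' = 1 / (2 ^ (P - 1) - 2)`, and let the claim hold for `P - 1` (the class for `P` is contained in the class for `P - 1`: the condition is for `j < P`). Put `e = P - 2 + 4 / 2 ^ P`.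
Case `F < N ^ e`: the claim for `P - 1` gives `K N (F / N ^ (P - 1)) ^ a'`, and this is `≤ K N (F / N ^ P) ^ a`, because `F ^ (a' - a) ≤ N ^ (e (a' - a))` and `e (a' - a) = (P - 1) a' - P a` (`field_simp`, `ring` after setting `t = 2 ^ P`, `2 ^ (P - 1) = t / 2`, `t ≥ 8`).
Case `F ≥ N ^ e`: as in the PROVED rows Up2, Up3 (`Pool/Agent/H39/FD/Up2.lean`, `Up3.lean`; read them) with the condition of the class for `j = P - 1`: `s = (-1) ^ (P - 1)`, `R = rising σ (P - 1) > 0`: `(1 - c) R y x ^ (-σ - (P - 1)) ≤ s * iteratedDerivWithin P f .. ≤ (1 + c) R y x ^ (-σ - (P - 1))`; `A = (1 - c) R 2 ^ (-σ - (P - 1))`, `C = (1 + c) / (1 - c) * 2 ^ (σ + (P - 1)) ≥ 1`,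
`lam = A F / N ^ P`: `lam ≤ s * f^(P) ≤ C lam`. `kth_diff` and `seq_diff` (file Dik; for `s * f`, or for `f` with negative bounds and then `(fwdDiff 1)^[P] (-u) = -..`), `kth_test` (file Vk) for `u n = s * f (n0 + n)` (`‖∑ ex (s * f)‖ = ‖∑ ex f‖` by `conj_ex` if `s = -1`), `L ≤ 2 N`. If `lam > 1`: norm `≤ 2 N ≤ 2 N lam ^ a`. If `lam ≤ 1`: norm `≤ K (2 N lam ^ a + (2 N) ^ (1 - 4 / 2 ^ P) lam ^ (-a))`
and `N ^ (1 - 4 / 2 ^ P) (F / N ^ P) ^ (-a) ≤ N (F / N ^ P) ^ a`, because `(F / N ^ P) ^ (2 a) ≥ (N ^ (e - P)) ^ (2 a) = N ^ (-4 / 2 ^ P)` (`(P - e) * 2 a = (2 - 4 / t) * 2 / (t - 2) = 4 / t`).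
-/

set_option autoImplicit false

namespace FD39

open Finset

private lemma Upk_four {P : ℕ} (hP : 2 ≤ P) : (4 : ℝ) ≤ 2 ^ P := by
  calc (4 : ℝ) = 2 ^ 2 := by norm_num
    _ ≤ 2 ^ P := pow_le_pow_right₀ (by norm_num) hP

private lemma Upk_split {F N : ℝ} (hF : 0 < F) (hN : 0 < N) (P : ℕ) (a : ℝ) :
    (F / N ^ P) ^ a = F ^ a * N ^ (-((P : ℝ) * a)) := by
  rw [Real.div_rpow hF.le (by positivity), ← Real.rpow_natCast N P, ← Real.rpow_mul hN.le,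
    Real.rpow_neg hN.le, div_eq_mul_inv]

private lemma Upk_case1 {P : ℕ} (hP : 2 ≤ P) {N F : ℝ} (hN : 1 ≤ N) (hF : 0 < F)
    (h : F ≤ N ^ ((P : ℝ) - 1 + 2 / 2 ^ P)) :
    (F / N ^ P) ^ (1 / ((2 : ℝ) ^ P - 2)) ≤ (F / N ^ (P + 1)) ^ (1 / ((2 : ℝ) ^ (P + 1) - 2)) := by
  have hN0 : 0 < N := by linarith
  have h4 := Upk_four hP
  obtain ⟨t, ht⟩ : ∃ t : ℝ, t = 2 ^ P := ⟨_, rfl⟩
  have h2t : (2 : ℝ) ^ (P + 1) = 2 * t := by rw [pow_succ, ht]; ring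
  rw [h2t]
  rw [← ht] at h4 h ⊢
  have ht2 : 0 < t - 2 := by linarith
  have ht3 : 0 < 2 * t - 2 := by linarith
  have ht0 : 0 < t := by linarith
  obtain ⟨a', ha'⟩ : ∃ a' : ℝ, a' = 1 / (t - 2) := ⟨_, rfl⟩
  obtain ⟨a, ha⟩ : ∃ a : ℝ, a = 1 / (2 * t - 2) := ⟨_, rfl⟩
  rw [← ha, ← ha', Upk_split hF hN0, Upk_split hF hN0]
  have haa : 0 ≤ a' - a := by
    rw [ha, ha', sub_nonneg]
    exact one_div_le_one_div_of_le ht2 (by linarith)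
  have hexp : ((P : ℝ) - 1 + 2 / t) * (a' - a) + -((P : ℝ) * a') = -(((P + 1 : ℕ) : ℝ) * a) := by
    have ht5 : t - 1 ≠ 0 := by
      intro h0
      linarith
    have ht6 : t - 2 ≠ 0 := ht2.ne'
    rw [ha, ha', show 2 * t - 2 = 2 * (t - 1) by ring]
    push_cast
    field_simp
    ring
  have h1 : F ^ (a' - a) ≤ N ^ (((P : ℝ) - 1 + 2 / t) * (a' - a)) := by
    rw [Real.rpow_mul hN0.le]
    exact Real.rpow_le_rpow hF.le h haa
  calc F ^ a' * N ^ (-((P : ℝ) * a')) = F ^ a * F ^ (a' - a) * N ^ (-((P : ℝ) * a')) := by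
        rw [← Real.rpow_add hF]
        congr 2
        ring
    _ ≤ F ^ a * N ^ (((P : ℝ) - 1 + 2 / t) * (a' - a)) * N ^ (-((P : ℝ) * a')) := by
        gcongr
    _ = F ^ a * N ^ (-(((P + 1 : ℕ) : ℝ) * a)) := by
        rw [mul_assoc, ← Real.rpow_add hN0, hexp]

private lemma Upk_case2 {P : ℕ} (hP : 2 ≤ P) {N F : ℝ} (hN : 1 ≤ N) (hF : 0 < F)
    (h : N ^ ((P : ℝ) - 1 + 2 / 2 ^ P) ≤ F) :
    N ^ (1 - 4 / (2 : ℝ) ^ (P + 1)) * (F / N ^ (P + 1)) ^ (-(1 / ((2 : ℝ) ^ (P + 1) - 2))) ≤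
      N * (F / N ^ (P + 1)) ^ (1 / ((2 : ℝ) ^ (P + 1) - 2)) := by
  have hN0 : 0 < N := by linarith
  have h4 := Upk_four hP
  obtain ⟨t, ht⟩ : ∃ t : ℝ, t = 2 ^ P := ⟨_, rfl⟩
  have h2t : (2 : ℝ) ^ (P + 1) = 2 * t := by rw [pow_succ, ht]; ring
  rw [h2t]
  rw [← ht] at h4 h
  have ht3 : 0 < 2 * t - 2 := by linarith
  have ht0 : 0 < t := by linarith
  obtain ⟨a, ha⟩ : ∃ a : ℝ, a = 1 / (2 * t - 2) := ⟨_, rfl⟩
  rw [← ha]
  have ha0 : 0 < a := by rw [ha]; positivity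
  obtain ⟨G, hG⟩ : ∃ G : ℝ, G = F / N ^ (P + 1) := ⟨_, rfl⟩
  have hG0 : 0 < G := by rw [hG]; positivity
  rw [← hG]
  have hGle : N ^ ((P : ℝ) - 1 + 2 / t - ((P + 1 : ℕ) : ℝ)) ≤ G := by
    rw [Real.rpow_sub hN0, Real.rpow_natCast, hG]
    gcongr
  have h1 : N ^ (-(4 / (2 * t))) ≤ G ^ (2 * a) := by
    have h2 := Real.rpow_le_rpow (by positivity) hGle (by positivity : 0 ≤ 2 * a)
    rw [← Real.rpow_mul hN0.le] at h2
    have e : ((P : ℝ) - 1 + 2 / t - ((P + 1 : ℕ) : ℝ)) * (2 * a) = -(4 / (2 * t)) := by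
      have ht5 : t - 1 ≠ 0 := by
        intro h0
        linarith
      rw [ha, show 2 * t - 2 = 2 * (t - 1) by ring]
      push_cast
      field_simp
      ring
    rwa [e] at h2
  calc N ^ (1 - 4 / (2 * t)) * G ^ (-a) = N * N ^ (-(4 / (2 * t))) * G ^ (-a) := by
        rw [sub_eq_add_neg, Real.rpow_add hN0, Real.rpow_one]
    _ ≤ N * G ^ (2 * a) * G ^ (-a) := by gcongr
    _ = N * G ^ a := by
        rw [mul_assoc, ← Real.rpow_add hG0]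
        congr 2
        ring

/-- the bounds of the derivative of order `P + 1` -/
private lemma Upk_bounds {σ c N y x D R : ℝ} (P : ℕ) (hσ : 0 < σ) (hc1 : c < 1) (hcp : 0 < c)
    (hN : 0 < N) (hR : 0 < R)
    (hy : 0 < y) (hx1 : N ≤ x) (hx2 : x ≤ 2 * N)
    (h : |D - R * y * x ^ (-σ - P)| < c * (R * y * x ^ (-σ - P))) :
    (1 - c) * R * (2 : ℝ) ^ (-σ - P) * (y * N ^ (1 - σ)) / N ^ (P + 1) ≤ D ∧
      D ≤ (1 + c) / (1 - c) * (2 : ℝ) ^ (σ + P) *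
        ((1 - c) * R * (2 : ℝ) ^ (-σ - P) * (y * N ^ (1 - σ)) / N ^ (P + 1)) := by
  have hx : 0 < x := hN.trans_le hx1
  have hc' : 0 < 1 - c := by linarith
  have hP0 : (0 : ℝ) ≤ P := Nat.cast_nonneg P
  obtain ⟨h1, h2⟩ := abs_lt.1 h
  have hup : x ^ (-σ - P) ≤ N ^ (-σ - P) :=
    Real.rpow_le_rpow_of_nonpos hN hx1 (by linarith)
  have hlo : (2 * N) ^ (-σ - P) ≤ x ^ (-σ - P) :=
    Real.rpow_le_rpow_of_nonpos hx hx2 (by linarith)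
  have hmul : (2 * N) ^ (-σ - P) = (2 : ℝ) ^ (-σ - P) * N ^ (-σ - P) :=
    Real.mul_rpow (by norm_num) hN.le
  have hsplit : N ^ (-σ - P) = N ^ (1 - σ) / N ^ (P + 1) := by
    rw [show (-σ - P : ℝ) = (1 - σ) - ((P + 1 : ℕ) : ℝ) by push_cast; ring,
      Real.rpow_sub_natCast hN.ne']
  have h2p : (2 : ℝ) ^ (σ + P) * (2 : ℝ) ^ (-σ - P) = 1 := by
    rw [← Real.rpow_add (by norm_num), show (σ + P + (-σ - P) : ℝ) = 0 by ring, Real.rpow_zero]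
  have hRy : 0 < R * y := by positivity
  constructor
  · have e1 : (1 - c) * R * (2 : ℝ) ^ (-σ - P) * (y * N ^ (1 - σ)) / N ^ (P + 1) =
        (1 - c) * (R * y * (2 * N) ^ (-σ - P)) := by
      rw [hmul, hsplit]; ring
    rw [e1]
    have e2 : (1 - c) * (R * y * (2 * N) ^ (-σ - P)) ≤
        (1 - c) * (R * y * x ^ (-σ - P)) :=
      mul_le_mul_of_nonneg_left (mul_le_mul_of_nonneg_left hlo hRy.le) hc'.le
    linarith
  · have e1 : (1 + c) / (1 - c) * (2 : ℝ) ^ (σ + P) *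
        ((1 - c) * R * (2 : ℝ) ^ (-σ - P) * (y * N ^ (1 - σ)) / N ^ (P + 1)) =
        (1 + c) * (R * y * N ^ (-σ - P)) := by
      rw [hsplit]
      have : (1 + c) / (1 - c) * (2 : ℝ) ^ (σ + P) *
        ((1 - c) * R * (2 : ℝ) ^ (-σ - P) * (y * N ^ (1 - σ)) / N ^ (P + 1)) =
        ((1 + c) / (1 - c) * (1 - c)) * ((2 : ℝ) ^ (σ + P) * (2 : ℝ) ^ (-σ - P)) *
          (R * y * (N ^ (1 - σ) / N ^ (P + 1))) := by ring
      rw [this, h2p, div_mul_cancel₀ _ hc'.ne']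
      ring
    rw [e1]
    have e2 : (1 + c) * (R * y * x ^ (-σ - P)) ≤
        (1 + c) * (R * y * N ^ (-σ - P)) :=
      mul_le_mul_of_nonneg_left (mul_le_mul_of_nonneg_left hup hRy.le) (by linarith)
    linarith

private lemma Upk_smul (s : ℝ) (u : ℕ → ℝ) (k n : ℕ) :
    (fwdDiff 1)^[k] (fun n => s * u n) n = s * (fwdDiff 1)^[k] u n := by
  induction k generalizing n with
  | zero => rfl
  | succ k ih =>
    rw [Function.iterate_succ_apply', Function.iterate_succ_apply', fwdDiff, fwdDiff, ih, ih]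
    ring

private lemma Upk_norm {s : ℝ} (hs : s = 1 ∨ s = -1) (g : ℕ → ℝ) (I : Finset ℕ) :
    ‖∑ n ∈ I, ex (g n)‖ = ‖∑ n ∈ I, ex (s * g n)‖ := by
  rcases hs with hs | hs
  · subst hs
    simp only [one_mul]
  · subst hs
    simp only [neg_one_mul]
    exact Up2_sum g I

private lemma Upk_rising {σ : ℝ} (hσ : 0 < σ) (j : ℕ) : 0 < rising σ j := by
  unfold rising
  exact Finset.prod_pos fun i _ => by positivity

private lemma Upk_step {σ c : ℝ} (hσ : 0 < σ) (hc : 0 < c) (hc1 : c < 1) (P : ℕ) (hP : 2 ≤ P) :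
    ∃ K : ℝ, 0 < K ∧ ∀ (N N' y : ℝ) (f : ℝ → ℝ), 2 ≤ N → N ≤ N' → N' ≤ 2 * N →
      N ≤ y * N ^ (1 - σ) → GKClass N (P + 1) σ y c f →
      N ^ ((P : ℝ) - 1 + 2 / 2 ^ P) ≤ y * N ^ (1 - σ) →
      ‖∑ n ∈ Icc ⌈N⌉₊ ⌊N'⌋₊, ex (f (n : ℝ))‖ ≤
        K * (N * (y * N ^ (1 - σ) / N ^ (P + 1)) ^ (1 / ((2 : ℝ) ^ (P + 1) - 2))) := by
  have hc' : 0 < 1 - c := by linarith
  have h4 := Upk_four hP
  have hR : 0 < rising σ P := Upk_rising hσ P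
  obtain ⟨A, hA⟩ : ∃ A : ℝ, A = (1 - c) * rising σ P * (2 : ℝ) ^ (-σ - P) := ⟨_, rfl⟩
  obtain ⟨C, hC⟩ : ∃ C : ℝ, C = (1 + c) / (1 - c) * (2 : ℝ) ^ (σ + P) := ⟨_, rfl⟩
  have h2p : (0 : ℝ) < (2 : ℝ) ^ (-σ - P) := Real.rpow_pos_of_pos (by norm_num) _
  have hA0 : 0 < A := by rw [hA]; positivity
  have hC1 : 1 ≤ C := by
    have h1 : 1 ≤ (1 + c) / (1 - c) := by
      rw [le_div_iff₀ hc']; linarith
    have h2 : (1 : ℝ) ≤ (2 : ℝ) ^ (σ + P) := Real.one_le_rpow (by norm_num) (by positivity)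
    calc (1 : ℝ) = 1 * 1 := by ring
      _ ≤ C := by
        rw [hC]
        exact mul_le_mul h1 h2 (by norm_num) (by linarith)
  obtain ⟨K₁, hK₁, hkt⟩ := kth_test hC1 (P + 1) (by omega)
  obtain ⟨a, ha⟩ : ∃ a : ℝ, a = 1 / ((2 : ℝ) ^ (P + 1) - 2) := ⟨_, rfl⟩
  have h2t : (2 : ℝ) ^ (P + 1) = 2 * 2 ^ P := by rw [pow_succ]; ring
  have ha0 : 0 < a := by
    rw [ha, h2t]
    apply div_pos one_pos
    linarith
  have hA1 : (0 : ℝ) < A ^ a := Real.rpow_pos_of_pos hA0 _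
  have hA2 : (0 : ℝ) < A ^ (-a) := Real.rpow_pos_of_pos hA0 _
  refine ⟨2 * A ^ a + K₁ * (2 * A ^ a + 2 * A ^ (-a)), by positivity, ?_⟩
  intro N N' y f hN hNN' hN'2 hyN hf hbig
  have hN0 : 0 < N := by linarith
  obtain ⟨F, hF⟩ : ∃ F : ℝ, F = y * N ^ (1 - σ) := ⟨_, rfl⟩
  rw [← hF] at hbig hyN ⊢
  have hF0 : 0 < F := by linarith
  have hNp : (0 : ℝ) < N ^ (1 - σ) := Real.rpow_pos_of_pos hN0 _
  have hy : 0 < y := by
    by_contra hneg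
    have : F ≤ 0 := by
      rw [hF]
      exact mul_nonpos_of_nonpos_of_nonneg (not_lt.1 hneg) hNp.le
    linarith
  obtain ⟨G, hG⟩ : ∃ G : ℝ, G = F / N ^ (P + 1) := ⟨_, rfl⟩
  have hG0 : 0 < G := by rw [hG]; positivity
  have hcase2 := Upk_case2 hP (by linarith : 1 ≤ N) hF0 hbig
  rw [← hG, ← ha] at hcase2
  rw [← hG, ← ha]
  obtain ⟨lam, hlamdef⟩ : ∃ lam : ℝ, lam = A * G := ⟨_, rfl⟩
  have hlam : 0 < lam := by rw [hlamdef]; positivity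
  obtain ⟨s, hs⟩ : ∃ s : ℝ, s = (-1) ^ P := ⟨_, rfl⟩
  have hs1 : s = 1 ∨ s = -1 := by
    rw [hs]
    exact neg_one_pow_eq_or ℝ P
  have hss : s * s = 1 := by
    rcases hs1 with h | h <;> rw [h] <;> norm_num
  have hD : ∀ x ∈ Set.Icc N (2 * N), lam ≤ s * iteratedDerivWithin (P + 1) f (Set.Icc N (2 * N)) x ∧
      s * iteratedDerivWithin (P + 1) f (Set.Icc N (2 * N)) x ≤ C * lam := by
    intro x hx
    have h1 := hf.2 P (by omega) x hx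
    obtain ⟨D, hDdef⟩ : ∃ D : ℝ, D = iteratedDerivWithin (P + 1) f (Set.Icc N (2 * N)) x := ⟨_, rfl⟩
    rw [← hDdef] at h1 ⊢
    rw [← hs] at h1
    have h3 : |s * D - rising σ P * y * x ^ (-σ - (P : ℝ))| <
        c * (rising σ P * y * x ^ (-σ - (P : ℝ))) := by
      have e : s * D - rising σ P * y * x ^ (-σ - (P : ℝ)) =
          s * (D - s * rising σ P * y * x ^ (-σ - (P : ℝ))) := by
        calc s * D - rising σ P * y * x ^ (-σ - (P : ℝ)) =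
            s * D - (s * s) * (rising σ P * y * x ^ (-σ - (P : ℝ))) := by rw [hss, one_mul]
          _ = _ := by ring
      have hsabs : |s| = 1 := by
        rcases hs1 with h | h <;> rw [h] <;> norm_num
      rw [e, abs_mul, hsabs, one_mul]
      exact h1
    have h5 := Upk_bounds P hσ hc1 hc hN0 hR hy hx.1 hx.2 h3
    rw [← hF, ← hA, ← hC] at h5
    have e6 : A * F / N ^ (P + 1) = lam := by rw [hlamdef, hG]; ring
    rw [e6] at h5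
    exact h5
  obtain ⟨n0, hn0⟩ : ∃ n0 : ℕ, n0 = ⌈N⌉₊ := ⟨_, rfl⟩
  obtain ⟨L, hL⟩ : ∃ L : ℕ, L = ⌊N'⌋₊ + 1 - n0 := ⟨_, rfl⟩
  have hn0N : N ≤ (n0 : ℝ) := by rw [hn0]; exact Nat.le_ceil N
  have hfl : ((⌊N'⌋₊ : ℕ) : ℝ) ≤ N' := Nat.floor_le (by linarith)
  have hsum : ∑ n ∈ Icc ⌈N⌉₊ ⌊N'⌋₊, ex (f (n : ℝ)) = ∑ n ∈ range L, ex (f ((n0 + n : ℕ) : ℝ)) := by
    have e : Icc n0 ⌊N'⌋₊ = Ico n0 (⌊N'⌋₊ + 1) := by
      ext k
      simp only [mem_Icc, mem_Ico]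
      omega
    rw [← hn0, e, Finset.sum_Ico_eq_sum_range, hL]
  have hL2 : (L : ℝ) ≤ 2 * N := by
    rcases le_or_gt n0 ⌊N'⌋₊ with h | h
    · have h1 : L + n0 = ⌊N'⌋₊ + 1 := by omega
      have h2 : (L : ℝ) + n0 = (⌊N'⌋₊ : ℕ) + 1 := by exact_mod_cast h1
      linarith
    · have h1 : L = 0 := by omega
      rw [h1]
      push_cast
      linarith
  have hdiff : ∀ n, n + (P + 1) < L →
      lam ≤ (fwdDiff 1)^[P + 1] (fun n : ℕ => s * f ((n0 + n : ℕ) : ℝ)) n ∧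
      (fwdDiff 1)^[P + 1] (fun n : ℕ => s * f ((n0 + n : ℕ) : ℝ)) n ≤ C * lam := by
    intro n hn
    have h1 : n0 + n + (P + 1) ≤ ⌊N'⌋₊ := by omega
    have h2 : ((n0 + n : ℕ) : ℝ) + ((P + 1 : ℕ) : ℝ) ≤ (⌊N'⌋₊ : ℕ) := by exact_mod_cast h1
    have h3 : N ≤ ((n0 + n : ℕ) : ℝ) := by
      push_cast
      have : (0 : ℝ) ≤ (n : ℝ) := Nat.cast_nonneg n
      linarith
    rw [Upk_smul s (fun n : ℕ => f ((n0 + n : ℕ) : ℝ)) (P + 1) n, seq_diff f n0 (P + 1) n]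
    rcases hs1 with h | h
    · rw [h] at hD ⊢
      simp only [one_mul] at hD ⊢
      exact kth_diff (by linarith) hf.1 (P + 1) hD h3 (by linarith)
    · rw [h] at hD ⊢
      have h6 := kth_diff (f := f) (a := N) (b := 2 * N) (m := -(C * lam)) (M := -lam)
        (by linarith) hf.1 (P + 1)
        (fun x hx => ⟨by linarith [(hD x hx).2], by linarith [(hD x hx).1]⟩) h3 (by linarith)
      constructor
      · linarith [h6.2]
      · linarith [h6.1]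
  have hX : (0 : ℝ) < N * G ^ a := by positivity
  have hlama : lam ^ a = A ^ a * G ^ a := by
    rw [hlamdef, Real.mul_rpow hA0.le hG0.le]
  have hlama' : lam ^ (-a) = A ^ (-a) * G ^ (-a) := by
    rw [hlamdef, Real.mul_rpow hA0.le hG0.le]
  have hLlam : (L : ℝ) * lam ^ a ≤ 2 * A ^ a * (N * G ^ a) := by
    rw [hlama]
    calc (L : ℝ) * (A ^ a * G ^ a) ≤ 2 * N * (A ^ a * G ^ a) := by gcongr
      _ = 2 * A ^ a * (N * G ^ a) := by ring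
  rw [hsum]
  rcases le_or_gt lam 1 with hl | hl
  · have h1 := hkt (fun n : ℕ => s * f ((n0 + n : ℕ) : ℝ)) L lam hlam hl hdiff
    rw [← ha] at h1
    rw [Upk_norm hs1 (fun n : ℕ => f ((n0 + n : ℕ) : ℝ))]
    refine h1.trans ?_
    have hb0 : 0 ≤ 1 - 4 / (2 : ℝ) ^ (P + 1) := by
      rw [h2t, sub_nonneg, div_le_one (by linarith)]
      linarith
    have hb1 : 1 - 4 / (2 : ℝ) ^ (P + 1) ≤ 1 := by
      have : (0 : ℝ) ≤ 4 / (2 : ℝ) ^ (P + 1) := by positivity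
      linarith
    obtain ⟨b, hb⟩ : ∃ b : ℝ, b = 1 - 4 / (2 : ℝ) ^ (P + 1) := ⟨_, rfl⟩
    rw [← hb] at hb0 hb1 hcase2 ⊢
    have h7 : (L : ℝ) ^ b ≤ 2 * N ^ b := by
      calc (L : ℝ) ^ b ≤ (2 * N) ^ b := Real.rpow_le_rpow (Nat.cast_nonneg L) hL2 hb0
        _ = 2 ^ b * N ^ b := Real.mul_rpow (by norm_num) hN0.le
        _ ≤ 2 ^ (1 : ℝ) * N ^ b := by
          apply mul_le_mul_of_nonneg_right _ (by positivity)
          exact Real.rpow_le_rpow_of_exponent_le (by norm_num) hb1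
        _ = 2 * N ^ b := by rw [Real.rpow_one]
    have h8 : (L : ℝ) ^ b * lam ^ (-a) ≤ 2 * A ^ (-a) * (N * G ^ a) := by
      rw [hlama']
      calc (L : ℝ) ^ b * (A ^ (-a) * G ^ (-a)) ≤ 2 * N ^ b * (A ^ (-a) * G ^ (-a)) := by gcongr
        _ = 2 * A ^ (-a) * (N ^ b * G ^ (-a)) := by ring
        _ ≤ 2 * A ^ (-a) * (N * G ^ a) := by gcongr
    calc K₁ * ((L : ℝ) * lam ^ a + (L : ℝ) ^ b * lam ^ (-a))
        ≤ K₁ * (2 * A ^ a * (N * G ^ a) + 2 * A ^ (-a) * (N * G ^ a)) := by gcongr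
      _ = K₁ * (2 * A ^ a + 2 * A ^ (-a)) * (N * G ^ a) := by ring
      _ ≤ (2 * A ^ a + K₁ * (2 * A ^ a + 2 * A ^ (-a))) * (N * G ^ a) := by
        apply mul_le_mul_of_nonneg_right _ hX.le
        linarith
  · have h1 : ‖∑ n ∈ range L, ex (f ((n0 + n : ℕ) : ℝ))‖ ≤ (L : ℝ) := by
      refine (norm_sum_le _ _).trans ?_
      rw [Finset.sum_congr rfl (fun n _ => norm_ex _)]
      simp
    have h2 : (1 : ℝ) ≤ lam ^ a := Real.one_le_rpow hl.le ha0.le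
    have h3 : (L : ℝ) ≤ L * lam ^ a := by
      have : (0 : ℝ) ≤ L := Nat.cast_nonneg L
      nlinarith
    calc ‖∑ n ∈ range L, ex (f ((n0 + n : ℕ) : ℝ))‖ ≤ 2 * A ^ a * (N * G ^ a) := by linarith
      _ ≤ (2 * A ^ a + K₁ * (2 * A ^ a + 2 * A ^ (-a))) * (N * G ^ a) := by
        apply mul_le_mul_of_nonneg_right _ hX.le
        have : 0 ≤ K₁ * (2 * A ^ a + 2 * A ^ (-a)) := by positivity
        linarith

theorem upperk {σ c : ℝ} (hσ : 0 < σ) (hc : 0 < c) (hc1 : c < 1) (P : ℕ) (hP : 2 ≤ P) :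
    ∃ K : ℝ, 0 < K ∧ ∀ (N N' y : ℝ) (f : ℝ → ℝ), 2 ≤ N → N ≤ N' → N' ≤ 2 * N →
      N ≤ y * N ^ (1 - σ) → GKClass N P σ y c f →
      ‖∑ n ∈ Icc ⌈N⌉₊ ⌊N'⌋₊, ex (f (n : ℝ))‖ ≤
        K * (N * (y * N ^ (1 - σ) / N ^ P) ^ (1 / ((2 : ℝ) ^ P - 2))) := by
  induction P, hP using Nat.le_induction with
  | base =>
    obtain ⟨K, hK, h⟩ := upper2 hσ hc hc1
    refine ⟨K, hK, ?_⟩
    intro N N' y f hN hNN' hN'2 hyN hf
    have h1 := h 2 N N' y f le_rfl hN hNN' hN'2 hyN hf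
    refine h1.trans (le_of_eq ?_)
    have hN0 : 0 < N := by linarith
    have hF0 : 0 ≤ y * N ^ (1 - σ) := by linarith
    have e : (1 / ((2 : ℝ) ^ 2 - 2)) = 1 / 2 := by norm_num
    rw [e, ← Real.sqrt_eq_rpow, Real.sqrt_div hF0, Real.sqrt_sq hN0.le]
    field_simp
  | succ P hP ih =>
    obtain ⟨K', hK', h'⟩ := ih
    obtain ⟨K, hK, h⟩ := Upk_step hσ hc hc1 P hP
    refine ⟨K' + K, by positivity, ?_⟩
    intro N N' y f hN hNN' hN'2 hyN hf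
    have hN0 : 0 < N := by linarith
    have hF0 : 0 < y * N ^ (1 - σ) := by linarith
    have hX : 0 ≤ N * (y * N ^ (1 - σ) / N ^ (P + 1)) ^ (1 / ((2 : ℝ) ^ (P + 1) - 2)) := by
      positivity
    rcases le_or_gt (N ^ ((P : ℝ) - 1 + 2 / 2 ^ P)) (y * N ^ (1 - σ)) with hb | hb
    · refine (h N N' y f hN hNN' hN'2 hyN hf hb).trans ?_
      exact mul_le_mul_of_nonneg_right (by linarith) hX
    · have h1 := h' N N' y f hN hNN' hN'2 hyN ⟨hf.1, fun j hj => hf.2 j (by omega)⟩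
      have h2 := Upk_case1 hP (by linarith : 1 ≤ N) hF0 hb.le
      calc _ ≤ K' * (N * (y * N ^ (1 - σ) / N ^ P) ^ (1 / ((2 : ℝ) ^ P - 2))) := h1
        _ ≤ K' * (N * (y * N ^ (1 - σ) / N ^ (P + 1)) ^ (1 / ((2 : ℝ) ^ (P + 1) - 2))) := by
          gcongr
        _ ≤ _ := mul_le_mul_of_nonneg_right (by linarith) hX

end FD39
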