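import Pool.Agent.H39.FD.Defs
import Pool.Agent.H39.FD.Upk

/-!
ROW Pak (project MP_493793_FD, about 70 lines): exponent pairs from the P-th derivative test.

PROOF. Let `F = y N ^ (1 - σ) ≥ N ≥ 2`, `a = 1 / (2 ^ P - 2) > 0`, `K` from `upperk` (file Upk), constant `K + 2` for every `ε`. The number of terms is `≤ 2 N`. If `F ≤ N ^ P`: norm `≤ K N (F / N ^ P) ^ a ≤ K N (F / N ^ P) ^ p` (`p ≤ a`, base `≤ 1`). If `F > N ^ P`: norm `≤ 2 N ≤ 2 N (F / N ^ P) ^ p` (`p ≥ 0`). And `N (F / N ^ P) ^ p = F ^ p N ^ (1 - P p) ≤ F ^ p N ^ (q - p + 1 / 2)`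
by `h`; finally `1 ≤ F ^ ε`.
-/

set_option autoImplicit false

namespace FD39

open Finset

private lemma Pak_count {N N' : ℝ} (hN : 2 ≤ N) (hN2 : N' ≤ 2 * N) (f : ℝ → ℝ) :
    ‖∑ n ∈ Icc ⌈N⌉₊ ⌊N'⌋₊, ex (f (n : ℝ))‖ ≤ 2 * N := by
  have h1 : ‖∑ n ∈ Icc ⌈N⌉₊ ⌊N'⌋₊, ex (f (n : ℝ))‖ ≤ ((Icc ⌈N⌉₊ ⌊N'⌋₊).card : ℝ) := by
    refine (norm_sum_le _ _).trans ?_
    have h0 : ∀ n ∈ Icc ⌈N⌉₊ ⌊N'⌋₊, ‖ex (f (n : ℝ))‖ = 1 := fun n _ => norm_ex _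
    rw [Finset.sum_congr rfl h0, Finset.sum_const, nsmul_eq_mul, mul_one]
  refine h1.trans ?_
  rw [Nat.card_Icc]
  rcases le_or_gt ⌈N⌉₊ (⌊N'⌋₊ + 1) with hle | hlt
  · rw [Nat.cast_sub hle]
    push_cast
    have h2 : N ≤ (⌈N⌉₊ : ℝ) := Nat.le_ceil N
    have h3 : (⌊N'⌋₊ : ℝ) ≤ 2 * N := by
      rcases le_or_gt 0 N' with h0 | h0
      · exact (Nat.floor_le h0).trans hN2
      · rw [Nat.floor_of_nonpos h0.le]
        push_cast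
        linarith
    linarith
  · rw [Nat.sub_eq_zero_of_le hlt.le]
    push_cast
    linarith

theorem pair_k {σ c p q : ℝ} (hσ : 0 < σ) (hc : 0 < c) (hc1 : c < 1) {P : ℕ} (hP : 2 ≤ P)
    (hp : 0 ≤ p) (hpa : p ≤ 1 / ((2 : ℝ) ^ P - 2)) (h : 1 / 2 ≤ (P - 1) * p + q) :
    IsPairFor σ P c p q := by
  intro ε hε
  obtain ⟨K, hK, hk⟩ := upperk hσ hc hc1 P hP
  refine ⟨K + 2, ?_⟩
  intro N N' y f hN hNN hN2 hF hf
  have hN0 : 0 < N := by linarith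
  have hN1 : 1 ≤ N := by linarith
  obtain ⟨F, hFd⟩ : ∃ F : ℝ, F = y * N ^ (1 - σ) := ⟨_, rfl⟩
  have hb := hk N N' y f hN hNN hN2 hF hf
  rw [← hFd] at hF hb ⊢
  have hF1 : 1 ≤ F := by linarith
  have hF0 : 0 < F := by linarith
  have hNP : 0 < N ^ P := by positivity
  have hG0 : 0 < F / N ^ P := by positivity
  have hGp : 0 < (F / N ^ P) ^ p := Real.rpow_pos_of_pos hG0 _
  have hmain : ‖∑ n ∈ Finset.Icc ⌈N⌉₊ ⌊N'⌋₊, ex (f (n : ℝ))‖ ≤ (K + 2) * (N * (F / N ^ P) ^ p) := by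
    rcases le_or_gt (F / N ^ P) 1 with hG | hG
    · calc ‖∑ n ∈ Finset.Icc ⌈N⌉₊ ⌊N'⌋₊, ex (f (n : ℝ))‖ ≤ K * (N * (F / N ^ P) ^ (1 / ((2 : ℝ) ^ P - 2))) := hb
        _ ≤ K * (N * (F / N ^ P) ^ p) := by
            have h5 := Real.rpow_le_rpow_of_exponent_ge hG0 hG hpa
            exact mul_le_mul_of_nonneg_left (mul_le_mul_of_nonneg_left h5 hN0.le) hK.le
        _ ≤ (K + 2) * (N * (F / N ^ P) ^ p) := by
            gcongr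
            linarith
    · have h1 : 1 ≤ (F / N ^ P) ^ p := Real.one_le_rpow hG.le hp
      calc ‖∑ n ∈ Finset.Icc ⌈N⌉₊ ⌊N'⌋₊, ex (f (n : ℝ))‖ ≤ 2 * N := Pak_count hN hN2 f
        _ = 2 * (N * 1) := by ring
        _ ≤ 2 * (N * (F / N ^ P) ^ p) := by gcongr
        _ ≤ (K + 2) * (N * (F / N ^ P) ^ p) := by
            gcongr
            linarith
  have hpow : N * (F / N ^ P) ^ p ≤ F ^ p * N ^ (q - p + 1 / 2) := by
    have h1 : (F / N ^ P) ^ p = F ^ p * N ^ (-((P : ℝ) * p)) := by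
      rw [Real.div_rpow hF0.le hNP.le, ← Real.rpow_natCast N P, ← Real.rpow_mul hN0.le, Real.rpow_neg hN0.le,
        div_eq_mul_inv]
    have h2 : N * N ^ (-((P : ℝ) * p)) = N ^ (1 + -((P : ℝ) * p)) := by
      rw [Real.rpow_add hN0, Real.rpow_one]
    have h3 : N ^ (1 + -((P : ℝ) * p)) ≤ N ^ (q - p + 1 / 2) :=
      Real.rpow_le_rpow_of_exponent_le hN1 (by linarith)
    have hFp : 0 < F ^ p := Real.rpow_pos_of_pos hF0 _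
    calc N * (F / N ^ P) ^ p = F ^ p * (N * N ^ (-((P : ℝ) * p))) := by rw [h1]; ring
      _ = F ^ p * N ^ (1 + -((P : ℝ) * p)) := by rw [h2]
      _ ≤ F ^ p * N ^ (q - p + 1 / 2) := by gcongr
  have hε1 : 1 ≤ F ^ ε := Real.one_le_rpow hF1 hε.le
  have hX : 0 ≤ F ^ p * N ^ (q - p + 1 / 2) := by positivity
  calc ‖∑ n ∈ Finset.Icc ⌈N⌉₊ ⌊N'⌋₊, ex (f (n : ℝ))‖ ≤ (K + 2) * (N * (F / N ^ P) ^ p) := hmain
    _ ≤ (K + 2) * (F ^ p * N ^ (q - p + 1 / 2)) := by gcongr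
    _ = (K + 2) * F ^ p * N ^ (q - p + 1 / 2) * 1 := by ring
    _ ≤ (K + 2) * F ^ p * N ^ (q - p + 1 / 2) * F ^ ε := by gcongr

end FD39
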