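import Pool.Agent.H39.FD.Defs

/-!
ROW Szl (project MP_493793_FD, about 90 lines): the size and exponent pairs.

PROOF. `min a b ≤ a ^ θ * b ^ (1 - θ)` for `a, b > 0`, `0 ≤ θ ≤ 1`. Write everything as powers `F ^ s * N ^ t`. Case `p ≥ 1 / 2`: `size ≤ √F = F ^ (1 / 2) ≤ F ^ p * N ^ (1 / 2 - p) * N ^ q` (`(F / N) ^ (p - 1 / 2) ≥ 1`, `N ^ q ≥ 1`). Case `1 / (2 P) ≤ p ≤ 1 / 2`: with `θ ∈ [0, 1]` given by `p = θ / 2 + (1 - θ) / (2 P)`, that is `1 - θ = (1 / 2 - p) * 2 P / (P - 1)`: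
`size ≤ (√F) ^ θ * (√N F ^ (1 / (2 P))) ^ (1 - θ) = F ^ p * N ^ ((1 - θ) / 2)` and `(1 - θ) / 2 ≤ q - p + 1 / 2`, because `q ≥ (1 / 2 - p) / (P - 1) = (1 - θ) / (2 P)` (from `h1`) and `1 / 2 - p = (1 - θ) / 2 - (1 - θ) / (2 P)`. Case `0 ≤ p ≤ 1 / (2 P)`: with `θ = 2 P p ∈ [0, 1]`:
`size ≤ (√N F ^ (1 / (2 P))) ^ θ * N ^ (1 - θ) = F ^ p * N ^ (1 - θ / 2)`, and `1 - P p ≤ q - p + 1 / 2` is `h2`. (`N ≥ 1`: `Real.rpow_le_rpow_of_exponent_le`.)
-/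

/-!
ROW Szl (project MP_493793_FD, about 90 lines): the size and exponent pairs.

PROOF. `min a b ≤ a ^ θ * b ^ (1 - θ)` for `a, b > 0`, `0 ≤ θ ≤ 1`. Write everything as powers `F ^ s * N ^ t`. Case `p ≥ 1 / 2`: `size ≤ √F = F ^ (1 / 2) ≤ F ^ p * N ^ (1 / 2 - p) * N ^ q` (`(F / N) ^ (p - 1 / 2) ≥ 1`, `N ^ q ≥ 1`). Case `1 / (2 P) ≤ p ≤ 1 / 2`: with `θ ∈ [0, 1]` given by `p = θ / 2 + (1 - θ) / (2 P)`, that is `1 - θ = (1 / 2 - p) * 2 P / (P - 1)`: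
`size ≤ (√F) ^ θ * (√N F ^ (1 / (2 P))) ^ (1 - θ) = F ^ p * N ^ ((1 - θ) / 2)` and `(1 - θ) / 2 ≤ q - p + 1 / 2`, because `q ≥ (1 / 2 - p) / (P - 1) = (1 - θ) / (2 P)` (from `h1`) and `1 / 2 - p = (1 - θ) / 2 - (1 - θ) / (2 P)`. Case `0 ≤ p ≤ 1 / (2 P)`: with `θ = 2 P p ∈ [0, 1]`:
`size ≤ (√N F ^ (1 / (2 P))) ^ θ * N ^ (1 - θ) = F ^ p * N ^ (1 - θ / 2)`, and `1 - P p ≤ q - p + 1 / 2` is `h2`. (`N ≥ 1`: `Real.rpow_le_rpow_of_exponent_le`.)
-/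

set_option autoImplicit false

namespace FD39

open Finset

private theorem Szl_log {P n f p q : ℝ} (hP : 2 ≤ P) (hn : 0 ≤ n) (hf : n ≤ f) (hp : 0 ≤ p)
    (hq : 0 ≤ q) (h1 : 1 / 2 ≤ p + (P - 1) * q) (h2 : 1 / 2 ≤ (P - 1) * p + q) :
    f / 2 ≤ f * p + n * (q - p + 1 / 2) ∨
      n / 2 + f * (1 / (2 * P)) ≤ f * p + n * (q - p + 1 / 2) ∨
      n ≤ f * p + n * (q - p + 1 / 2) := by
  by_contra hcon
  push Not at hcon
  obtain ⟨a1, a2, a3⟩ := hcon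
  have hP0 : 0 < P := by linarith
  obtain ⟨g, hg⟩ : ∃ g, g = f * (1 / (2 * P)) := ⟨_, rfl⟩
  have hg2 : 2 * P * g = f := by
    rw [hg]
    field_simp
  rw [← hg] at a2
  rcases le_total (1 / 2) p with hp2 | hp2
  · nlinarith [mul_nonneg (sub_nonneg.2 hp2) (sub_nonneg.2 hf), mul_nonneg hq hn]
  · rcases le_total (1 / (2 * P)) p with hp3 | hp3
    · have hp4 : 0 ≤ 2 * P * p - 1 := by
        rw [div_le_iff₀ (by positivity)] at hp3
        linarith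
      have hp5 : 0 ≤ P * (1 - 2 * p) := mul_nonneg hP0.le (by linarith)
      have b1 := mul_le_mul_of_nonneg_left a1.le hp4
      have b2 := mul_le_mul_of_nonneg_left a2.le hp5
      have b3 : 0 ≤ n * (p + (P - 1) * q - 1 / 2) := mul_nonneg hn (by linarith)
      -- one of the two weights is positive
      rcases hp4.eq_or_lt with hz | hz
      · have hz1 : 0 < P * (1 - 2 * p) := by nlinarith
        have b4 := mul_lt_mul_of_pos_left a2 hz1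
        nlinarith
      · have b4 := mul_lt_mul_of_pos_left a1 hz
        nlinarith
    · have hp4 : 0 ≤ 1 - 2 * P * p := by
        rw [le_div_iff₀ (by positivity)] at hp3
        linarith
      have hp5 : 0 ≤ 2 * P * p := by positivity
      have b1 := mul_le_mul_of_nonneg_left a2.le hp5
      have b2 := mul_le_mul_of_nonneg_left a3.le hp4
      have b3 : 0 ≤ n * ((P - 1) * p + q - 1 / 2) := mul_nonneg hn (by linarith)
      rcases hp4.eq_or_lt with hz | hz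
      · have hz1 : 0 < 2 * P * p := by linarith
        have b4 := mul_lt_mul_of_pos_left a2 hz1
        nlinarith
      · have b4 := mul_lt_mul_of_pos_left a3 hz
        nlinarith

theorem size_le_pair {P : ℕ} (hP : 2 ≤ P) {N F p q : ℝ} (hN : 1 ≤ N) (hF : N ≤ F) (hp : 0 ≤ p)
    (hq : 0 ≤ q) (h1 : 1 / 2 ≤ p + (P - 1) * q) (h2 : 1 / 2 ≤ (P - 1) * p + q) :
    size P N F ≤ F ^ p * N ^ (q - p + 1 / 2) := by
  have hN0 : 0 < N := by linarith
  have hF0 : 0 < F := by linarith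
  have hP' : (2 : ℝ) ≤ P := by exact_mod_cast hP
  obtain ⟨n, hn⟩ : ∃ n, n = Real.log N := ⟨_, rfl⟩
  obtain ⟨f, hf⟩ : ∃ f, f = Real.log F := ⟨_, rfl⟩
  have hn0 : 0 ≤ n := by
    rw [hn]
    exact Real.log_nonneg hN
  have hnf : n ≤ f := by
    rw [hn, hf]
    exact Real.log_le_log hN0 hF
  have e1 : √F = Real.exp (f / 2) := by
    rw [Real.exp_half, hf, Real.exp_log hF0]
  have e1' : √N = Real.exp (n / 2) := by
    rw [Real.exp_half, hn, Real.exp_log hN0]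
  have e2 : F ^ (1 / (2 * (P : ℝ))) = Real.exp (f * (1 / (2 * (P : ℝ)))) := by
    rw [Real.rpow_def_of_pos hF0, hf]
  have e3 : N = Real.exp n := by rw [hn, Real.exp_log hN0]
  have eX : F ^ p * N ^ (q - p + 1 / 2) = Real.exp (f * p + n * (q - p + 1 / 2)) := by
    rw [Real.rpow_def_of_pos hF0, Real.rpow_def_of_pos hN0, Real.exp_add, hf, hn]
  rw [eX]
  unfold size
  rcases Szl_log hP' hn0 hnf hp hq h1 h2 with h | h | h
  · refine ((min_le_left _ _).trans (min_le_left _ _)).trans ?_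
    rw [e1]
    exact Real.exp_le_exp.2 h
  · refine ((min_le_left _ _).trans (min_le_right _ _)).trans ?_
    rw [e1', e2, ← Real.exp_add]
    exact Real.exp_le_exp.2 h
  · refine (min_le_right _ _).trans ?_
    conv_lhs => rw [e3]
    exact Real.exp_le_exp.2 h

end FD39
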