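import Pool.Agent.H39.FD.Defs
import Pool.Agent.H39.FD.Sec
import Pool.Agent.H39.FD.Vdc

/-!
ROW Thi (project MP_493793_FD, about 110 lines): the third derivative test for sequences.

PROOF. Let `x = lam ^ (-1 / 3 : ℝ) ≥ 1`. If `L < x`: `‖..‖ ≤ L = √L √L ≤ √L * lam ^ (-1 / 6)`. Otherwise `H = ⌈x⌉₊` satisfies `1 ≤ H ≤ L` and `x ≤ H ≤ 2 x`. `vdc` (file Vdc) with `a n = ex (u n)`; `ex (u (n + r)) * conj (ex (u n)) = ex (u (n + r) - u n)` (`ex_sub`). For `1 ≤ r < H` the sequence `v n = u (n + r) - u n`, `n < L - r`, has second differences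
`∑_{i < r} (u (n + i + 3) - 3 u (n + i + 2) + 3 u (n + i + 1) - u (n + i)) ∈ [r lam, C r lam]` (telescoping, `Finset.sum_range_sub`), and `r lam ≤ x lam ≤ 1` (`r < H` gives `r ≤ x`), so `second_test` (file Sec): `≤ 9 C (L √(r lam) + 1 / √(r lam)) ≤ 9 C (L √(H lam) + 1 / (√r √lam))`.
`∑_{1 ≤ r < H} 1 / √r ≤ 2 √H` (induction). So `‖S‖ ^ 2 ≤ 2 L ^ 2 / H + (4 L / H) * 9 C * (H L √(H lam) + 2 √H / √lam) = 2 L ^ 2 / H + 36 C L ^ 2 √(H lam) + 72 C L / √(H lam)`. With `z = lam ^ (1 / 6)`: `lam = z ^ 6`, `x = 1 / z ^ 2`: `1 / H ≤ z ^ 2`, `√(H lam) ≤ √2 z ^ 2 ≤ 1.5 z ^ 2`, `1 / √(H lam) ≤ 1 / z ^ 2`.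
Total `≤ (2 + 54 C) L ^ 2 z ^ 2 + 72 C L / z ^ 2 ≤ 72 C (L ^ 2 z ^ 2 + L / z ^ 2) ≤ 72 C (L z + √L / z) ^ 2`, and `√(72 C) ≤ 9 C` (`C ≥ 1`).
-/

set_option autoImplicit false

namespace FD39

open Finset

/-- telescoping for second differences -/
lemma Thi_tel (u : ℕ → ℝ) (n r : ℕ) :
    (u (n + r + 2) - 2 * u (n + r + 1) + u (n + r)) - (u (n + 2) - 2 * u (n + 1) + u n) =
      ∑ i ∈ range r,
        (u (n + i + 3) - 3 * u (n + i + 2) + 3 * u (n + i + 1) - u (n + i)) := by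
  induction r with
  | zero => simp
  | succ r ih =>
    rw [sum_range_succ, ← ih]
    rw [show n + (r + 1) + 2 = n + r + 3 by ring, show n + (r + 1) + 1 = n + r + 2 by ring,
      show n + (r + 1) = n + r + 1 by ring]
    ring

lemma Thi_sqrt_sum' (H : ℕ) : ∑ r ∈ Ico 1 (H + 1), 1 / √(r : ℝ) ≤ 2 * √(H : ℝ) := by
  induction H with
  | zero => simp
  | succ H ih =>
    rw [sum_Ico_succ_top (by omega)]
    have h0 : (0 : ℝ) ≤ (H : ℝ) := Nat.cast_nonneg H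
    have hs : (0 : ℝ) < √((H + 1 : ℕ) : ℝ) := by
      apply Real.sqrt_pos.2
      positivity
    have ht : (0 : ℝ) ≤ √(H : ℝ) := Real.sqrt_nonneg _
    have hs2 : √((H + 1 : ℕ) : ℝ) ^ 2 = (H : ℝ) + 1 := by
      rw [Real.sq_sqrt (by positivity)]
      push_cast
      ring
    have ht2 : √(H : ℝ) ^ 2 = (H : ℝ) := Real.sq_sqrt h0
    have h1 : 1 / √((H + 1 : ℕ) : ℝ) ≤ 2 * √((H + 1 : ℕ) : ℝ) - 2 * √(H : ℝ) := by
      rw [div_le_iff₀ hs]
      nlinarith [sq_nonneg (√((H + 1 : ℕ) : ℝ) - √(H : ℝ))]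
    linarith

lemma Thi_sqrt_sum (H : ℕ) : ∑ r ∈ Ico 1 H, 1 / √(r : ℝ) ≤ 2 * √(H : ℝ) := by
  rcases H with _ | H
  · simp
  · refine (Thi_sqrt_sum' H).trans ?_
    have : √(H : ℝ) ≤ √((H + 1 : ℕ) : ℝ) := by
      apply Real.sqrt_le_sqrt
      push_cast
      linarith
    linarith

/-- the correlation of shift `r` -/
lemma Thi_corr (u : ℕ → ℝ) (L : ℕ) {lam C : ℝ} (hlam : 0 < lam) (hC : 1 ≤ C)
    (hd : ∀ n, n + 3 < L → lam ≤ u (n + 3) - 3 * u (n + 2) + 3 * u (n + 1) - u n ∧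
      u (n + 3) - 3 * u (n + 2) + 3 * u (n + 1) - u n ≤ C * lam) (r : ℕ) (hr : 1 ≤ r)
    (hr1 : (r : ℝ) * lam ≤ 1) :
    ‖∑ n ∈ range (L - r), ex (u (n + r)) * (starRingEnd ℂ) (ex (u n))‖ ≤
      9 * C * (L * √(r * lam) + 1 / √(r * lam)) := by
  have hr0 : (0 : ℝ) < (r : ℝ) := by exact_mod_cast hr
  have h1 : ∑ n ∈ range (L - r), ex (u (n + r)) * (starRingEnd ℂ) (ex (u n)) =
      ∑ n ∈ range (L - r), ex ((fun m => u (m + r) - u m) n) := by
    refine sum_congr rfl fun n _ => ?_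
    rw [← ex_sub]
  rw [h1]
  have h2 := second_test (fun m => u (m + r) - u m) (L - r) (lam := r * lam) (C := C)
    (by positivity) hr1 hC (by
      intro n hn
      have htel : (u (n + 2 + r) - u (n + 2)) - 2 * (u (n + 1 + r) - u (n + 1)) +
          (u (n + r) - u n) =
          ∑ i ∈ range r,
            (u (n + i + 3) - 3 * u (n + i + 2) + 3 * u (n + i + 1) - u (n + i)) := by
        rw [← Thi_tel, show n + 2 + r = n + r + 2 by ring, show n + 1 + r = n + r + 1 by ring]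
        ring
      have hb : ∀ i ∈ range r,
          lam ≤ u (n + i + 3) - 3 * u (n + i + 2) + 3 * u (n + i + 1) - u (n + i) ∧
          u (n + i + 3) - 3 * u (n + i + 2) + 3 * u (n + i + 1) - u (n + i) ≤ C * lam := by
        intro i hi
        have hi' := mem_range.1 hi
        exact hd (n + i) (by omega)
      rw [htel]
      constructor
      · calc (r : ℝ) * lam = ∑ _i ∈ range r, lam := by simp
          _ ≤ _ := sum_le_sum fun i hi => (hb i hi).1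
      · calc _ ≤ ∑ _i ∈ range r, C * lam := sum_le_sum fun i hi => (hb i hi).2
          _ = C * (r * lam) := by simp; ring)
  refine h2.trans ?_
  have h3 : ((L - r : ℕ) : ℝ) ≤ (L : ℝ) := by
    exact_mod_cast Nat.sub_le L r
  have h4 : (0 : ℝ) ≤ √(r * lam) := Real.sqrt_nonneg _
  have h5 : ((L - r : ℕ) : ℝ) * √(r * lam) ≤ L * √(r * lam) :=
    mul_le_mul_of_nonneg_right h3 h4
  have h6 : (0 : ℝ) ≤ 9 * C := by linarith
  exact mul_le_mul_of_nonneg_left (by linarith) h6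

theorem third_test (u : ℕ → ℝ) (L : ℕ) {lam C : ℝ} (hlam : 0 < lam) (hlam1 : lam ≤ 1) (hC : 1 ≤ C)
    (hd : ∀ n, n + 3 < L → lam ≤ u (n + 3) - 3 * u (n + 2) + 3 * u (n + 1) - u n ∧
      u (n + 3) - 3 * u (n + 2) + 3 * u (n + 1) - u n ≤ C * lam) :
    ‖∑ n ∈ range L, ex (u n)‖ ≤ 9 * C * (L * lam ^ (1 / 6 : ℝ) + √L * lam ^ (-(1 / 6) : ℝ)) := by
  set z : ℝ := lam ^ (1 / 6 : ℝ) with hz
  have hz0 : 0 < z := Real.rpow_pos_of_pos hlam _
  have hz1 : z ≤ 1 := Real.rpow_le_one hlam.le hlam1 (by norm_num)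
  have hzinv : lam ^ (-(1 / 6) : ℝ) = 1 / z := by
    rw [Real.rpow_neg hlam.le, one_div z]
  have hlz : lam = z ^ 6 := by
    rw [hz, ← Real.rpow_natCast, ← Real.rpow_mul hlam.le]
    norm_num
  rw [hzinv]
  have hLn : (0 : ℝ) ≤ (L : ℝ) := Nat.cast_nonneg L
  have hsL : (0 : ℝ) ≤ √(L : ℝ) := Real.sqrt_nonneg _
  have hsL2 : √(L : ℝ) * √(L : ℝ) = L := Real.mul_self_sqrt hLn
  set x : ℝ := 1 / z ^ 2 with hx
  have hx1 : 1 ≤ x := by
    rw [hx, le_div_iff₀ (by positivity)]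
    nlinarith
  have hxz : x * z ^ 2 = 1 := by
    rw [hx]
    field_simp
  rcases lt_or_ge (L : ℝ) x with hLx | hLx
  · -- the short case
    have h1 : ‖∑ n ∈ range L, ex (u n)‖ ≤ L := by
      refine (norm_sum_le _ _).trans ?_
      simp [norm_ex]
    have h2 : √(L : ℝ) ≤ 1 / z := by
      have : √(L : ℝ) ≤ √x := Real.sqrt_le_sqrt hLx.le
      refine this.trans ?_
      rw [hx, Real.sqrt_div (by norm_num), Real.sqrt_one, Real.sqrt_sq hz0.le]
    have h3 : (L : ℝ) ≤ √L * (1 / z) := by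
      calc (L : ℝ) = √L * √L := hsL2.symm
        _ ≤ √L * (1 / z) := mul_le_mul_of_nonneg_left h2 hsL
    have h4 : 0 ≤ (L : ℝ) * z := by positivity
    have h5 : 0 ≤ √(L : ℝ) * (1 / z) := by positivity
    have h6 : (L : ℝ) * z + √(L : ℝ) * (1 / z) ≤ 9 * C * (L * z + √(L : ℝ) * (1 / z)) :=
      le_mul_of_one_le_left (by linarith) (by linarith)
    linarith
  · -- the long case
    set H : ℕ := ⌈x⌉₊ with hH
    have hxH : x ≤ H := Nat.le_ceil x
    have hH1 : 1 ≤ H := by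
      have : (1 : ℝ) ≤ H := hx1.trans hxH
      exact_mod_cast this
    have hHx : (H : ℝ) ≤ 2 * x := by
      have := Nat.ceil_lt_add_one (a := x) (by linarith)
      have h' : (H : ℝ) < x + 1 := this
      linarith
    have hHL : H ≤ L := Nat.ceil_le.2 hLx
    have hH0 : (0 : ℝ) < H := by linarith
    have hL0 : (0 : ℝ) < L := by linarith
    have hv := vdc (fun n => ex (u n)) (fun n => norm_ex _) hH1 hHL
    have hsum : ∑ r ∈ Ico 1 H, ‖∑ n ∈ range (L - r), ex (u (n + r)) * (starRingEnd ℂ) (ex (u n))‖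
        ≤ 9 * C * (H * (L * √(H * lam)) + 2 * √(H : ℝ) * (1 / √lam)) := by
      have hterm : ∀ r ∈ Ico 1 H,
          ‖∑ n ∈ range (L - r), ex (u (n + r)) * (starRingEnd ℂ) (ex (u n))‖ ≤
            9 * C * (L * √(H * lam) + 1 / √(r : ℝ) * (1 / √lam)) := by
        intro r hr
        obtain ⟨hr1, hrH⟩ := mem_Ico.1 hr
        have hrx : (r : ℝ) < x := Nat.lt_ceil.1 hrH
        have hr0 : (0 : ℝ) < r := by exact_mod_cast hr1
        have hrl : (r : ℝ) * lam ≤ 1 := by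
          have h1 : (r : ℝ) * lam ≤ x * lam := mul_le_mul_of_nonneg_right hrx.le hlam.le
          have h2 : x * lam = z ^ 4 := by
            rw [hlz, show z ^ 6 = z ^ 2 * z ^ 4 by ring, ← mul_assoc, hxz, one_mul]
          have h3 : z ^ 4 ≤ 1 := pow_le_one₀ hz0.le hz1
          linarith
        refine (Thi_corr u L hlam hC hd r hr1 hrl).trans ?_
        have h6 : (0 : ℝ) ≤ 9 * C := by linarith
        refine mul_le_mul_of_nonneg_left ?_ h6
        have hrH' : (r : ℝ) ≤ H := by exact_mod_cast hrH.le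
        have h7 : √(r * lam) ≤ √(H * lam) :=
          Real.sqrt_le_sqrt (mul_le_mul_of_nonneg_right hrH' hlam.le)
        have h8 : 1 / √(r * lam) = 1 / √(r : ℝ) * (1 / √lam) := by
          rw [Real.sqrt_mul hr0.le, one_div_mul_one_div]
        rw [h8]
        have := mul_le_mul_of_nonneg_left h7 hLn
        linarith
      refine (sum_le_sum hterm).trans ?_
      rw [← mul_sum, sum_add_distrib]
      have h6 : (0 : ℝ) ≤ 9 * C := by linarith
      refine mul_le_mul_of_nonneg_left ?_ h6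
      have h9 : ∑ _r ∈ Ico 1 H, (L : ℝ) * √(H * lam) ≤ H * (L * √(H * lam)) := by
        rw [sum_const, Nat.card_Ico, nsmul_eq_mul]
        refine mul_le_mul_of_nonneg_right ?_ (by positivity)
        exact_mod_cast Nat.sub_le H 1
      have h10 : (∑ r ∈ Ico 1 H, 1 / √(r : ℝ)) * (1 / √lam) ≤ 2 * √(H : ℝ) * (1 / √lam) :=
        mul_le_mul_of_nonneg_right (Thi_sqrt_sum H) (by positivity)
      rw [sum_mul] at h10
      linarith
    -- bounds for `√(H lam)`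
    have hHl : √(H * lam) ≤ 3 / 2 * z ^ 2 := by
      rw [show (3 / 2 * z ^ 2 : ℝ) = √((3 / 2 * z ^ 2) ^ 2) from
        (Real.sqrt_sq (by positivity)).symm]
      apply Real.sqrt_le_sqrt
      have h1 : (H : ℝ) * lam ≤ 2 * x * lam := mul_le_mul_of_nonneg_right hHx hlam.le
      have h2 : 2 * x * lam = 2 * z ^ 4 := by
        rw [hlz, show 2 * x * z ^ 6 = 2 * (x * z ^ 2) * z ^ 4 by ring, hxz]
        ring
      have h3 : 0 ≤ z ^ 4 := by positivity
      nlinarith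
    have hHl' : z ^ 2 ≤ √(H * lam) := by
      rw [show (z ^ 2 : ℝ) = √((z ^ 2) ^ 2) from (Real.sqrt_sq (by positivity)).symm]
      apply Real.sqrt_le_sqrt
      have h1 : x * lam ≤ H * lam := mul_le_mul_of_nonneg_right hxH hlam.le
      have h2 : x * lam = z ^ 4 := by
        rw [hlz, show z ^ 6 = z ^ 2 * z ^ 4 by ring, ← mul_assoc, hxz, one_mul]
      nlinarith
    have hHinv : 1 / (H : ℝ) ≤ z ^ 2 := by
      rw [div_le_iff₀ hH0]
      have := mul_le_mul_of_nonneg_left hxH (by positivity : (0 : ℝ) ≤ z ^ 2)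
      nlinarith
    have hsq : √(H * lam) = √(H : ℝ) * √lam := Real.sqrt_mul hH0.le _
    have hsH : 0 < √(H : ℝ) := Real.sqrt_pos.2 hH0
    have hslam : 0 < √lam := Real.sqrt_pos.2 hlam
    have hfin1 : (‖∑ n ∈ range L, ex (u n)‖ ^ 2 : ℝ) ≤
        2 * (L : ℝ) ^ 2 / H + 4 * L / H *
          (9 * C * (H * (L * √(H * lam)) + 2 * √(H : ℝ) * (1 / √lam))) := by
      refine hv.trans ?_
      have : 0 ≤ 4 * (L : ℝ) / H := by positivity
      have := mul_le_mul_of_nonneg_left hsum this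
      linarith
    have hid : 2 * (L : ℝ) ^ 2 / H + 4 * L / H *
          (9 * C * (H * (L * √(H * lam)) + 2 * √(H : ℝ) * (1 / √lam))) =
        2 * (L : ℝ) ^ 2 * (1 / H) + 36 * C * (L : ℝ) ^ 2 * √(H * lam) +
          72 * C * L * (1 / √(H * lam)) := by
      rw [hsq]
      have hHH : (H : ℝ) = √(H : ℝ) * √(H : ℝ) := (Real.mul_self_sqrt hH0.le).symm
      generalize √(H : ℝ) = s at *
      rw [hHH]
      field_simp
      ring
    rw [hid] at hfin1
    have hC0 : 0 < C := by linarith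
    have e1 : 2 * (L : ℝ) ^ 2 * (1 / H) ≤ 2 * (L : ℝ) ^ 2 * z ^ 2 :=
      mul_le_mul_of_nonneg_left hHinv (by positivity)
    have e2 : 36 * C * (L : ℝ) ^ 2 * √(H * lam) ≤ 36 * C * (L : ℝ) ^ 2 * (3 / 2 * z ^ 2) :=
      mul_le_mul_of_nonneg_left hHl (by positivity)
    have e3 : 72 * C * L * (1 / √(H * lam)) ≤ 72 * C * L * (1 / z ^ 2) :=
      mul_le_mul_of_nonneg_left (one_div_le_one_div_of_le (by positivity) hHl') (by positivity)
    have hrhs0 : 0 ≤ 9 * C * ((L : ℝ) * z + √(L : ℝ) * (1 / z)) := by positivity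
    refine abs_le_of_sq_le_sq' ?_ hrhs0 |>.2
    have e4 : (9 * C * ((L : ℝ) * z + √(L : ℝ) * (1 / z))) ^ 2 =
        81 * C ^ 2 * ((L : ℝ) ^ 2 * z ^ 2 + 2 * (L * √(L : ℝ)) + L * (1 / z ^ 2)) := by
      have : √(L : ℝ) ^ 2 = L := Real.sq_sqrt hLn
      have hz' : z ≠ 0 := hz0.ne'
      calc (9 * C * ((L : ℝ) * z + √(L : ℝ) * (1 / z))) ^ 2 =
          81 * C ^ 2 * ((L : ℝ) ^ 2 * z ^ 2 + 2 * (L * √(L : ℝ)) * (z * (1 / z)) +
            √(L : ℝ) ^ 2 * (1 / z ^ 2)) := by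
            field_simp
            ring
        _ = _ := by
            rw [this, mul_one_div_cancel hz', mul_one]
    rw [e4]
    have hA : 0 ≤ (L : ℝ) ^ 2 * z ^ 2 := by positivity
    have hB : 0 ≤ (L : ℝ) * (1 / z ^ 2) := by positivity
    have hD : 0 ≤ (L : ℝ) * √(L : ℝ) := by positivity
    have hCC : C ≤ C ^ 2 := by nlinarith
    have k1 : 2 * (L : ℝ) ^ 2 * z ^ 2 + 36 * C * (L : ℝ) ^ 2 * (3 / 2 * z ^ 2) +
        72 * C * L * (1 / z ^ 2) ≤ 72 * C * ((L : ℝ) ^ 2 * z ^ 2 + L * (1 / z ^ 2)) := by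
      have := mul_nonneg (by linarith : (0 : ℝ) ≤ 18 * C - 2) hA
      linarith
    have k2 : 72 * C * ((L : ℝ) ^ 2 * z ^ 2 + L * (1 / z ^ 2)) ≤
        81 * C ^ 2 * ((L : ℝ) ^ 2 * z ^ 2 + L * (1 / z ^ 2)) :=
      mul_le_mul_of_nonneg_right (by nlinarith) (by positivity)
    have k3 : 81 * C ^ 2 * ((L : ℝ) ^ 2 * z ^ 2 + L * (1 / z ^ 2)) ≤
        81 * C ^ 2 * ((L : ℝ) ^ 2 * z ^ 2 + 2 * (L * √(L : ℝ)) + L * (1 / z ^ 2)) :=
      mul_le_mul_of_nonneg_left (by linarith) (by positivity)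
    linarith

end FD39
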