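import Pool.Agent.H39.FD.Defs
import Pool.Agent.H39.FD.Thi
import Pool.Agent.H39.FD.Dif

/-!
ROW Up3 (project MP_493793_FD, about 110 lines): upper bound from three derivatives.

PROOF. Same as row Up2 (read its header; do not import it) with the condition of the class for `j = 2` (`rising σ 2 = σ (σ + 1)`), `D3 f = iteratedDerivWithin 3 f ..`: `(1 - c) σ (σ + 1) y x ^ (-σ - 2) ≤ D3 f ≤ (1 + c) σ (σ + 1) y x ^ (-σ - 2)`. `A = (1 - c) σ (σ + 1) 2 ^ (-σ - 2)`, `C = (1 + c) / (1 - c) * 2 ^ (σ + 2) ≥ 1`, `lam = A F / N ^ 3`: `lam ≤ D3 f ≤ C lam` on `[N, 2 N]` (`y N ^ (-σ - 2) = F / N ^ 3`).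
`third_diff` (file Dif), `third_test` (file Thi) for `u n = f (n0 + n)`, `L ≤ 2 N`. If `lam ≤ 1`: norm `≤ 9 C (2 N lam ^ (1 / 6) + √(2 N) lam ^ (-1 / 6))`, and `N lam ^ (1 / 6) = A ^ (1 / 6) √N F ^ (1 / 6)`, `√N lam ^ (-1 / 6) = A ^ (-1 / 6) N F ^ (-1 / 6)` (`Real.mul_rpow`, `Real.div_rpow`, `√N = N ^ (1 / 2)`). If `lam > 1`: norm `≤ 2 N ≤ 2 N lam ^ (1 / 6)`.
`K = 2 A ^ (1 / 6) + 9 C (2 A ^ (1 / 6) + 2 A ^ (-1 / 6))`.
-/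

set_option autoImplicit false

namespace FD39

open Finset

/-- the bounds of the third derivative -/
private lemma Up3_bounds {σ c N y x D : ℝ} (hσ : 0 < σ) (hc1 : c < 1) (hcp : 0 < c) (hN : 0 < N)
    (hy : 0 < y) (hx1 : N ≤ x) (hx2 : x ≤ 2 * N)
    (h : |D - σ * (σ + 1) * y * x ^ (-σ - 2)| < c * (σ * (σ + 1) * y * x ^ (-σ - 2))) :
    (1 - c) * (σ * (σ + 1)) * (2 : ℝ) ^ (-σ - 2) * (y * N ^ (1 - σ)) / N ^ 3 ≤ D ∧
      D ≤ (1 + c) / (1 - c) * (2 : ℝ) ^ (σ + 2) *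
        ((1 - c) * (σ * (σ + 1)) * (2 : ℝ) ^ (-σ - 2) * (y * N ^ (1 - σ)) / N ^ 3) := by
  have hx : 0 < x := hN.trans_le hx1
  have hR : 0 < σ * (σ + 1) := by positivity
  have hc' : 0 < 1 - c := by linarith
  obtain ⟨h1, h2⟩ := abs_lt.1 h
  have hup : x ^ (-σ - 2) ≤ N ^ (-σ - 2) :=
    Real.rpow_le_rpow_of_nonpos hN hx1 (by linarith)
  have hlo : (2 * N) ^ (-σ - 2) ≤ x ^ (-σ - 2) :=
    Real.rpow_le_rpow_of_nonpos hx hx2 (by linarith)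
  have hmul : (2 * N) ^ (-σ - 2) = (2 : ℝ) ^ (-σ - 2) * N ^ (-σ - 2) :=
    Real.mul_rpow (by norm_num) hN.le
  have hsplit : N ^ (-σ - 2) = N ^ (1 - σ) / N ^ 3 := by
    rw [show (-σ - 2 : ℝ) = (1 - σ) - (3 : ℕ) by push_cast; ring, Real.rpow_sub_natCast hN.ne']
  have h2p : (2 : ℝ) ^ (σ + 2) * (2 : ℝ) ^ (-σ - 2) = 1 := by
    rw [← Real.rpow_add (by norm_num), show (σ + 2 + (-σ - 2) : ℝ) = 0 by ring, Real.rpow_zero]
  have hRy : 0 < σ * (σ + 1) * y := by positivity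
  constructor
  · have e1 : (1 - c) * (σ * (σ + 1)) * (2 : ℝ) ^ (-σ - 2) * (y * N ^ (1 - σ)) / N ^ 3 =
        (1 - c) * (σ * (σ + 1) * y * (2 * N) ^ (-σ - 2)) := by
      rw [hmul, hsplit]; ring
    rw [e1]
    have e2 : (1 - c) * (σ * (σ + 1) * y * (2 * N) ^ (-σ - 2)) ≤
        (1 - c) * (σ * (σ + 1) * y * x ^ (-σ - 2)) :=
      mul_le_mul_of_nonneg_left (mul_le_mul_of_nonneg_left hlo hRy.le) hc'.le
    linarith
  · have e1 : (1 + c) / (1 - c) * (2 : ℝ) ^ (σ + 2) *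
        ((1 - c) * (σ * (σ + 1)) * (2 : ℝ) ^ (-σ - 2) * (y * N ^ (1 - σ)) / N ^ 3) =
        (1 + c) * (σ * (σ + 1) * y * N ^ (-σ - 2)) := by
      rw [hsplit]
      have : (1 + c) / (1 - c) * (2 : ℝ) ^ (σ + 2) *
        ((1 - c) * (σ * (σ + 1)) * (2 : ℝ) ^ (-σ - 2) * (y * N ^ (1 - σ)) / N ^ 3) =
        ((1 + c) / (1 - c) * (1 - c)) * ((2 : ℝ) ^ (σ + 2) * (2 : ℝ) ^ (-σ - 2)) *
          (σ * (σ + 1) * y * (N ^ (1 - σ) / N ^ 3)) := by ring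
      rw [this, h2p, div_mul_cancel₀ _ hc'.ne']
      ring
    rw [e1]
    have e2 : (1 + c) * (σ * (σ + 1) * y * x ^ (-σ - 2)) ≤
        (1 + c) * (σ * (σ + 1) * y * N ^ (-σ - 2)) :=
      mul_le_mul_of_nonneg_left (mul_le_mul_of_nonneg_left hup hRy.le) (by linarith)
    linarith

private lemma Up3_pow1 {A F N : ℝ} (hA : 0 < A) (hF : 0 < F) (hN : 0 < N) :
    N * (A * F / N ^ 3) ^ (1 / 6 : ℝ) = A ^ (1 / 6 : ℝ) * (√N * F ^ (1 / 6 : ℝ)) := by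
  rw [Real.div_rpow (by positivity) (by positivity), Real.mul_rpow hA.le hF.le,
    ← Real.rpow_natCast N 3, ← Real.rpow_mul hN.le, Real.sqrt_eq_rpow]
  have e : N ^ (1 : ℝ) = N ^ (1 / 2 : ℝ) * N ^ (((3 : ℕ) : ℝ) * (1 / 6)) := by
    rw [← Real.rpow_add hN]
    congr 1
    norm_num
  have hp : (0 : ℝ) < N ^ (((3 : ℕ) : ℝ) * (1 / 6)) := Real.rpow_pos_of_pos hN _
  rw [Real.rpow_one] at e
  rw [mul_div_assoc', div_eq_iff hp.ne']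
  calc N * (A ^ (1 / 6 : ℝ) * F ^ (1 / 6 : ℝ))
      = (N ^ (1 / 2 : ℝ) * N ^ (((3 : ℕ) : ℝ) * (1 / 6))) * (A ^ (1 / 6 : ℝ) * F ^ (1 / 6 : ℝ)) := by
        rw [← e]
    _ = _ := by ring

private lemma Up3_pow2 {A F N : ℝ} (hA : 0 < A) (hF : 0 < F) (hN : 0 < N) :
    √N * (A * F / N ^ 3) ^ (-(1 / 6) : ℝ) = A ^ (-(1 / 6) : ℝ) * (N * F ^ (-(1 / 6) : ℝ)) := by
  rw [Real.div_rpow (by positivity) (by positivity), Real.mul_rpow hA.le hF.le,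
    ← Real.rpow_natCast N 3, ← Real.rpow_mul hN.le, Real.sqrt_eq_rpow]
  have e : N ^ (1 / 2 : ℝ) = N * N ^ (((3 : ℕ) : ℝ) * (-(1 / 6))) := by
    nth_rewrite 2 [← Real.rpow_one N]
    rw [← Real.rpow_add hN]
    congr 1
    norm_num
  have hp : (0 : ℝ) < N ^ (((3 : ℕ) : ℝ) * (-(1 / 6))) := Real.rpow_pos_of_pos hN _
  rw [mul_div_assoc', div_eq_iff hp.ne', e]
  ring

theorem upper3 {σ c : ℝ} (hσ : 0 < σ) (hc : 0 < c) (hc1 : c < 1) :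
    ∃ K : ℝ, 0 < K ∧ ∀ (P : ℕ) (N N' y : ℝ) (f : ℝ → ℝ), 3 ≤ P → 2 ≤ N → N ≤ N' → N' ≤ 2 * N →
      N ≤ y * N ^ (1 - σ) → GKClass N P σ y c f →
      ‖∑ n ∈ Icc ⌈N⌉₊ ⌊N'⌋₊, ex (f (n : ℝ))‖ ≤
        K * (√N * (y * N ^ (1 - σ)) ^ (1 / 6 : ℝ) + N * (y * N ^ (1 - σ)) ^ (-(1 / 6) : ℝ)) := by
  have hc' : 0 < 1 - c := by linarith
  set A : ℝ := (1 - c) * (σ * (σ + 1)) * (2 : ℝ) ^ (-σ - 2) with hAdef
  set C : ℝ := (1 + c) / (1 - c) * (2 : ℝ) ^ (σ + 2) with hCdef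
  have h2p : (0 : ℝ) < (2 : ℝ) ^ (-σ - 2) := Real.rpow_pos_of_pos (by norm_num) _
  have hA : 0 < A := by positivity
  have hC : 1 ≤ C := by
    have h1 : 1 ≤ (1 + c) / (1 - c) := by
      rw [le_div_iff₀ hc']; linarith
    have h2 : (1 : ℝ) ≤ (2 : ℝ) ^ (σ + 2) := Real.one_le_rpow (by norm_num) (by linarith)
    calc (1 : ℝ) = 1 * 1 := by ring
      _ ≤ C := mul_le_mul h1 h2 (by norm_num) (by linarith)
  have hC0 : 0 < C := by linarith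
  have hA1 : (0 : ℝ) < A ^ (1 / 6 : ℝ) := Real.rpow_pos_of_pos hA _
  have hA2 : (0 : ℝ) < A ^ (-(1 / 6) : ℝ) := Real.rpow_pos_of_pos hA _
  refine ⟨2 * A ^ (1 / 6 : ℝ) + 9 * C * (2 * A ^ (1 / 6 : ℝ) + 2 * A ^ (-(1 / 6) : ℝ)),
    by positivity, ?_⟩
  intro P N N' y f hP hN hNN' hN'2 hyN hf
  have hN0 : 0 < N := by linarith
  set F : ℝ := y * N ^ (1 - σ) with hFdef
  have hF : 0 < F := by linarith
  have hNp : (0 : ℝ) < N ^ (1 - σ) := Real.rpow_pos_of_pos hN0 _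
  have hy : 0 < y := by
    by_contra hneg
    have : F ≤ 0 := mul_nonpos_of_nonpos_of_nonneg (not_lt.1 hneg) hNp.le
    linarith
  set lam : ℝ := A * F / N ^ 3 with hlamdef
  have hlam : 0 < lam := by positivity
  have hD : ∀ x ∈ Set.Icc N (2 * N), lam ≤ iteratedDerivWithin 3 f (Set.Icc N (2 * N)) x ∧
      iteratedDerivWithin 3 f (Set.Icc N (2 * N)) x ≤ C * lam := by
    intro x hx
    have h1 := hf.2 2 (by omega) x hx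
    have h2 : rising σ 2 = σ * (σ + 1) := by
      unfold rising
      rw [Finset.prod_range_succ, Finset.prod_range_succ, Finset.prod_range_zero]
      push_cast
      ring
    rw [h2] at h1
    have h3 : |iteratedDerivWithin 3 f (Set.Icc N (2 * N)) x - σ * (σ + 1) * y * x ^ (-σ - 2)| <
        c * (σ * (σ + 1) * y * x ^ (-σ - 2)) := by
      have e : ((-1 : ℝ)) ^ 2 * (σ * (σ + 1)) * y * x ^ (-σ - ((2 : ℕ) : ℝ)) =
          σ * (σ + 1) * y * x ^ (-σ - 2) := by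
        push_cast
        ring
      rw [e] at h1
      exact_mod_cast h1
    exact Up3_bounds hσ hc1 hc hN0 hy hx.1 hx.2 h3
  set n0 : ℕ := ⌈N⌉₊ with hn0
  set L : ℕ := ⌊N'⌋₊ + 1 - n0 with hL
  have hn0N : N ≤ (n0 : ℝ) := Nat.le_ceil N
  have hfl : ((⌊N'⌋₊ : ℕ) : ℝ) ≤ N' := Nat.floor_le (by linarith)
  have hsum : ∑ n ∈ Icc n0 ⌊N'⌋₊, ex (f (n : ℝ)) = ∑ n ∈ range L, ex (f ((n0 + n : ℕ) : ℝ)) := by
    have e : Icc n0 ⌊N'⌋₊ = Ico n0 (⌊N'⌋₊ + 1) := by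
      ext k
      simp only [mem_Icc, mem_Ico]
      omega
    rw [e, Finset.sum_Ico_eq_sum_range]
  have hL2 : (L : ℝ) ≤ 2 * N := by
    rcases le_or_gt n0 ⌊N'⌋₊ with h | h
    · have h1 : L + n0 = ⌊N'⌋₊ + 1 := by omega
      have h2 : (L : ℝ) + n0 = (⌊N'⌋₊ : ℕ) + 1 := by exact_mod_cast h1
      linarith
    · have h1 : L = 0 := by omega
      rw [h1]
      push_cast
      linarith
  have hd : ∀ n, n + 3 < L →
      lam ≤ f ((n0 + (n + 3) : ℕ) : ℝ) - 3 * f ((n0 + (n + 2) : ℕ) : ℝ) +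
        3 * f ((n0 + (n + 1) : ℕ) : ℝ) - f ((n0 + n : ℕ) : ℝ) ∧
      f ((n0 + (n + 3) : ℕ) : ℝ) - 3 * f ((n0 + (n + 2) : ℕ) : ℝ) +
        3 * f ((n0 + (n + 1) : ℕ) : ℝ) - f ((n0 + n : ℕ) : ℝ) ≤ C * lam := by
    intro n hn
    have h1 : n0 + n + 3 ≤ ⌊N'⌋₊ := by omega
    have h2 : ((n0 + n : ℕ) : ℝ) + 3 ≤ (⌊N'⌋₊ : ℕ) := by exact_mod_cast h1
    have h3 : N ≤ ((n0 + n : ℕ) : ℝ) := by
      push_cast
      have : (0 : ℝ) ≤ (n : ℝ) := Nat.cast_nonneg n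
      linarith
    have h4 := third_diff (f := f) (a := N) (b := 2 * N) (m := lam) (M := C * lam) (by linarith)
      hf.1 hD (x := ((n0 + n : ℕ) : ℝ)) h3 (by linarith)
    have e3 : ((n0 + (n + 3) : ℕ) : ℝ) = ((n0 + n : ℕ) : ℝ) + 3 := by push_cast; ring
    have e2 : ((n0 + (n + 2) : ℕ) : ℝ) = ((n0 + n : ℕ) : ℝ) + 2 := by push_cast; ring
    have e1 : ((n0 + (n + 1) : ℕ) : ℝ) = ((n0 + n : ℕ) : ℝ) + 1 := by push_cast; ring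
    rw [e3, e2, e1]
    exact h4
  have hp1 : N * lam ^ (1 / 6 : ℝ) = A ^ (1 / 6 : ℝ) * (√N * F ^ (1 / 6 : ℝ)) :=
    Up3_pow1 hA hF hN0
  have hp2 : √N * lam ^ (-(1 / 6) : ℝ) = A ^ (-(1 / 6) : ℝ) * (N * F ^ (-(1 / 6) : ℝ)) :=
    Up3_pow2 hA hF hN0
  have hX : (0 : ℝ) ≤ √N * F ^ (1 / 6 : ℝ) := by positivity
  have hY : (0 : ℝ) ≤ N * F ^ (-(1 / 6) : ℝ) := by positivity
  rw [hsum]
  rcases le_or_gt lam 1 with hl | hl
  · have h1 := third_test (fun n => f ((n0 + n : ℕ) : ℝ)) L hlam hl hC hd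
    have hsq : √(L : ℝ) ≤ 2 * √N := by
      have h4 : √(L : ℝ) ≤ √(4 * N) := Real.sqrt_le_sqrt (by linarith)
      have h5 : √(4 * N) = 2 * √N := by
        rw [Real.sqrt_mul (by norm_num), show (4 : ℝ) = 2 ^ 2 by norm_num,
          Real.sqrt_sq (by norm_num)]
      rw [h5] at h4
      exact h4
    have hl1 : (0 : ℝ) < lam ^ (1 / 6 : ℝ) := Real.rpow_pos_of_pos hlam _
    have hl2 : (0 : ℝ) < lam ^ (-(1 / 6) : ℝ) := Real.rpow_pos_of_pos hlam _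
    have h2 : (L : ℝ) * lam ^ (1 / 6 : ℝ) ≤ 2 * (A ^ (1 / 6 : ℝ) * (√N * F ^ (1 / 6 : ℝ))) := by
      rw [← hp1]
      have := mul_le_mul_of_nonneg_right hL2 hl1.le
      linarith
    have h3 : √(L : ℝ) * lam ^ (-(1 / 6) : ℝ) ≤
        2 * (A ^ (-(1 / 6) : ℝ) * (N * F ^ (-(1 / 6) : ℝ))) := by
      rw [← hp2]
      have := mul_le_mul_of_nonneg_right hsq hl2.le
      linarith
    have h4 : 9 * C * ((L : ℝ) * lam ^ (1 / 6 : ℝ) + √(L : ℝ) * lam ^ (-(1 / 6) : ℝ)) ≤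
        9 * C * (2 * (A ^ (1 / 6 : ℝ) * (√N * F ^ (1 / 6 : ℝ))) +
          2 * (A ^ (-(1 / 6) : ℝ) * (N * F ^ (-(1 / 6) : ℝ)))) :=
      mul_le_mul_of_nonneg_left (add_le_add h2 h3) (by positivity)
    refine (h1.trans h4).trans ?_
    have h5 : 0 ≤ 2 * A ^ (1 / 6 : ℝ) * (√N * F ^ (1 / 6 : ℝ) + N * F ^ (-(1 / 6) : ℝ)) := by
      positivity
    have h6 : 0 ≤ 9 * C * (2 * A ^ (1 / 6 : ℝ)) * (N * F ^ (-(1 / 6) : ℝ)) := by positivity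
    have h7 : 0 ≤ 9 * C * (2 * A ^ (-(1 / 6) : ℝ)) * (√N * F ^ (1 / 6 : ℝ)) := by positivity
    nlinarith [h5, h6, h7]
  · have h1 : ‖∑ n ∈ range L, ex (f ((n0 + n : ℕ) : ℝ))‖ ≤ (L : ℝ) := by
      refine (norm_sum_le _ _).trans ?_
      rw [Finset.sum_congr rfl (fun n _ => norm_ex _)]
      simp
    have h2 : (1 : ℝ) ≤ lam ^ (1 / 6 : ℝ) := Real.one_le_rpow hl.le (by norm_num)
    have h3 : (L : ℝ) ≤ 2 * (A ^ (1 / 6 : ℝ) * (√N * F ^ (1 / 6 : ℝ))) := by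
      rw [← hp1]
      have := mul_le_mul_of_nonneg_left h2 hN0.le
      linarith
    refine (h1.trans h3).trans ?_
    have h5 : 0 ≤ 2 * A ^ (1 / 6 : ℝ) * (N * F ^ (-(1 / 6) : ℝ)) := by positivity
    have h6 : 0 ≤ 9 * C * (2 * A ^ (1 / 6 : ℝ) + 2 * A ^ (-(1 / 6) : ℝ)) *
        (√N * F ^ (1 / 6 : ℝ) + N * F ^ (-(1 / 6) : ℝ)) := by positivity
    nlinarith [h5, h6]

end FD39
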