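import Pool.Agent.H39.FD.Defs
import Pool.Agent.H39.FD.Up2
import Pool.Agent.H39.FD.Up3

/-!
ROW Ups (project MP_493793_FD, about 80 lines): the upper bound by the size, for two and three derivatives.

PROOF. `K = max` (or sum) of `K2` (upper2), `2 K3` (upper3) and `2`. Let `F = y N ^ (1 - σ) ≥ N ≥ 2`. The number of terms is `≤ N + 1 ≤ 2 N`, so the norm is `≤ 2 N`. `P = 2`: norm `≤ K √F` and `≤ 2 N ≤ K N`, and `√N F ^ (1 / 4) ≥ min (√F) N` because `(√N F ^ (1 / 4)) ^ 2 = N √F ≥ (min (√F) N) ^ 2`; so `K * size = K min (min (√F) (√N F ^ (1 / 4))) N = K min (√F) N ≥` norm.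
`P = 3`: norm `≤ K √F`, `≤ K N`, and it remains `≤ K √N F ^ (1 / 6)`: if `N ^ (3 / 2) ≤ F` then `N F ^ (-1 / 6) ≤ √N F ^ (1 / 6)` (`√N ≤ F ^ (1 / 3)`), so upper3 gives `≤ 2 K3 √N F ^ (1 / 6)`; if `F < N ^ (3 / 2)` then `√F = F ^ (1 / 3) F ^ (1 / 6) ≤ √N F ^ (1 / 6)`, use upper2. (`1 / (2 * ((3 : ℕ) : ℝ)) = 1 / 6`, `1 / (2 * ((2 : ℕ) : ℝ)) = 1 / 4` by `norm_num`.)
-/

set_option autoImplicit false

namespace FD39

open Finset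

private lemma Ups_card {N N' : ℝ} (hN : 2 ≤ N) (hNN : N ≤ N') (hN2 : N' ≤ 2 * N) (f : ℝ → ℝ) :
    ‖∑ n ∈ Icc ⌈N⌉₊ ⌊N'⌋₊, ex (f (n : ℝ))‖ ≤ 2 * N := by
  have h1 : ‖∑ n ∈ Icc ⌈N⌉₊ ⌊N'⌋₊, ex (f (n : ℝ))‖ ≤ ((Icc ⌈N⌉₊ ⌊N'⌋₊).card : ℝ) := by
    refine (norm_sum_le _ _).trans ?_
    simp only [norm_ex]
    simp
  refine h1.trans ?_
  rw [Nat.card_Icc]
  have h2 : N ≤ (⌈N⌉₊ : ℝ) := Nat.le_ceil N
  have h3 : (⌊N'⌋₊ : ℝ) ≤ N' := Nat.floor_le (by linarith)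
  by_cases h : ⌈N⌉₊ ≤ ⌊N'⌋₊ + 1
  · rw [Nat.cast_sub h]
    push_cast
    linarith
  · have h4 : ⌊N'⌋₊ + 1 - ⌈N⌉₊ = 0 := by omega
    rw [h4]
    push_cast
    linarith

private lemma Ups_two {N F S K : ℝ} (hN : 2 ≤ N) (hF : N ≤ F) (hK : 0 < K) (hS0 : 0 ≤ S)
    (h1 : S ≤ K * √F) (h2 : S ≤ K * N) : S ≤ K * (√N * F ^ (1 / 4 : ℝ)) := by
  have hF0 : 0 ≤ F := by linarith
  have hN0 : 0 ≤ N := by linarith
  have e1 : (K * (√N * F ^ (1 / 4 : ℝ))) ^ 2 = (K * √F) * (K * N) := by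
    have e2 : (F ^ (1 / 4 : ℝ)) ^ 2 = √F := by
      rw [← Real.rpow_natCast, ← Real.rpow_mul hF0, Real.sqrt_eq_rpow]
      norm_num
    rw [mul_pow, mul_pow, Real.sq_sqrt hN0, e2]
    ring
  have e3 : S ^ 2 ≤ (K * (√N * F ^ (1 / 4 : ℝ))) ^ 2 := by
    rw [e1, sq]
    exact mul_le_mul h1 h2 hS0 (by positivity)
  exact (pow_le_pow_iff_left₀ hS0 (by positivity) two_ne_zero).1 e3

private lemma Ups_three {N F S K2 K3 : ℝ} (hN : 2 ≤ N) (hF : N ≤ F) (hK2 : 0 < K2) (hK3 : 0 < K3)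
    (h2 : S ≤ K2 * √F) (h3 : S ≤ K3 * (√N * F ^ (1 / 6 : ℝ) + N * F ^ (-(1 / 6) : ℝ))) :
    S ≤ (K2 + 2 * K3) * (√N * F ^ (1 / 6 : ℝ)) := by
  have hF0 : 0 < F := by linarith
  have hN0 : 0 < N := by linarith
  have hX : 0 ≤ √N * F ^ (1 / 6 : ℝ) := by positivity
  have hNh : (N ^ (3 / 2 : ℝ)) ^ (1 / 3 : ℝ) = √N := by
    rw [← Real.rpow_mul hN0.le, Real.sqrt_eq_rpow]
    norm_num
  rcases le_or_gt (N ^ (3 / 2 : ℝ)) F with h | h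
  · have h4 : √N ≤ F ^ (1 / 3 : ℝ) := by
      rw [← hNh]
      exact Real.rpow_le_rpow (by positivity) h (by norm_num)
    have h5 : N * F ^ (-(1 / 6) : ℝ) ≤ √N * F ^ (1 / 6 : ℝ) := by
      have e1 : F ^ (1 / 6 : ℝ) = F ^ (1 / 3 : ℝ) * F ^ (-(1 / 6) : ℝ) := by
        rw [← Real.rpow_add hF0]
        norm_num
      have e2 : N = √N * √N := (Real.mul_self_sqrt hN0.le).symm
      calc N * F ^ (-(1 / 6) : ℝ) = √N * (√N * F ^ (-(1 / 6) : ℝ)) := by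
            rw [← mul_assoc, ← e2]
        _ ≤ √N * (F ^ (1 / 3 : ℝ) * F ^ (-(1 / 6) : ℝ)) :=
            mul_le_mul_of_nonneg_left (mul_le_mul_of_nonneg_right h4 (by positivity))
              (Real.sqrt_nonneg _)
        _ = √N * F ^ (1 / 6 : ℝ) := by rw [← e1]
    have h6 : S ≤ K3 * (√N * F ^ (1 / 6 : ℝ) + √N * F ^ (1 / 6 : ℝ)) :=
      h3.trans (mul_le_mul_of_nonneg_left (by linarith) hK3.le)
    have h7 := mul_nonneg hK2.le hX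
    linarith
  · have h4 : F ^ (1 / 3 : ℝ) ≤ √N := by
      rw [← hNh]
      exact Real.rpow_le_rpow hF0.le h.le (by norm_num)
    have h5 : √F ≤ √N * F ^ (1 / 6 : ℝ) := by
      have e1 : √F = F ^ (1 / 3 : ℝ) * F ^ (1 / 6 : ℝ) := by
        rw [← Real.rpow_add hF0, Real.sqrt_eq_rpow]
        norm_num
      rw [e1]
      exact mul_le_mul_of_nonneg_right h4 (by positivity)
    have h6 : S ≤ K2 * (√N * F ^ (1 / 6 : ℝ)) := h2.trans (mul_le_mul_of_nonneg_left h5 hK2.le)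
    have h7 := mul_nonneg hK3.le hX
    linarith

theorem upper_size {σ c : ℝ} (hσ : 0 < σ) (hc : 0 < c) (hc1 : c < 1) :
    ∃ K : ℝ, 0 < K ∧ ∀ (P : ℕ) (N N' y : ℝ) (f : ℝ → ℝ), (P = 2 ∨ P = 3) → 2 ≤ N → N ≤ N' →
      N' ≤ 2 * N → N ≤ y * N ^ (1 - σ) → GKClass N P σ y c f →
      ‖∑ n ∈ Icc ⌈N⌉₊ ⌊N'⌋₊, ex (f (n : ℝ))‖ ≤ K * size P N (y * N ^ (1 - σ)) := by
  obtain ⟨K2, hK2, H2⟩ := upper2 hσ hc hc1
  obtain ⟨K3, hK3, H3⟩ := upper3 hσ hc hc1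
  refine ⟨K2 + 2 * K3 + 2, by positivity, ?_⟩
  intro P N N' y f hP hN hNN hN2 hF hf
  have hS0 : 0 ≤ ‖∑ n ∈ Icc ⌈N⌉₊ ⌊N'⌋₊, ex (f (n : ℝ))‖ := norm_nonneg _
  have hcard := Ups_card hN hNN hN2 f
  have h2 := H2 P N N' y f (by omega) hN hNN hN2 hF hf
  have h3 : P = 3 → _ := fun hP3 => H3 P N N' y f (by omega) hN hNN hN2 hF hf
  generalize ‖∑ n ∈ Icc ⌈N⌉₊ ⌊N'⌋₊, ex (f (n : ℝ))‖ = S at *
  generalize y * N ^ (1 - σ) = F at *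
  have hF0 : 0 < F := by linarith
  have hN0 : 0 < N := by linarith
  have hK : 0 < K2 + 2 * K3 + 2 := by positivity
  have g1 : S ≤ (K2 + 2 * K3 + 2) * √F := by
    refine h2.trans (mul_le_mul_of_nonneg_right (by linarith) (Real.sqrt_nonneg _))
  have g3 : S ≤ (K2 + 2 * K3 + 2) * N := by
    refine hcard.trans (mul_le_mul_of_nonneg_right (by linarith) hN0.le)
  rw [size, mul_min_of_nonneg _ _ hK.le, mul_min_of_nonneg _ _ hK.le]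
  refine le_min (le_min g1 ?_) g3
  rcases hP with hP | hP
  · subst hP
    have e : (1 / (2 * ((2 : ℕ) : ℝ)) : ℝ) = 1 / 4 := by norm_num
    rw [e]
    exact Ups_two hN hF hK hS0 g1 g3
  · subst hP
    have e : (1 / (2 * ((3 : ℕ) : ℝ)) : ℝ) = 1 / 6 := by norm_num
    rw [e]
    have h4 := Ups_three hN hF hK2 hK3 h2 (h3 rfl)
    refine h4.trans (mul_le_mul_of_nonneg_right (by linarith) (by positivity))

end FD39
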