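import Pool.Agent.H39.FD.Nec
import Pool.Agent.H39.FD.Ups
import Pool.Agent.H39.FD.Szl
import Pool.Agent.H39.FD.Pak

/-! Module Fin (project MP_493793_FD): assembly. -/

set_option autoImplicit false

namespace FD39

open Finset

theorem GKClass_anti {N : ℝ} {P Q : ℕ} {σ y c : ℝ} {f : ℝ → ℝ} (hPQ : Q ≤ P)
    (h : GKClass N P σ y c f) : GKClass N Q σ y c f :=
  ⟨h.1, fun j hj x hx => h.2 j (lt_of_lt_of_le hj hPQ) x hx⟩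

theorem upper_min {σ c : ℝ} (hσ : 0 < σ) (hc : 0 < c) (hc1 : c < 1) {P : ℕ} (hP : 2 ≤ P) :
    ∃ K : ℝ, ∀ (N N' y : ℝ) (f : ℝ → ℝ), 2 ≤ N → N ≤ N' →
      N' ≤ 2 * N → N ≤ y * N ^ (1 - σ) → GKClass N P σ y c f →
      ‖∑ n ∈ Icc ⌈N⌉₊ ⌊N'⌋₊, ex (f (n : ℝ))‖ ≤ K * size (min P 3) N (y * N ^ (1 - σ)) := by
  obtain ⟨K, -, hU⟩ := upper_size hσ hc hc1
  refine ⟨K, fun N N' y f h1 h2 h3 h4 h5 => ?_⟩
  have h6 : min P 3 = 2 ∨ min P 3 = 3 := by omega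
  exact hU (min P 3) N N' y f h6 h1 h2 h3 h4 (GKClass_anti (min_le_left _ _) h5)

theorem pair_sufficient {σ c p q : ℝ} (hσ : 0 < σ) (hc : 0 < c) (hc1 : c < 1) {P : ℕ} (hP2 : 2 ≤ P)
    (hP : P ≤ 3) (hp : 0 ≤ p) (hq : 0 ≤ q) (h1 : 1 / 2 ≤ p + (P - 1) * q)
    (h2 : 1 / 2 ≤ (P - 1) * p + q) : IsPairFor σ P c p q := by
  intro ε hε
  obtain ⟨K, hK, hU⟩ := upper_size hσ hc hc1
  refine ⟨K, fun N N' y f hN hNN hN2 hF hf => ?_⟩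
  have h3 := hU P N N' y f (by omega) hN hNN hN2 hF hf
  have hs := size_le_pair hP2 (N := N) (F := y * N ^ (1 - σ)) (by linarith) hF hp hq h1 h2
  have hF1 : 1 ≤ y * N ^ (1 - σ) := by linarith
  have hF0 : 0 < y * N ^ (1 - σ) := by linarith
  have hN0 : 0 < N := by linarith
  have h4 : 1 ≤ (y * N ^ (1 - σ)) ^ ε := Real.one_le_rpow hF1 hε.le
  have h5 : 0 ≤ K * ((y * N ^ (1 - σ)) ^ p * N ^ (q - p + 1 / 2)) := by positivity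
  calc ‖∑ n ∈ Icc ⌈N⌉₊ ⌊N'⌋₊, ex (f (n : ℝ))‖ ≤ K * size P N (y * N ^ (1 - σ)) := h3
    _ ≤ K * ((y * N ^ (1 - σ)) ^ p * N ^ (q - p + 1 / 2)) := mul_le_mul_of_nonneg_left hs hK.le
    _ ≤ K * ((y * N ^ (1 - σ)) ^ p * N ^ (q - p + 1 / 2)) * (y * N ^ (1 - σ)) ^ ε :=
        le_mul_of_one_le_right h5 h4
    _ = K * (y * N ^ (1 - σ)) ^ p * N ^ (q - p + 1 / 2) * (y * N ^ (1 - σ)) ^ ε := by ring

theorem main (σ : ℝ) (P : ℕ) (hσ : 0 < σ) (hP : 2 ≤ P) :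
    (∃ κ : ℝ, 0 < κ ∧ ∀ (c : ℝ) (N : ℕ) (F : ℝ), 0 < c → c ≤ 1 → 1 / κ ≤ N → N / κ ≤ c * F →
      ∃ f : ℝ → ℝ, GKClass N P σ (F * (N : ℝ) ^ (σ - 1)) c f ∧
        κ * size P N (c * F) / Real.log N ≤ ‖∑ n ∈ Icc N (2 * N), ex (f n)‖) ∧
    ∀ c : ℝ, 0 < c →
      (c < 1 → ∃ K : ℝ, ∀ (N N' y : ℝ) (f : ℝ → ℝ), 2 ≤ N → N ≤ N' → N' ≤ 2 * N →
        N ≤ y * N ^ (1 - σ) → GKClass N P σ y c f →
        ‖∑ n ∈ Icc ⌈N⌉₊ ⌊N'⌋₊, ex (f (n : ℝ))‖ ≤ K * size (min P 3) N (y * N ^ (1 - σ))) ∧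
      ∀ p q : ℝ,
        (IsPairFor σ P c p q →
          0 ≤ p ∧ 0 ≤ q ∧ 1 / 2 ≤ p + (P - 1) * q ∧ 1 / 2 ≤ (P - 1) * p + q) ∧
        (c < 1 → (P ≤ 3 ∨ p ≤ 1 / ((2 : ℝ) ^ P - 2)) →
          0 ≤ p → 0 ≤ q → 1 / 2 ≤ p + (P - 1) * q → 1 / 2 ≤ (P - 1) * p + q →
          IsPairFor σ P c p q) := by
  refine ⟨lower_gk hσ hP, fun c hc => ⟨fun hc1 => upper_min hσ hc hc1 hP, fun p q =>
    ⟨fun h => pair_necessary hσ hc hP h, fun hc1 h3 hp hq h1 h2 => ?_⟩⟩⟩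
  rcases h3 with h3 | h3
  · exact pair_sufficient hσ hc hc1 hP h3 hp hq h1 h2
  · exact pair_k hσ hc hc1 hP hp h3 h2

end FD39
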