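import Pool.Agent.H39.FD.LowC

/-! Module Low (project MP_493793_FD): the lower bound for fixed `c`. -/

set_option autoImplicit false

namespace FD39

open Finset

theorem lower {σ c : ℝ} (hσ : 0 < σ) (hc : 0 < c) {P : ℕ} (hP : 2 ≤ P) :
    ∃ κ : ℝ, 0 < κ ∧ ∀ (N : ℕ) (F : ℝ), 1 / κ ≤ N → N / κ ≤ F →
      ∃ f : ℝ → ℝ, GKClass N P σ (F * (N : ℝ) ^ (σ - 1)) c f ∧
        κ * size P N F / Real.log N ≤ ‖∑ n ∈ Icc N (2 * N), ex (f n)‖ :=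
  lower' hσ hc hP

end FD39
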