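import Pool.Agent.H39.FD.LowG
import Pool.Agent.H76.EPModel

/-! Module LowC (project MP_493793_FD): the lower bound in the Graham - Kolesnik classes. -/

set_option autoImplicit false

namespace FD39

open Finset Pool.Agent.H76.EP

theorem LowC_size {P : ℕ} (hP : 1 ≤ P) {N D r : ℝ} (hN : 0 ≤ N) (hD : 0 ≤ D) (hr : 0 < r)
    (hr1 : r ≤ 1) : r * size P N D ≤ size P N (r * D) := by
  have hP0 : (0 : ℝ) < P := by exact_mod_cast hP
  have s1 : size P N D ≤ N := min_le_right _ _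
  have s2 : size P N D ≤ √D := (min_le_left _ _).trans (min_le_left _ _)
  have s3 : size P N D ≤ √N * D ^ (1 / (2 * (P : ℝ))) := (min_le_left _ _).trans (min_le_right _ _)
  have hre : ∀ e : ℝ, 0 ≤ e → e ≤ 1 → r ≤ r ^ e := fun e h0 h1 => by
    have h2 := Real.rpow_le_rpow_of_exponent_ge hr hr1 h1
    rwa [Real.rpow_one] at h2
  have hsn : 0 ≤ size P N D := by
    unfold size
    exact le_min (le_min (Real.sqrt_nonneg _) (mul_nonneg (Real.sqrt_nonneg _)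
      (Real.rpow_nonneg hD _))) hN
  unfold size at *
  refine le_min (le_min ?_ ?_) ?_
  · rw [Real.sqrt_mul hr.le]
    have h1 : r ≤ √r := by
      rw [Real.sqrt_eq_rpow]
      exact hre _ (by norm_num) (by norm_num)
    exact mul_le_mul h1 s2 hsn (Real.sqrt_nonneg _)
  · rw [Real.mul_rpow hr.le hD]
    have h1 : r ≤ r ^ (1 / (2 * (P : ℝ))) := by
      apply hre _ (by positivity)
      rw [div_le_one (by positivity)]
      have : (1 : ℝ) ≤ P := by exact_mod_cast hP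
      linarith
    calc r * min (min (√D) (√N * D ^ (1 / (2 * (P : ℝ))))) N
        ≤ r ^ (1 / (2 * (P : ℝ))) * (√N * D ^ (1 / (2 * (P : ℝ)))) :=
          mul_le_mul h1 s3 hsn (Real.rpow_nonneg hr.le _)
      _ = √N * (r ^ (1 / (2 * (P : ℝ))) * D ^ (1 / (2 * (P : ℝ)))) := by ring
  · calc r * min (min (√D) (√N * D ^ (1 / (2 * (P : ℝ))))) N ≤ 1 * N :=
          mul_le_mul hr1 s1 hsn (by norm_num)
      _ = N := one_mul N

theorem lower_gk {σ : ℝ} (hσ : 0 < σ) {P : ℕ} (hP : 2 ≤ P) :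
    ∃ κ : ℝ, 0 < κ ∧ ∀ (c : ℝ) (N : ℕ) (F : ℝ), 0 < c → c ≤ 1 → 1 / κ ≤ N → N / κ ≤ c * F →
      ∃ f : ℝ → ℝ, GKClass N P σ (F * (N : ℝ) ^ (σ - 1)) c f ∧
        κ * size P N (c * F) / Real.log N ≤ ‖∑ n ∈ Icc N (2 * N), ex (f n)‖ := by
  obtain ⟨κ1, hκ1, hlow⟩ := lowerG hP
  set ρ : ℕ → ℝ := fun j => rf σ j * (2 : ℝ) ^ (-σ - (j : ℝ)) with hρ
  have hρ0 : ∀ j, 0 < ρ j := fun j => by
    have := rf_pos hσ j
    simp only [hρ]
    positivity
  have hS : 0 ≤ ∑ j ∈ range P, 1 / ρ j :=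
    Finset.sum_nonneg fun j _ => (one_div_pos.2 (hρ0 j)).le
  set S : ℝ := ∑ j ∈ range P, 1 / ρ j with hSdef
  set r : ℝ := 1 / (2 * (1 + S)) with hr
  have hr0 : 0 < r := by positivity
  have hr1 : r ≤ 1 := by
    rw [hr, div_le_one (by positivity)]
    linarith
  have hrρ : ∀ j < P, r < ρ j := by
    intro j hj
    have h1 : 1 / ρ j ≤ S := Finset.single_le_sum (f := fun j => 1 / ρ j)
      (fun j _ => (one_div_pos.2 (hρ0 j)).le) (Finset.mem_range.2 hj)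
    rw [div_le_iff₀ (hρ0 j)] at h1
    rw [hr, div_lt_iff₀ (by positivity)]
    nlinarith [hρ0 j]
  refine ⟨κ1 * r, by positivity, ?_⟩
  intro c N F hc hc1 hN hF
  have hκr : κ1 * r ≤ κ1 := by nlinarith
  have hN1 : 1 / κ1 ≤ N := (one_div_le_one_div_of_le (by positivity) hκr).trans hN
  have hNpos : (0 : ℝ) < N := lt_of_lt_of_le (by positivity) hN1
  have hD : N / κ1 ≤ r * (c * F) := by
    rw [div_le_iff₀ (by positivity)] at hF
    rw [div_le_iff₀ hκ1]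
    linarith
  have hcF : 0 < c * F := lt_of_lt_of_le (by positivity) hF
  have hF0 : 0 < F := by
    by_contra h
    push Not at h
    have := mul_nonpos_of_nonneg_of_nonpos hc.le h
    linarith
  set y : ℝ := F * (N : ℝ) ^ (σ - 1) with hy
  have hy0 : 0 < y := by positivity
  obtain ⟨g, hg, hgd, hgs⟩ := hlow N (r * (c * F)) (fun n => f0 σ y n) hN1 hD
  refine ⟨fun x => f0 σ y x + g x, ⟨?_, ?_⟩, ?_⟩
  · intro x hx
    exact ((f0_contDiffAt σ y (lt_of_lt_of_le hNpos hx.1)).add hg.contDiffAt).contDiffWithinAt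
  · intro j hj x hx
    have hx0 : 0 < x := lt_of_lt_of_le hNpos hx.1
    have hcd : ContDiffAt ℝ (⊤ : ℕ∞) (fun x => f0 σ y x + g x) x :=
      (f0_contDiffAt σ y hx0).add hg.contDiffAt
    have e1 : iteratedDerivWithin (j + 1) (fun x => f0 σ y x + g x) (Set.Icc (N : ℝ) (2 * N)) x =
        iteratedDeriv (j + 1) (fun x => f0 σ y x + g x) x :=
      iteratedDerivWithin_eq_iteratedDeriv (uniqueDiffOn_Icc (by linarith))
        (hcd.of_le (by exact_mod_cast le_top)) hx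
    have e2 : iteratedDeriv (j + 1) (fun x => f0 σ y x + g x) x =
        iteratedDeriv (j + 1) (f0 σ y) x + iteratedDeriv (j + 1) g x := by
      have e : (fun x => f0 σ y x + g x) = f0 σ y + g := rfl
      rw [e, iteratedDeriv_add ((f0_contDiffAt σ y hx0).of_le (by exact_mod_cast le_top))
        (hg.contDiffAt.of_le (by exact_mod_cast le_top))]
    have e3 : rising σ j = rf σ j := rfl
    rw [e1, e2, iter_f0 σ y j hx0, e3, add_sub_cancel_left]
    refine lt_of_le_of_lt (hgd j hj x hx) ?_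
    have hxlow : (2 * (N : ℝ)) ^ (-σ - (j : ℝ)) ≤ x ^ (-σ - (j : ℝ)) :=
      Real.rpow_le_rpow_of_nonpos hx0 hx.2 (by
        have : (0 : ℝ) ≤ j := by positivity
        linarith)
    have e4 : y * (2 * (N : ℝ)) ^ (-σ - (j : ℝ)) = (2 : ℝ) ^ (-σ - (j : ℝ)) * (F / (N : ℝ) ^ (j + 1)) := by
      rw [hy, Real.mul_rpow (by norm_num) hNpos.le]
      have h5 : (N : ℝ) ^ (σ - 1) * (N : ℝ) ^ (-σ - (j : ℝ)) = ((N : ℝ) ^ (j + 1))⁻¹ := by
        rw [← Real.rpow_add hNpos, ← Real.rpow_natCast, ← Real.rpow_neg hNpos.le]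
        congr 1
        push_cast
        ring
      calc F * (N : ℝ) ^ (σ - 1) * ((2 : ℝ) ^ (-σ - (j : ℝ)) * (N : ℝ) ^ (-σ - (j : ℝ)))
          = (2 : ℝ) ^ (-σ - (j : ℝ)) * (F * ((N : ℝ) ^ (σ - 1) * (N : ℝ) ^ (-σ - (j : ℝ)))) := by ring
        _ = (2 : ℝ) ^ (-σ - (j : ℝ)) * (F / (N : ℝ) ^ (j + 1)) := by rw [h5]; ring
    have h6 : c * (ρ j * (F / (N : ℝ) ^ (j + 1))) ≤ c * (rf σ j * y * x ^ (-σ - (j : ℝ))) := by
      apply mul_le_mul_of_nonneg_left _ hc.le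
      calc ρ j * (F / (N : ℝ) ^ (j + 1)) = rf σ j * (y * (2 * (N : ℝ)) ^ (-σ - (j : ℝ))) := by
            rw [e4]; simp only [hρ]; ring
        _ ≤ rf σ j * (y * x ^ (-σ - (j : ℝ))) :=
            mul_le_mul_of_nonneg_left (mul_le_mul_of_nonneg_left hxlow hy0.le) (rf_pos hσ j).le
        _ = rf σ j * y * x ^ (-σ - (j : ℝ)) := by ring
    refine lt_of_lt_of_le ?_ h6
    have h7 : 0 < c * (F / (N : ℝ) ^ (j + 1)) := by positivity
    calc r * (c * F) / (N : ℝ) ^ (j + 1) = r * (c * (F / (N : ℝ) ^ (j + 1))) := by ring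
      _ < ρ j * (c * (F / (N : ℝ) ^ (j + 1))) := mul_lt_mul_of_pos_right (hrρ j hj) h7
      _ = c * (ρ j * (F / (N : ℝ) ^ (j + 1))) := by ring
  · refine le_trans ?_ hgs
    have hlog : 0 ≤ Real.log N := by
      apply Real.log_natCast_nonneg
    apply div_le_div_of_nonneg_right _ hlog
    rw [mul_assoc]
    exact mul_le_mul_of_nonneg_left (LowC_size (by omega) hNpos.le hcF.le hr0 hr1) hκ1.le

theorem GKClass_mono {N : ℝ} {P : ℕ} {σ y c c' : ℝ} {f : ℝ → ℝ} (hσ : 0 < σ) (hN : 0 < N)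
    (hy : 0 ≤ y) (hcc : c ≤ c') (h : GKClass N P σ y c f) : GKClass N P σ y c' f := by
  refine ⟨h.1, fun j hj x hx => lt_of_lt_of_le (h.2 j hj x hx) ?_⟩
  apply mul_le_mul_of_nonneg_right hcc
  have hx0 : 0 < x := lt_of_lt_of_le hN hx.1
  have h1 : 0 ≤ rising σ j := (rf_pos hσ j).le
  positivity

theorem lower' {σ c : ℝ} (hσ : 0 < σ) (hc : 0 < c) {P : ℕ} (hP : 2 ≤ P) :
    ∃ κ : ℝ, 0 < κ ∧ ∀ (N : ℕ) (F : ℝ), 1 / κ ≤ N → N / κ ≤ F →
      ∃ f : ℝ → ℝ, GKClass N P σ (F * (N : ℝ) ^ (σ - 1)) c f ∧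
        κ * size P N F / Real.log N ≤ ‖∑ n ∈ Icc N (2 * N), ex (f n)‖ := by
  obtain ⟨κ, hκ, h⟩ := lower_gk hσ hP
  set c' : ℝ := min c 1 with hc'
  have hc0 : 0 < c' := lt_min hc one_pos
  have hc1 : c' ≤ 1 := min_le_right _ _
  refine ⟨κ * c', by positivity, fun N F hN hF => ?_⟩
  have hκc : κ * c' ≤ κ := by nlinarith
  have hN1 : 1 / κ ≤ N := (one_div_le_one_div_of_le (by positivity) hκc).trans hN
  have hNpos : (0 : ℝ) < N := lt_of_lt_of_le (by positivity) hN1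
  have hF0 : 0 < F := lt_of_lt_of_le (by positivity) hF
  have hF1 : N / κ ≤ c' * F := by
    rw [div_le_iff₀ (by positivity)] at hF
    rw [div_le_iff₀ hκ]
    linarith
  obtain ⟨f, hf1, hf2⟩ := h c' N F hc0 hc1 hN1 hF1
  refine ⟨f, GKClass_mono hσ hNpos (by positivity) (min_le_left _ _) hf1, le_trans ?_ hf2⟩
  apply div_le_div_of_nonneg_right _ (Real.log_natCast_nonneg N)
  rw [mul_assoc]
  exact mul_le_mul_of_nonneg_left (LowC_size (by omega) hNpos.le hF0.le hc0 hc1) hκ.le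

end FD39
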