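import Pool.Agent.H39.FD.Defs
import Pool.Agent.H39.FD.Blk

/-!
ROW Pick (project MP_493793_FD, about 110 lines): choice of the twist.

PROOF. Put `a i m = h (N + i * w + m) * (ex (b m) - 1)`: `‖a i m‖ ≤ 2`; for `w ≤ 4 m ≤ 3 w` it has norm `2` (`b m = 1 / 2`, `ex_half`), and there are at least `w / 4` such `m < w` (`16 ≤ w`: e.g. the integers of `Icc ((w + 3) / 4) (3 * w / 4)`, their number is at least `3 w / 4 - 3 / 4 - (w + 3) / 4 + 1 ≥ w / 4`), so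
`∑_{m < w} ‖a i m‖ ^ 2 ≥ 4 * (w / 4) = w` (`Finset.card_nsmul_le_sum`, `Finset.sum_le_sum_of_subset_of_nonneg`). Let `M = 2 w`, `L = ⌈4 w ^ 2 Γ⌉₊` (positive). `block_avg` (file Blk) for each `i`, summed over `i < R`:
`M L * (R √w / (8 (1 + log w))) ≤ ∑_k ∑_l ∑_i ‖T ..‖` (`Finset.sum_comm`). So some `(k, l)` has `R √w / (8 (1 + log w)) ≤ ∑_i ‖T ..‖` (`Finset.exists_le_of_sum_le` on `range M ×ˢ range L`, or by contradiction). `β = k / M ∈ [0, 1)`, `γ = Γ * (l / L) ∈ [0, Γ]`.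
-/

set_option autoImplicit false

namespace FD39

open Finset

theorem pick (h : ℕ → ℂ) (hh : ∀ n, ‖h n‖ = 1) (b : ℕ → ℝ) (N R : ℕ) {w : ℕ} (hw : 16 ≤ w)
    (hb : ∀ m, w ≤ 4 * m → 4 * m ≤ 3 * w → b m = 1 / 2) {Γ : ℝ} (hΓ : 0 < Γ) (hwΓ : 1 ≤ w * Γ) :
    ∃ β γ : ℝ, 0 ≤ β ∧ β < 1 ∧ 0 ≤ γ ∧ γ ≤ Γ ∧
      (R : ℝ) * √w / (8 * (1 + Real.log w)) ≤
        ∑ i ∈ range R, ‖T (fun m => h (N + i * w + m) * (ex (b m) - 1)) (N + i * w) w β γ‖ := by
  set a : ℕ → ℕ → ℂ := fun i m => h (N + i * w + m) * (ex (b m) - 1) with ha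
  set L : ℕ := ⌈4 * (w : ℝ) ^ 2 * Γ⌉₊ with hLdef
  have hw0 : 0 < w := by omega
  have hwR : (0 : ℝ) < w := by exact_mod_cast hw0
  have hL : 0 < L := Nat.ceil_pos.2 (by positivity)
  have hLR : (0 : ℝ) < L := by exact_mod_cast hL
  have ha2 : ∀ i m, ‖a i m‖ ≤ 2 := by
    intro i m
    have h1 : ‖a i m‖ = ‖ex (b m) - 1‖ := by
      show ‖h (N + i * w + m) * (ex (b m) - 1)‖ = _
      rw [norm_mul, hh, one_mul]
    rw [h1]
    refine (norm_sub_le _ _).trans ?_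
    rw [norm_ex, norm_one]
    norm_num
  have hs : ∀ i, (w : ℝ) ≤ ∑ m ∈ range w, ‖a i m‖ ^ 2 := by
    intro i
    have hsub : Finset.Icc ((w + 3) / 4) (3 * w / 4) ⊆ range w := by
      intro m hm
      rw [Finset.mem_Icc] at hm
      rw [Finset.mem_range]
      omega
    have h1 : ∑ m ∈ Finset.Icc ((w + 3) / 4) (3 * w / 4), ‖a i m‖ ^ 2 ≤ ∑ m ∈ range w, ‖a i m‖ ^ 2 :=
      Finset.sum_le_sum_of_subset_of_nonneg hsub fun m _ _ => by positivity
    have h2 : ∀ m ∈ Finset.Icc ((w + 3) / 4) (3 * w / 4), ‖a i m‖ ^ 2 = 4 := by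
      intro m hm
      rw [Finset.mem_Icc] at hm
      have h3 : ‖a i m‖ = ‖ex (b m) - 1‖ := by
        show ‖h (N + i * w + m) * (ex (b m) - 1)‖ = _
        rw [norm_mul, hh, one_mul]
      rw [h3, hb m (by omega) (by omega), ex_half]
      have h4 : ((-1 : ℂ) - 1) = ((-2 : ℝ) : ℂ) := by push_cast; ring
      rw [h4, Complex.norm_real]
      norm_num
    rw [Finset.sum_congr rfl h2, Finset.sum_const, nsmul_eq_mul, Nat.card_Icc] at h1
    refine le_trans ?_ h1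
    have h5 : w ≤ (3 * w / 4 + 1 - (w + 3) / 4) * 4 := by omega
    exact_mod_cast h5
  have hblk : ∀ i ∈ range R, ((2 * w : ℕ) : ℝ) * L * √w / (8 * (1 + Real.log w)) ≤
      ∑ k ∈ range (2 * w), ∑ l ∈ range L,
        ‖T (a i) (N + i * w) w (k / ((2 * w : ℕ) : ℝ)) (Γ * (l / L))‖ := by
    intro i _
    exact block_avg (a i) (ha2 i) (N + i * w) (by omega) le_rfl hL hΓ (Nat.le_ceil _) hwΓ (hs i)
  have hsum := Finset.sum_le_sum hblk
  rw [Finset.sum_const, Finset.card_range, nsmul_eq_mul, Finset.sum_comm] at hsum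
  have hsum2 : (R : ℝ) * (((2 * w : ℕ) : ℝ) * L * √w / (8 * (1 + Real.log w))) ≤
      ∑ k ∈ range (2 * w), ∑ l ∈ range L, ∑ i ∈ range R,
        ‖T (a i) (N + i * w) w (k / ((2 * w : ℕ) : ℝ)) (Γ * (l / L))‖ := by
    refine hsum.trans (le_of_eq ?_)
    refine Finset.sum_congr rfl fun k _ => ?_
    rw [Finset.sum_comm]
  by_contra hcon
  push Not at hcon
  have hlt : ∑ k ∈ range (2 * w), ∑ l ∈ range L, ∑ i ∈ range R,
        ‖T (a i) (N + i * w) w (k / ((2 * w : ℕ) : ℝ)) (Γ * (l / L))‖ <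
      ∑ k ∈ range (2 * w), ∑ l ∈ range L, (R : ℝ) * √w / (8 * (1 + Real.log w)) := by
    refine Finset.sum_lt_sum_of_nonempty (Finset.nonempty_range_iff.2 (by omega)) fun k hk => ?_
    refine Finset.sum_lt_sum_of_nonempty (Finset.nonempty_range_iff.2 (by omega)) fun l hl => ?_
    rw [Finset.mem_range] at hk hl
    have h2w : (0 : ℝ) < ((2 * w : ℕ) : ℝ) := by exact_mod_cast (by omega : 0 < 2 * w)
    refine hcon _ _ (by positivity) ?_ (by positivity) ?_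
    · rw [div_lt_one h2w]
      exact_mod_cast hk
    · refine mul_le_of_le_one_right hΓ.le ?_
      rw [div_le_one hLR]
      exact_mod_cast hl.le
  have heq : ∑ k ∈ range (2 * w), ∑ l ∈ range L, (R : ℝ) * √w / (8 * (1 + Real.log w)) =
      (R : ℝ) * (((2 * w : ℕ) : ℝ) * L * √w / (8 * (1 + Real.log w))) := by
    rw [Finset.sum_const, Finset.sum_const, Finset.card_range, Finset.card_range, nsmul_eq_mul,
      nsmul_eq_mul]
    ring
  rw [heq] at hlt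
  exact absurd hlt (not_lt.2 hsum2)

end FD39
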