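import Pool.Agent.H39.FD.Defs

/-!
ROW Sel (project MP_493793_FD, about 60 lines): selection of a subset.

PROOF. Let `A = ∑ ‖Δ i‖`. `‖z‖ ≤ |z.re| + |z.im|`, so `∑ |(Δ i).re| ≥ A / 2` or `∑ |(Δ i).im| ≥ A / 2`. In the first case let `x i = (Δ i).re`, in the second `x i = (Δ i).im`; `I₊ = filter (0 < x i)`, `I₋ = filter (x i < 0)` (subsets of `range R`). Then
`∑_{I₊} x - ∑_{I₋} x = ∑ |x i| ≥ A / 2`, and `∑_{I₊} x - ∑_{I₋} x` is the real (imaginary) part of `(S + ∑_{I₊} Δ) - (S + ∑_{I₋} Δ)`, so one of the two norms is `≥ A / 4` (`norm_sub_le`, `Complex.abs_re_le_norm`, `Complex.abs_im_le_norm`).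
-/

set_option autoImplicit false

namespace FD39

open Finset

theorem select (R : ℕ) (Δ : ℕ → ℂ) (S : ℂ) :
    ∃ I ⊆ range R, 1 / 4 * ∑ i ∈ range R, ‖Δ i‖ ≤ ‖S + ∑ i ∈ I, Δ i‖ := by
  have key : ∀ (f : ℂ →ₗ[ℝ] ℝ), (∀ z, |f z| ≤ ‖z‖) →
      1 / 2 * ∑ i ∈ range R, ‖Δ i‖ ≤ ∑ i ∈ range R, |f (Δ i)| →
      ∃ I ⊆ range R, 1 / 4 * ∑ i ∈ range R, ‖Δ i‖ ≤ ‖S + ∑ i ∈ I, Δ i‖ := by
    intro f hf h
    have h1 : ∑ i ∈ range R, |f (Δ i)|
        = f (S + ∑ i ∈ (range R).filter (fun i => 0 < f (Δ i)), Δ i)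
          - f (S + ∑ i ∈ (range R).filter (fun i => f (Δ i) < 0), Δ i) := by
      rw [map_add, map_add, map_sum, map_sum, Finset.sum_filter, Finset.sum_filter,
        add_sub_add_left_eq_sub, ← Finset.sum_sub_distrib]
      apply Finset.sum_congr rfl
      intro i _
      rcases lt_trichotomy (f (Δ i)) 0 with h0 | h0 | h0
      · rw [if_neg (by linarith), if_pos h0, abs_of_neg h0]; ring
      · rw [if_neg (by linarith), if_neg (by linarith), h0]; simp
      · rw [if_pos h0, if_neg (by linarith), abs_of_pos h0]; ring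
    by_contra hcon
    push Not at hcon
    have h2 := hcon _ (Finset.filter_subset (fun i => 0 < f (Δ i)) (range R))
    have h3 := hcon _ (Finset.filter_subset (fun i => f (Δ i) < 0) (range R))
    have h4 := (le_abs_self _).trans
      (hf (S + ∑ i ∈ (range R).filter (fun i => 0 < f (Δ i)), Δ i))
    have h5 := (neg_le_abs _).trans
      (hf (S + ∑ i ∈ (range R).filter (fun i => f (Δ i) < 0), Δ i))
    linarith
  have hsum : ∑ i ∈ range R, ‖Δ i‖
      ≤ ∑ i ∈ range R, |(Δ i).re| + ∑ i ∈ range R, |(Δ i).im| := by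
    rw [← Finset.sum_add_distrib]
    exact Finset.sum_le_sum (fun i _ => Complex.norm_le_abs_re_add_abs_im _)
  by_cases hre : 1 / 2 * ∑ i ∈ range R, ‖Δ i‖ ≤ ∑ i ∈ range R, |(Δ i).re|
  · exact key Complex.reLm Complex.abs_re_le_norm hre
  · refine key Complex.imLm Complex.abs_im_le_norm ?_
    push Not at hre
    have h6 : 1 / 2 * ∑ i ∈ range R, ‖Δ i‖ ≤ ∑ i ∈ range R, |(Δ i).im| := by linarith
    exact h6

end FD39
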