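import Pool.Agent.H39.FD.Prt
import Pool.Agent.H39.FD.Dec
import Pool.Agent.H39.FD.Pick
import Pool.Agent.H39.FD.Sel

/-! Module LowG (project MP_493793_FD): the general lower bound. -/

set_option autoImplicit false

namespace FD39

open Finset

private theorem low_size_nonneg {P : ℕ} {N F : ℝ} (hN : 0 < N) (hF : 0 < F) : 0 ≤ size P N F := by
  unfold size
  exact le_min (le_min (Real.sqrt_nonneg _) (mul_nonneg (Real.sqrt_nonneg _)
    (Real.rpow_nonneg hF.le _))) hN.le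

private theorem low_size {κ0 F W N w : ℝ} {P : ℕ} (hκ0 : 0 < κ0) (hκ1 : κ0 ≤ 1) (hF : 0 < F)
    (_ : 0 < W) (hN : 0 < N) (hP : (0 : ℝ) < P)
    (hW : W = max (max 16 (N / (κ0 * F) ^ (1 / (P : ℝ)))) (N ^ 2 / (κ0 * F))) (hP1 : 1 ≤ P)
    (hw : 0 < w) (hw2 : w ≤ 2 * W) : √(κ0 / 32) * size P N F ≤ N / √w := by
  have s0 : 0 ≤ size P N F := low_size_nonneg hN hF
  have s1 : size P N F ≤ N := min_le_right _ _
  have s2 : size P N F ≤ √F := (min_le_left _ _).trans (min_le_left _ _)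
  have s3 : size P N F ≤ √N * F ^ (1 / (2 * (P : ℝ))) := (min_le_left _ _).trans (min_le_right _ _)
  have t1 : size P N F ^ 2 ≤ N ^ 2 := pow_le_pow_left₀ s0 s1 2
  have t2 : size P N F ^ 2 ≤ F := by
    have := pow_le_pow_left₀ s0 s2 2
    rwa [Real.sq_sqrt hF.le] at this
  have t3 : size P N F ^ 2 ≤ N * F ^ (1 / (P : ℝ)) := by
    have := pow_le_pow_left₀ s0 s3 2
    rw [mul_pow, Real.sq_sqrt hN.le, ← Real.rpow_natCast (F ^ (1 / (2 * (P : ℝ)))) 2,
      ← Real.rpow_mul hF.le] at this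
    have e : 1 / (2 * (P : ℝ)) * ((2 : ℕ) : ℝ) = 1 / (P : ℝ) := by
      push_cast
      field_simp
    rwa [e] at this
  have hK : 0 < κ0 * F := mul_pos hκ0 hF
  have m1 : κ0 / 16 * size P N F ^ 2 * 16 ≤ N ^ 2 := by
    nlinarith [sq_nonneg (size P N F)]
  have m3 : κ0 / 16 * size P N F ^ 2 * (N ^ 2 / (κ0 * F)) ≤ N ^ 2 := by
    have e : κ0 / 16 * size P N F ^ 2 * (N ^ 2 / (κ0 * F)) = size P N F ^ 2 / F * (N ^ 2 / 16) := by
      field_simp
    rw [e]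
    have h1 : size P N F ^ 2 / F ≤ 1 := by
      rw [div_le_one hF]
      exact t2
    have h2 : 0 ≤ N ^ 2 / 16 := by positivity
    nlinarith
  have m2 : κ0 / 16 * size P N F ^ 2 * (N / (κ0 * F) ^ (1 / (P : ℝ))) ≤ N ^ 2 := by
    have a1 : 0 < F ^ (1 / (P : ℝ)) := Real.rpow_pos_of_pos hF _
    have a2 : 0 < κ0 ^ (1 / (P : ℝ)) := Real.rpow_pos_of_pos hκ0 _
    have a3 : κ0 ≤ κ0 ^ (1 / (P : ℝ)) := by
      have h1 : 1 / (P : ℝ) ≤ 1 := by
        rw [div_le_one hP]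
        exact_mod_cast hP1
      have h2 := Real.rpow_le_rpow_of_exponent_ge hκ0 hκ1 h1
      rwa [Real.rpow_one] at h2
    rw [Real.mul_rpow hκ0.le hF.le, ← mul_div_assoc, div_le_iff₀ (mul_pos a2 a1)]
    calc κ0 / 16 * size P N F ^ 2 * N ≤ κ0 / 16 * (N * F ^ (1 / (P : ℝ))) * N := by
          refine mul_le_mul_of_nonneg_right (mul_le_mul_of_nonneg_left t3 ?_) hN.le
          positivity
      _ = κ0 * (N ^ 2 * F ^ (1 / (P : ℝ)) / 16) := by ring
      _ ≤ κ0 ^ (1 / (P : ℝ)) * (N ^ 2 * F ^ (1 / (P : ℝ)) / 16) :=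
          mul_le_mul_of_nonneg_right a3 (by positivity)
      _ ≤ κ0 ^ (1 / (P : ℝ)) * (N ^ 2 * F ^ (1 / (P : ℝ))) := by
          refine mul_le_mul_of_nonneg_left ?_ a2.le
          have : 0 ≤ N ^ 2 * F ^ (1 / (P : ℝ)) := by positivity
          linarith
      _ = N ^ 2 * (κ0 ^ (1 / (P : ℝ)) * F ^ (1 / (P : ℝ))) := by ring
  have m : κ0 / 16 * size P N F ^ 2 * W ≤ N ^ 2 := by
    rw [hW]
    rcases max_choice (max 16 (N / (κ0 * F) ^ (1 / (P : ℝ)))) (N ^ 2 / (κ0 * F)) with h | h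
    · rw [h]
      rcases max_choice 16 (N / (κ0 * F) ^ (1 / (P : ℝ))) with h | h
      · rw [h]
        exact m1
      · rw [h]
        exact m2
    · rw [h]
      exact m3
  rw [← Real.sqrt_sq hN.le, ← Real.sqrt_div (sq_nonneg N)]
  refine Real.le_sqrt_of_sq_le ?_
  rw [Real.sqrt_sq hN.le, mul_pow, Real.sq_sqrt (by positivity), le_div_iff₀ hw]
  have h1 : 0 ≤ κ0 / 32 * size P N F ^ 2 := by positivity
  nlinarith [mul_le_mul_of_nonneg_left hw2 h1]

private theorem low_fin {N w κ κ0 s R : ℝ} (hN : 16 ≤ N) (hw : 0 < w) (hwN : w ≤ N)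
    (hw16 : 16 ≤ w) (hs : 0 ≤ s) (_ : 0 < κ) (k3 : κ ≤ √(κ0 / 32) / 128) (hR : N ≤ 2 * R * w)
    (h : √(κ0 / 32) * s ≤ N / √w) :
    κ * s / Real.log N ≤ 1 / 4 * (R * √w / (8 * (1 + Real.log w))) := by
  have hN0 : 0 < N := by linarith
  have l1 : 1 ≤ Real.log N := by
    rw [Real.le_log_iff_exp_le hN0]
    have := Real.exp_one_lt_d9
    linarith
  have l2 : Real.log w ≤ Real.log N := Real.log_le_log hw hwN
  have l3 : 0 ≤ Real.log w := Real.log_nonneg (by linarith)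
  have hsw : 0 < √w := Real.sqrt_pos.2 hw
  have hww : √w * √w = w := Real.mul_self_sqrt hw.le
  have hx : 0 ≤ N / √w := by positivity
  have c1 : κ * s / Real.log N ≤ N / √w / 128 / Real.log N := by
    refine div_le_div_of_nonneg_right ?_ (by linarith)
    calc κ * s ≤ √(κ0 / 32) / 128 * s := mul_le_mul_of_nonneg_right k3 hs
      _ = √(κ0 / 32) * s / 128 := by ring
      _ ≤ N / √w / 128 := by linarith
  have c2 : N / √w / 128 / Real.log N ≤ N / √w / (64 * (1 + Real.log w)) := by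
    rw [div_div]
    refine div_le_div_of_nonneg_left hx (by linarith) ?_
    linarith
  have c3 : N / √w ≤ 2 * (R * √w) := by
    rw [div_le_iff₀ hsw]
    calc N ≤ 2 * R * w := hR
      _ = 2 * R * (√w * √w) := by rw [hww]
      _ = 2 * (R * √w) * √w := by ring
  have c4 : N / √w / (64 * (1 + Real.log w)) ≤ 2 * (R * √w) / (64 * (1 + Real.log w)) :=
    div_le_div_of_nonneg_right c3 (by linarith)
  have c5 : 2 * (R * √w) / (64 * (1 + Real.log w)) = 1 / 4 * (R * √w / (8 * (1 + Real.log w))) := by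
    have : (1 + Real.log w) ≠ 0 := by linarith
    field_simp
    ring
  calc _ ≤ _ := c1
    _ ≤ _ := c2
    _ ≤ _ := c4
    _ = _ := c5

/-- The general lower bound: for every sequence of real numbers `u` there is a smooth function `g` with small
derivatives of the orders `1, ..., P` such that the exponential sum with the phases `u n + g n` is large. -/
theorem lowerG {P : ℕ} (hP : 2 ≤ P) :
    ∃ κ : ℝ, 0 < κ ∧ ∀ (N : ℕ) (F : ℝ) (u : ℕ → ℝ), 1 / κ ≤ N → N / κ ≤ F →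
      ∃ g : ℝ → ℝ, ContDiff ℝ (⊤ : ℕ∞) g ∧
        (∀ j < P, ∀ x ∈ Set.Icc (N : ℝ) (2 * N),
          |iteratedDeriv (j + 1) g x| ≤ F / (N : ℝ) ^ (j + 1)) ∧
        κ * size P N F / Real.log N ≤ ‖∑ n ∈ Icc N (2 * N), ex (u n + g n)‖ := by
  obtain ⟨φ, hφ⟩ := exists_bump
  obtain ⟨κ0, hκ0, hκ1, hclass⟩ := pert_bound P hφ
  have hs0 : 0 < √(κ0 / 32) := Real.sqrt_pos.2 (by positivity)
  refine ⟨min (1 / 16) (min κ0 (√(κ0 / 32) / 128)), lt_min (by norm_num) (lt_min hκ0 (by positivity)),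
    fun N F u hN hF => ?_⟩
  obtain ⟨κ, hκdef⟩ : ∃ κ, κ = min (1 / 16) (min κ0 (√(κ0 / 32) / 128)) := ⟨_, rfl⟩
  rw [← hκdef] at hN hF ⊢
  have hκ : 0 < κ := by
    rw [hκdef]
    exact lt_min (by norm_num) (lt_min hκ0 (by positivity))
  have k1 : κ ≤ 1 / 16 := by
    rw [hκdef]
    exact min_le_left _ _
  have k2 : κ ≤ κ0 := by
    rw [hκdef]
    exact (min_le_right _ _).trans (min_le_left _ _)
  have k3 : κ ≤ √(κ0 / 32) / 128 := by
    rw [hκdef]
    exact (min_le_right _ _).trans (min_le_right _ _)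
  have hN16 : (16 : ℝ) ≤ N := by
    refine le_trans ?_ hN
    rw [le_div_iff₀ hκ]
    linarith
  have hN0 : (0 : ℝ) < N := by linarith
  have hFN : (N : ℝ) ≤ κ0 * F := by
    have h1 : (N : ℝ) ≤ F * κ := by rwa [div_le_iff₀ hκ] at hF
    have h2 : 0 ≤ F := by
      by_contra h
      have : F * κ < 0 := mul_neg_of_neg_of_pos (not_le.1 h) hκ
      linarith
    calc (N : ℝ) ≤ F * κ := h1
      _ ≤ F * κ0 := mul_le_mul_of_nonneg_left k2 h2
      _ = κ0 * F := mul_comm _ _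
  have hK0 : 0 < κ0 * F := by linarith
  have hF0 : 0 < F := by
    rcases (mul_pos_iff.1 hK0) with h | h
    · exact h.2
    · linarith [h.1]
  have hP0 : (0 : ℝ) < P := by
    have : 0 < P := by omega
    exact_mod_cast this
  -- the length of the blocks
  obtain ⟨q, hq⟩ : ∃ q : ℝ, q = (κ0 * F) ^ (1 / (P : ℝ)) := ⟨_, rfl⟩
  have hq1 : 1 ≤ q := by
    rw [hq]
    exact Real.one_le_rpow (by linarith) (by positivity)
  have hqP : q ^ P = κ0 * F := by
    rw [hq, one_div]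
    exact Real.rpow_inv_natCast_pow hK0.le (by omega)
  obtain ⟨W, hW⟩ : ∃ W : ℝ, W = max (max 16 (N / q)) ((N : ℝ) ^ 2 / (κ0 * F)) := ⟨_, rfl⟩
  have hW16 : 16 ≤ W := by
    rw [hW]
    exact (le_max_left _ _).trans (le_max_left _ _)
  have hWq : N / q ≤ W := by
    rw [hW]
    exact (le_max_right _ _).trans (le_max_left _ _)
  have hWF : (N : ℝ) ^ 2 / (κ0 * F) ≤ W := by
    rw [hW]
    exact le_max_right _ _
  have hWN : W ≤ N := by
    rw [hW]
    refine max_le (max_le hN16 ?_) ?_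
    · rw [div_le_iff₀ (by linarith)]
      nlinarith
    · rw [div_le_iff₀ hK0]
      nlinarith
  obtain ⟨w, hw⟩ : ∃ w : ℕ, w = ⌈W⌉₊ := ⟨_, rfl⟩
  have hWw : W ≤ w := by
    rw [hw]
    exact Nat.le_ceil _
  have hw2 : (w : ℝ) ≤ 2 * W := by
    have : (w : ℝ) < W + 1 := by
      rw [hw]
      exact Nat.ceil_lt_add_one (by linarith)
    linarith
  have hwN : w ≤ N := by
    rw [hw]
    exact Nat.ceil_le.2 hWN
  have hw16 : 16 ≤ w := by
    have : (16 : ℝ) ≤ w := hW16.trans hWw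
    exact_mod_cast this
  have hw0 : (0 : ℝ) < w := by linarith
  have hNw : ((N : ℝ) / w) ^ P ≤ κ0 * F := by
    rw [← hqP]
    refine pow_le_pow_left₀ (by positivity) ?_ P
    rw [div_le_iff₀ hw0]
    have h1 : (N : ℝ) ≤ W * q := by rwa [div_le_iff₀ (by linarith)] at hWq
    nlinarith
  obtain ⟨Γ, hΓdef⟩ : ∃ Γ : ℝ, Γ = κ0 * F / (N : ℝ) ^ 2 := ⟨_, rfl⟩
  have hΓ : 0 < Γ := by
    rw [hΓdef]
    positivity
  have hwΓ : 1 ≤ w * Γ := by
    have h1 : (N : ℝ) ^ 2 ≤ w * (κ0 * F) := by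
      have := hWF.trans hWw
      rwa [div_le_iff₀ hK0] at this
    rw [hΓdef, ← mul_div_assoc, le_div_iff₀ (by positivity), one_mul]
    exact h1
  -- the number of blocks
  obtain ⟨R, hR⟩ : ∃ R : ℕ, R = N / w := ⟨_, rfl⟩
  have hRw : R * w ≤ N := by
    rw [hR]
    exact Nat.div_mul_le_self N w
  have hR1 : 1 ≤ R := by
    rw [hR]
    exact (Nat.le_div_iff_mul_le (by omega)).2 (by omega)
  have hRN : (N : ℝ) ≤ 2 * R * w := by
    have h1 : N < w * (R + 1) := by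
      rw [hR]
      exact Nat.lt_mul_div_succ N (by omega)
    have h2 : (N : ℝ) < w * (R + 1) := by exact_mod_cast h1
    have h3 : (1 : ℝ) ≤ R := by exact_mod_cast hR1
    nlinarith
  obtain ⟨v, hv⟩ : ∃ v : ℝ → ℝ, ∀ n : ℕ, v n = u n := ⟨fun x => u ⌊x⌋₊, fun n => by simp⟩
  have hb : ∀ m : ℕ, w ≤ 4 * m → 4 * m ≤ 3 * w → 1 / 2 * φ ((m : ℝ) / w) = 1 / 2 := by
    intro m h1 h2
    have h3 : (w : ℝ) ≤ 4 * m := by exact_mod_cast h1
    have h4 : (4 : ℝ) * m ≤ 3 * w := by exact_mod_cast h2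
    rw [hφ.one _ (by
      rw [div_le_div_iff₀ (by norm_num) hw0]
      linarith) (by
      rw [div_le_div_iff₀ hw0 (by norm_num)]
      linarith), mul_one]
  obtain ⟨β, γ, hβ0, hβ1, hγ0, hγ1, hpick⟩ := pick (fun n => ex (v n))
    (fun n => norm_ex _) (fun m => 1 / 2 * φ ((m : ℝ) / w)) N R hw16 hb hΓ hwΓ
  obtain ⟨S, hS⟩ := decomp hφ (v) N (w := w) (R := R) (by omega) hRw β γ
  obtain ⟨I, hI, hsel⟩ := select R (fun i => T (fun m => ex (v ((N + i * w + m : ℕ) : ℝ)) *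
    (ex (1 / 2 * φ ((m : ℝ) / w)) - 1)) (N + i * w) w β γ) S
  refine ⟨fun x => β * x + γ * x ^ 2 + gI φ N w I x,
    (hclass N w F β γ I (by omega) hwN hFN hβ0 hβ1 hγ0 (by
      rw [← hΓdef]
      exact hγ1) hNw).1, (hclass N w F β γ I (by omega) hwN hFN hβ0 hβ1 hγ0 (by
      rw [← hΓdef]
      exact hγ1) hNw).2, ?_⟩
  have hsum : ∑ n ∈ Icc N (2 * N), ex (v n + β * n +
      γ * (n : ℝ) ^ 2 + gI φ N w I n) = S + ∑ i ∈ I, T (fun m => ex (v ((N + i * w + m : ℕ) : ℝ)) *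
    (ex (1 / 2 * φ ((m : ℝ) / w)) - 1)) (N + i * w) w β γ := by
    exact hS I hI
  have hge : 1 / 4 * ((R : ℝ) * √w / (8 * (1 + Real.log w))) ≤
      ‖∑ n ∈ Icc N (2 * N), ex (v n + β * n +
      γ * (n : ℝ) ^ 2 + gI φ N w I n)‖ := by
    rw [hsum]
    refine le_trans ?_ hsel
    exact mul_le_mul_of_nonneg_left hpick (by norm_num)
  have hfinal : ∑ n ∈ Icc N (2 * N), ex (u n + (β * (n : ℝ) + γ * (n : ℝ) ^ 2 + gI φ N w I n)) =
      ∑ n ∈ Icc N (2 * N), ex (v n + β * n + γ * (n : ℝ) ^ 2 + gI φ N w I n) := by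
    refine Finset.sum_congr rfl fun n _ => ?_
    congr 1
    rw [hv]
    ring
  rw [hfinal]
  refine le_trans ?_ hge
  have hsz := low_size hκ0 hκ1 hF0 (by linarith : (0:ℝ) < W) hN0 hP0 (by
    rw [← hq]
    exact hW) (by omega) hw0 hw2
  exact low_fin hN16 hw0 (by exact_mod_cast hwN) (by exact_mod_cast hw16) (low_size_nonneg hN0 hF0) hκ k3 hRN hsz

end FD39
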