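import Pool.Agent.H39.FD.Defs
import Pool.Agent.H39.FD.Low

/-!
ROW Nec (project MP_493793_FD, about 110 lines): necessary conditions for exponent pairs.

PROOF. pair_alpha: suppose `δ = min (min (α / 2) (1 / 2 + α / (2 P))) 1 - ((α - 1) p + q + 1 / 2) > 0`; `K` for `ε = δ / (2 α)`; `κ` from `lower` (file Low). For natural `N → ∞` let `F = N ^ α` (real power): `1 / κ ≤ N`, `2 ≤ N` and `N / κ ≤ N ^ α` hold for large `N` (`N ^ (α - 1) → ∞`). `y = F N ^ (σ - 1)`, `y N ^ (1 - σ) = F ≥ N`. The `f` of `lower` and the pair inequality with `N' = 2 N`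
(`⌈(N : ℝ)⌉₊ = N`, `⌊2 * (N : ℝ)⌋₊ = 2 N`) give `κ size / log N ≤ K F ^ p N ^ (q - p + 1 / 2) F ^ ε = K N ^ ((α - 1) p + q + 1 / 2 + δ / 2)`, and `size P N (N ^ α) = N ^ (min (min (α / 2) (1 / 2 + α / (2 P))) 1)` (monotone map `t ↦ N ^ t` commutes with `min`). So `κ N ^ (δ / 2) ≤ K log N` for all large `N`, impossible (`isLittleO_log_rpow_atTop` or
`Real.log_le_rpow_div`: `log N ≤ N ^ (δ / 4) / (δ / 4)`).
pair_necessary from pair_alpha: `α = P / (P - 1)`: all of `α / 2`, `1 / 2 + α / (2 P)` equal `P / (2 (P - 1)) ≤ 1`, giving `1 / (2 (P - 1)) ≤ p / (P - 1) + q`. `α = P`: `1 ≤ (P - 1) p + q + 1 / 2` (`P / 2 ≥ 1`). `q ≥ 0`: for `1 < α ≤ P / (P - 1)`: `α / 2 ≤ (α - 1) p + q + 1 / 2`, i.e. `(α - 1) (1 / 2 - p) ≤ q`, let `α → 1` (if `q < 0` choose `α - 1` small). `p ≥ 0`: for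
`α ≥ P`: `1 / 2 ≤ (α - 1) p + q`, if `p < 0` choose `α` large.
-/

set_option autoImplicit false

namespace FD39

open Finset

theorem Nec_size {P N : ℕ} {α M : ℝ} (hN : (1 : ℝ) ≤ N) (h1 : M ≤ α / 2)
    (h2 : M ≤ 1 / 2 + α / (2 * P)) (h3 : M ≤ 1) : (N : ℝ) ^ M ≤ size P N ((N : ℝ) ^ α) := by
  have hN0 : (0 : ℝ) < N := by linarith
  have hN0' : (0 : ℝ) ≤ N := hN0.le
  unfold size
  refine le_min (le_min ?_ ?_) ?_
  · rw [Real.sqrt_eq_rpow, ← Real.rpow_mul hN0']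
    refine Real.rpow_le_rpow_of_exponent_le hN ?_
    linarith
  · rw [Real.sqrt_eq_rpow, ← Real.rpow_mul hN0', ← Real.rpow_add hN0]
    refine Real.rpow_le_rpow_of_exponent_le hN (h2.trans (le_of_eq ?_))
    rw [← mul_div_assoc, mul_one]
  · calc (N : ℝ) ^ M ≤ (N : ℝ) ^ (1 : ℝ) := Real.rpow_le_rpow_of_exponent_le hN h3
      _ = N := Real.rpow_one _

theorem pair_alpha {σ c p q : ℝ} (hσ : 0 < σ) (hc : 0 < c) {P : ℕ} (hP : 2 ≤ P)
    (h : IsPairFor σ P c p q) {α : ℝ} (hα : 1 < α) :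
    min (min (α / 2) (1 / 2 + α / (2 * P))) 1 ≤ (α - 1) * p + q + 1 / 2 := by
  by_contra hcon
  rw [not_le] at hcon
  obtain ⟨M, hM⟩ : ∃ M, M = min (min (α / 2) (1 / 2 + α / (2 * P))) 1 := ⟨_, rfl⟩
  rw [← hM] at hcon
  have hM1 : M ≤ α / 2 := by rw [hM]; exact (min_le_left _ _).trans (min_le_left _ _)
  have hM2 : M ≤ 1 / 2 + α / (2 * P) := by rw [hM]; exact (min_le_left _ _).trans (min_le_right _ _)
  have hM3 : M ≤ 1 := by rw [hM]; exact min_le_right _ _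
  obtain ⟨δ, hδ⟩ : ∃ δ, δ = M - ((α - 1) * p + q + 1 / 2) := ⟨_, rfl⟩
  have hδ0 : 0 < δ := by linarith
  have hα0 : 0 < α := by linarith
  obtain ⟨K, hK⟩ := h (δ / (2 * α)) (by positivity)
  obtain ⟨κ, hκ, hlow⟩ := lower hσ hc hP
  have hcc : 0 < κ / (2 * (|K| + 1)) := by positivity
  have e1 : ∀ᶠ N : ℕ in Filter.atTop, 1 / κ ≤ (N : ℝ) :=
    tendsto_natCast_atTop_atTop.eventually_ge_atTop _
  have e2 : ∀ᶠ N : ℕ in Filter.atTop, (2 : ℝ) ≤ (N : ℝ) :=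
    tendsto_natCast_atTop_atTop.eventually_ge_atTop _
  have e3 : ∀ᶠ N : ℕ in Filter.atTop, 1 / κ ≤ (N : ℝ) ^ (α - 1) :=
    ((tendsto_rpow_atTop (by linarith : 0 < α - 1)).comp
      tendsto_natCast_atTop_atTop).eventually_ge_atTop _
  have e4 : ∀ᶠ N : ℕ in Filter.atTop,
      ‖Real.log (N : ℝ)‖ ≤ κ / (2 * (|K| + 1)) * ‖(N : ℝ) ^ (δ / 2)‖ :=
    tendsto_natCast_atTop_atTop.eventually
      ((isLittleO_log_rpow_atTop (by positivity : 0 < δ / 2)).bound hcc)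
  obtain ⟨N, h1, h2, h3, h4⟩ := (e1.and (e2.and (e3.and e4))).exists
  have hN0 : (0 : ℝ) < N := by linarith
  have hN0' : (0 : ℝ) ≤ N := hN0.le
  have hN1 : (1 : ℝ) ≤ N := by linarith
  have hL : 0 < Real.log N := Real.log_pos (by linarith)
  have hF : (N : ℝ) / κ ≤ (N : ℝ) ^ α := by
    have h5 : (N : ℝ) ^ α = N * (N : ℝ) ^ (α - 1) := by
      rw [Real.rpow_sub_one hN0.ne']
      field_simp
    rw [h5, div_eq_mul_one_div]
    exact mul_le_mul_of_nonneg_left h3 hN0'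
  have hFN : (N : ℝ) ≤ (N : ℝ) ^ α := by
    calc (N : ℝ) = (N : ℝ) ^ (1 : ℝ) := (Real.rpow_one _).symm
      _ ≤ (N : ℝ) ^ α := Real.rpow_le_rpow_of_exponent_le hN1 hα.le
  obtain ⟨f, hf, hS⟩ := hlow N ((N : ℝ) ^ α) h1 hF
  have hy : (N : ℝ) ^ α * (N : ℝ) ^ (σ - 1) * (N : ℝ) ^ (1 - σ) = (N : ℝ) ^ α := by
    rw [mul_assoc, ← Real.rpow_add hN0, show σ - 1 + (1 - σ) = 0 by ring, Real.rpow_zero, mul_one]
  have h6 := hK (N : ℝ) (2 * N) ((N : ℝ) ^ α * (N : ℝ) ^ (σ - 1)) f h2 (by linarith) le_rfl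
    (by rw [hy]; exact hFN) hf
  rw [hy] at h6
  have h7 : ⌈(N : ℝ)⌉₊ = N := Nat.ceil_natCast N
  have h8 : ⌊2 * (N : ℝ)⌋₊ = 2 * N := by
    have h9 : 2 * (N : ℝ) = ((2 * N : ℕ) : ℝ) := by push_cast; ring
    rw [h9, Nat.floor_natCast]
  rw [h7, h8] at h6
  have h10 : K * ((N : ℝ) ^ α) ^ p * (N : ℝ) ^ (q - p + 1 / 2) * ((N : ℝ) ^ α) ^ (δ / (2 * α)) =
      K * (N : ℝ) ^ (M - δ / 2) := by
    rw [← Real.rpow_mul hN0', ← Real.rpow_mul hN0', mul_assoc, mul_assoc, ← Real.rpow_add hN0,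
      ← Real.rpow_add hN0]
    congr 2
    have h11 : α * (δ / (2 * α)) = δ / 2 := by
      field_simp
    rw [h11]
    linarith
  rw [h10] at h6
  have h12 := Nec_size (P := P) hN1 hM1 hM2 hM3
  have h13 : κ * (N : ℝ) ^ M / Real.log N ≤ K * (N : ℝ) ^ (M - δ / 2) := by
    refine le_trans ?_ (hS.trans h6)
    refine div_le_div_of_nonneg_right ?_ hL.le
    exact mul_le_mul_of_nonneg_left h12 hκ.le
  rw [div_le_iff₀ hL] at h13
  have h14 : (N : ℝ) ^ M = (N : ℝ) ^ (M - δ / 2) * (N : ℝ) ^ (δ / 2) := by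
    rw [← Real.rpow_add hN0]
    congr 1
    ring
  have hpos : 0 < (N : ℝ) ^ (M - δ / 2) := Real.rpow_pos_of_pos hN0 _
  have hpos2 : 0 < (N : ℝ) ^ (δ / 2) := Real.rpow_pos_of_pos hN0 _
  have h15 : κ * (N : ℝ) ^ (δ / 2) ≤ |K| * Real.log N := by
    have h16 : (N : ℝ) ^ (M - δ / 2) * (κ * (N : ℝ) ^ (δ / 2)) ≤
        (N : ℝ) ^ (M - δ / 2) * (K * Real.log N) := by
      calc (N : ℝ) ^ (M - δ / 2) * (κ * (N : ℝ) ^ (δ / 2)) = κ * (N : ℝ) ^ M := by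
            rw [h14]; ring
        _ ≤ K * (N : ℝ) ^ (M - δ / 2) * Real.log N := h13
        _ = _ := by ring
    have h17 := le_of_mul_le_mul_left h16 hpos
    exact h17.trans (mul_le_mul_of_nonneg_right (le_abs_self K) hL.le)
  rw [Real.norm_of_nonneg hL.le, Real.norm_of_nonneg hpos2.le] at h4
  have hK0 : 0 ≤ |K| := abs_nonneg K
  have h18 : |K| * Real.log N ≤ |K| * (κ / (2 * (|K| + 1)) * (N : ℝ) ^ (δ / 2)) :=
    mul_le_mul_of_nonneg_left h4 hK0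
  have h19 : |K| * (κ / (2 * (|K| + 1)) * (N : ℝ) ^ (δ / 2)) ≤ κ / 2 * (N : ℝ) ^ (δ / 2) := by
    rw [← mul_assoc]
    refine mul_le_mul_of_nonneg_right ?_ hpos2.le
    rw [← mul_div_assoc, div_le_div_iff₀ (by positivity) (by positivity)]
    nlinarith
  have h20 : 0 < κ * (N : ℝ) ^ (δ / 2) := by positivity
  linarith

theorem pair_necessary {σ c p q : ℝ} (hσ : 0 < σ) (hc : 0 < c) {P : ℕ} (hP : 2 ≤ P)
    (h : IsPairFor σ P c p q) :
    0 ≤ p ∧ 0 ≤ q ∧ 1 / 2 ≤ p + (P - 1) * q ∧ 1 / 2 ≤ (P - 1) * p + q := by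
  have hP' : (2 : ℝ) ≤ P := by exact_mod_cast hP
  have hP0 : (0 : ℝ) < P := by linarith
  have hP1 : (0 : ℝ) < (P : ℝ) - 1 := by linarith
  have big : ∀ α : ℝ, (P : ℝ) ≤ α → 1 / 2 ≤ (α - 1) * p + q := by
    intro α hα
    have h1 := pair_alpha hσ hc hP h (by linarith : 1 < α)
    have h2 : 1 ≤ min (min (α / 2) (1 / 2 + α / (2 * P))) 1 := by
      refine le_min (le_min (by linarith) ?_) le_rfl
      have h3 : 1 / 2 ≤ α / (2 * P) := by
        rw [div_le_div_iff₀ (by norm_num) (by positivity)]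
        linarith
      linarith
    linarith
  have small : ∀ t : ℝ, 0 < t → t * (P - 1) ≤ 1 → t * (1 / 2 - p) ≤ q := by
    intro t ht htP
    have h1 := pair_alpha hσ hc hP h (by linarith : 1 < 1 + t)
    have h2 : (1 + t) / 2 ≤ min (min ((1 + t) / 2) (1 / 2 + (1 + t) / (2 * P))) 1 := by
      refine le_min (le_min le_rfl ?_) ?_
      · have h3 : t / 2 ≤ (1 + t) / (2 * P) := by
          rw [div_le_div_iff₀ (by norm_num) (by positivity)]
          nlinarith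
        linarith
      · nlinarith
    have h4 : (1 + t - 1) * p = t * p := by ring
    rw [h4] at h1
    linarith
  refine ⟨?_, ?_, ?_, ?_⟩
  · by_contra hp
    rw [not_le] at hp
    have hp0 : 0 < -p := by linarith
    have h1 := big (max P (1 + (|q| + 1) / (-p))) (le_max_left _ _)
    have h2 : (|q| + 1) / (-p) ≤ max (P : ℝ) (1 + (|q| + 1) / (-p)) - 1 := by
      have := le_max_right (P : ℝ) (1 + (|q| + 1) / (-p))
      linarith
    have h3 : (max (P : ℝ) (1 + (|q| + 1) / (-p)) - 1) * p ≤ (|q| + 1) / (-p) * p :=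
      mul_le_mul_of_nonpos_right h2 hp.le
    have h4 : (|q| + 1) / (-p) * p = -(|q| + 1) := by
      rw [div_neg, neg_mul, div_mul_cancel₀ _ hp.ne]
    have h5 := le_abs_self q
    linarith
  · by_contra hq
    rw [not_le] at hq
    have ht0 : 0 < min (1 / ((P : ℝ) - 1)) (-q / (2 * (|1 / 2 - p| + 1))) := by
      refine lt_min (by positivity) (div_pos (by linarith) (by positivity))
    have h1 := small _ ht0 (by
      calc min (1 / ((P : ℝ) - 1)) (-q / (2 * (|1 / 2 - p| + 1))) * (P - 1)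
          ≤ 1 / ((P : ℝ) - 1) * (P - 1) := mul_le_mul_of_nonneg_right (min_le_left _ _) hP1.le
        _ = 1 := by field_simp)
    have h2 : -(min (1 / ((P : ℝ) - 1)) (-q / (2 * (|1 / 2 - p| + 1))) * |1 / 2 - p|) ≤
        min (1 / ((P : ℝ) - 1)) (-q / (2 * (|1 / 2 - p| + 1))) * (1 / 2 - p) := by
      rw [← mul_neg]
      exact mul_le_mul_of_nonneg_left (neg_abs_le _) ht0.le
    have h3 : min (1 / ((P : ℝ) - 1)) (-q / (2 * (|1 / 2 - p| + 1))) * |1 / 2 - p| ≤ -q / 2 := by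
      have hA : 0 ≤ |1 / 2 - p| := abs_nonneg _
      calc min (1 / ((P : ℝ) - 1)) (-q / (2 * (|1 / 2 - p| + 1))) * |1 / 2 - p|
          ≤ -q / (2 * (|1 / 2 - p| + 1)) * |1 / 2 - p| :=
            mul_le_mul_of_nonneg_right (min_le_right _ _) hA
        _ ≤ -q / 2 := by
            rw [div_mul_eq_mul_div, div_le_div_iff₀ (by positivity) (by norm_num)]
            nlinarith
    linarith
  · have h1 := small (1 / ((P : ℝ) - 1)) (by positivity) (le_of_eq (by field_simp))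
    rw [div_mul_eq_mul_div, one_mul, div_le_iff₀ hP1] at h1
    linarith
  · have h1 := big P le_rfl
    linarith

end FD39
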