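import Pool.Agent.H39.FD.Bmp

/-! Module Prt (project MP_493793_FD): derivatives of the perturbation. -/

set_option autoImplicit false

namespace FD39

open Finset

theorem Prt_poly (β γ : ℝ) (j : ℕ) (x : ℝ) :
    iteratedDeriv (j + 1) (fun x : ℝ => β * x + γ * x ^ 2) x =
      if j = 0 then β + 2 * γ * x else if j = 1 then 2 * γ else 0 := by
  have h1 : deriv (fun x : ℝ => β * x + γ * x ^ 2) = fun x => β + 2 * γ * x := by
    funext x
    have h2 : HasDerivAt (fun x : ℝ => β * x + γ * x ^ 2) (β * 1 + γ * ((2 : ℕ) * x ^ (2 - 1))) x :=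
      ((hasDerivAt_id x).const_mul β).add ((hasDerivAt_pow 2 x).const_mul γ)
    rw [h2.deriv]
    norm_num
    ring
  have h3 : deriv (fun x : ℝ => β + 2 * γ * x) = fun _ => 2 * γ := by
    funext x
    have h2 : HasDerivAt (fun x : ℝ => β + 2 * γ * x) (2 * γ * 1) x :=
      ((hasDerivAt_id x).const_mul (2 * γ)).const_add β
    rw [h2.deriv, mul_one]
  rw [iteratedDeriv_succ', h1]
  rcases j with _ | j
  · simp
  · rw [iteratedDeriv_succ', h3, if_neg (by omega)]
    rcases j with _ | j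
    · simp
    · rw [if_neg (by omega), iteratedDeriv_succ']
      simp

theorem Prt_split {φ : ℝ → ℝ} (hφ : IsBump φ) (N w : ℕ) (β γ : ℝ) (I : Finset ℕ) (j : ℕ) (x : ℝ) :
    iteratedDeriv (j + 1) (fun x => β * x + γ * x ^ 2 + gI φ N w I x) x =
      iteratedDeriv (j + 1) (fun x : ℝ => β * x + γ * x ^ 2) x +
        iteratedDeriv (j + 1) (gI φ N w I) x := by
  have h1 : ContDiff ℝ (⊤ : ℕ∞) (fun x : ℝ => β * x + γ * x ^ 2) :=
    (contDiff_const.mul contDiff_id).add (contDiff_const.mul (contDiff_id.pow 2))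
  have h2 := gI_contDiff hφ N w I
  have e : (fun x => β * x + γ * x ^ 2 + gI φ N w I x) =
      (fun x : ℝ => β * x + γ * x ^ 2) + gI φ N w I := rfl
  rw [e, iteratedDeriv_add (h1.contDiffAt.of_le (by exact_mod_cast le_top))
    (h2.contDiffAt.of_le (by exact_mod_cast le_top))]

theorem pert_bound (P : ℕ) {φ : ℝ → ℝ} (hφ : IsBump φ) :
    ∃ κ : ℝ, 0 < κ ∧ κ ≤ 1 ∧ ∀ (N w : ℕ) (D β γ : ℝ) (I : Finset ℕ), 1 ≤ w → w ≤ N →
      (N : ℝ) ≤ κ * D → 0 ≤ β → β < 1 → 0 ≤ γ → γ ≤ κ * D / (N : ℝ) ^ 2 →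
      ((N : ℝ) / w) ^ P ≤ κ * D →
      ContDiff ℝ (⊤ : ℕ∞) (fun x => β * x + γ * x ^ 2 + gI φ N w I x) ∧
        ∀ j < P, ∀ x ∈ Set.Icc (N : ℝ) (2 * N),
          |iteratedDeriv (j + 1) (fun x => β * x + γ * x ^ 2 + gI φ N w I x) x| ≤
            D / (N : ℝ) ^ (j + 1) := by
  obtain ⟨B, hB0, hB⟩ := gI_bound hφ
  have hS : 0 ≤ ∑ j ∈ range P, B (j + 1) := Finset.sum_nonneg fun j _ => (hB0 (j + 1)).le
  set S : ℝ := ∑ j ∈ range P, B (j + 1) with hSdef
  have hκ0 : 0 < 1 / (8 * (1 + S)) := by positivity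
  refine ⟨1 / (8 * (1 + S)), hκ0, ?_, ?_⟩
  · rw [div_le_one (by positivity)]
    linarith
  intro N w D β γ I hw hwN hND hβ0 hβ1 hγ0 hγ hP
  refine ⟨((contDiff_const.mul contDiff_id).add (contDiff_const.mul (contDiff_id.pow 2))).add
    (gI_contDiff hφ N w I), ?_⟩
  intro j hj x hx
  set κ : ℝ := 1 / (8 * (1 + S)) with hκ
  have hκS : 8 * κ * (1 + S) = 1 := by rw [hκ]; field_simp
  have hBj : B (j + 1) ≤ S := Finset.single_le_sum (f := fun j => B (j + 1))
    (fun j _ => (hB0 (j + 1)).le) (Finset.mem_range.2 hj)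
  have hN1 : (1 : ℝ) ≤ N := by exact_mod_cast (hw.trans hwN)
  have hN0 : (0 : ℝ) < N := by linarith
  have hw0 : (0 : ℝ) < w := by exact_mod_cast hw
  have hwN' : (w : ℝ) ≤ N := by exact_mod_cast hwN
  have hκD : 1 ≤ κ * D := hN1.trans hND
  have hpow : (0 : ℝ) < (N : ℝ) ^ (j + 1) := by positivity
  -- polynomial part
  have hpoly : |iteratedDeriv (j + 1) (fun x : ℝ => β * x + γ * x ^ 2) x| ≤
      5 * (κ * D) / (N : ℝ) ^ (j + 1) := by
    rw [Prt_poly, le_div_iff₀ hpow]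
    have hx0 : 0 < x := lt_of_lt_of_le hN0 hx.1
    have hγ' : γ * (N : ℝ) ^ 2 ≤ κ * D := by
      rw [le_div_iff₀ (by positivity)] at hγ
      exact hγ
    split_ifs with h1 h2
    · subst h1
      rw [abs_of_nonneg (by positivity), zero_add, pow_one]
      have h3 : 2 * γ * x * N ≤ 4 * (γ * (N : ℝ) ^ 2) := by
        have : 2 * γ * x * N ≤ 2 * γ * (2 * N) * N := by
          apply mul_le_mul_of_nonneg_right _ hN0.le
          exact mul_le_mul_of_nonneg_left hx.2 (by positivity)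
        nlinarith
      have h4 : β * N ≤ κ * D := by nlinarith
      nlinarith
    · subst h2
      rw [abs_of_nonneg (by positivity)]
      have : 2 * γ * (N : ℝ) ^ (1 + 1) = 2 * (γ * (N : ℝ) ^ 2) := by norm_num; ring
      rw [this]
      linarith
    · rw [abs_zero, zero_mul]
      linarith
  have hbump : |iteratedDeriv (j + 1) (gI φ N w I) x| ≤
      B (j + 1) * (κ * D) / (N : ℝ) ^ (j + 1) := by
    refine (hB (j + 1) N w I x (by exact_mod_cast hw)).trans ?_
    rw [mul_div_assoc]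
    apply mul_le_mul_of_nonneg_left _ (hB0 (j + 1)).le
    rw [le_div_iff₀ hpow]
    have h1 : ((w : ℝ)⁻¹) ^ (j + 1) * (N : ℝ) ^ (j + 1) = ((N : ℝ) / w) ^ (j + 1) := by
      rw [← mul_pow, inv_mul_eq_div]
    rw [h1]
    have h2 : 1 ≤ (N : ℝ) / w := by rwa [one_le_div hw0]
    exact (pow_le_pow_right₀ h2 (by omega)).trans hP
  rw [Prt_split hφ]
  refine (abs_add_le _ _).trans ((add_le_add hpoly hbump).trans ?_)
  rw [← add_div]
  apply div_le_div_of_nonneg_right _ hpow.le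
  have hD0 : 0 < D := by
    by_contra h
    push Not at h
    have : κ * D ≤ 0 := mul_nonpos_of_nonneg_of_nonpos hκ0.le h
    linarith
  have h5 : 5 * κ + B (j + 1) * κ ≤ 1 := by
    have h6 : B (j + 1) * κ ≤ S * κ := mul_le_mul_of_nonneg_right hBj hκ0.le
    have h7 : 0 ≤ S * κ := by positivity
    nlinarith
  calc 5 * (κ * D) + B (j + 1) * (κ * D) = (5 * κ + B (j + 1) * κ) * D := by ring
    _ ≤ 1 * D := mul_le_mul_of_nonneg_right h5 hD0.le
    _ = D := one_mul D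

end FD39
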