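import Pool.Agent.H39.FD.Fin

/-! Module Stb (project MP_493793_FD): the stability of square root cancellation. -/

set_option autoImplicit false

namespace FD39

open Finset Pool.Agent.H76.EP

theorem Stb_size {P : ℕ} (hP : 1 ≤ P) {N D r : ℝ} (hN : 0 ≤ N) (hD : 0 ≤ D) (hr : 1 ≤ r) :
    size P N (r * D) ≤ r * size P N D := by
  have h1 := LowC_size hP hN (mul_nonneg (by linarith : (0 : ℝ) ≤ r) hD) (r := r⁻¹) (by positivity)
    (inv_le_one_of_one_le₀ hr)
  rw [inv_mul_cancel_left₀ (by positivity)] at h1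
  rw [inv_mul_le_iff₀ (by positivity)] at h1
  exact h1

theorem Stb_rf (j : ℕ) : (2 : ℝ) ^ (j + 2) < 9 * rf 1 j := by
  have h : ∀ j : ℕ, (rf 1 j : ℝ) = (j.factorial : ℝ) := by
    intro j
    induction j with
    | zero => simp [rf_zero]
    | succ j ih =>
      rw [rf_succ, ih, Nat.factorial_succ]
      push_cast
      ring
  rw [h]
  have h2 : ∀ j : ℕ, 2 ≤ j → (2 : ℝ) ^ (j + 2) ≤ 8 * (j.factorial : ℝ) := by
    intro j hj
    induction j, hj using Nat.le_induction with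
    | base => norm_num [Nat.factorial]
    | succ j hj ih =>
      rw [Nat.factorial_succ, show j + 1 + 2 = (j + 2) + 1 by ring, pow_succ]
      push_cast
      have h3 : (2 : ℝ) ≤ j := by exact_mod_cast hj
      have h4 : (0 : ℝ) < (j.factorial : ℝ) := by positivity
      nlinarith
  rcases j with _ | _ | j
  · norm_num
  · norm_num
  · have h3 := h2 (j + 2) (by omega)
    have h4 : (0 : ℝ) < ((j + 2).factorial : ℝ) := by positivity
    have h5 : ((j + 1 + 1).factorial : ℝ) = ((j + 2).factorial : ℝ) := rfl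
    have h6 : (2 : ℝ) ^ (j + 1 + 1 + 2) = (2 : ℝ) ^ (j + 2 + 2) := rfl
    rw [h5, h6]
    linarith

/-- For the phase `9 D log x` every perturbation with derivatives at most `D N ^ (-j)` keeps the bound. -/
theorem stable_upper {P : ℕ} (hP : 2 ≤ P) :
    ∃ K : ℝ, ∀ (N : ℕ) (D : ℝ), 2 ≤ N → (N : ℝ) ≤ D →
      ∀ g : ℝ → ℝ, ContDiff ℝ (⊤ : ℕ∞) g →
        (∀ j < P, ∀ x ∈ Set.Icc (N : ℝ) (2 * N),
          |iteratedDeriv (j + 1) g x| ≤ D / (N : ℝ) ^ (j + 1)) →
        ‖∑ n ∈ Icc N (2 * N), ex (9 * D * Real.log n + g n)‖ ≤ K * size (min P 3) N D := by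
  obtain ⟨K, hK⟩ := upper_min (σ := 1) (c := 1 / 2) one_pos (by norm_num) (by norm_num) hP
  refine ⟨|K| * 9, fun N D hN hD g hg hgd => ?_⟩
  have hN2 : (2 : ℝ) ≤ N := by exact_mod_cast hN
  have hN0 : (0 : ℝ) < N := by linarith
  have hD0 : 0 < D := by linarith
  set y : ℝ := 9 * D with hy
  have hy0 : 0 < y := by positivity
  have hf0 : ∀ x : ℝ, f0 1 y x = y * Real.log x := fun x => by simp [f0]
  have hclass : GKClass N P 1 y (1 / 2) (fun x => f0 1 y x + g x) := by
    refine ⟨?_, ?_⟩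
    · intro x hx
      exact ((f0_contDiffAt 1 y (lt_of_lt_of_le hN0 hx.1)).add hg.contDiffAt).contDiffWithinAt
    · intro j hj x hx
      have hx0 : 0 < x := lt_of_lt_of_le hN0 hx.1
      have hcd : ContDiffAt ℝ (⊤ : ℕ∞) (fun x => f0 1 y x + g x) x :=
        (f0_contDiffAt 1 y hx0).add hg.contDiffAt
      have e1 : iteratedDerivWithin (j + 1) (fun x => f0 1 y x + g x) (Set.Icc (N : ℝ) (2 * N)) x =
          iteratedDeriv (j + 1) (fun x => f0 1 y x + g x) x :=
        iteratedDerivWithin_eq_iteratedDeriv (uniqueDiffOn_Icc (by linarith))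
          (hcd.of_le (by exact_mod_cast le_top)) hx
      have e2 : iteratedDeriv (j + 1) (fun x => f0 1 y x + g x) x =
          iteratedDeriv (j + 1) (f0 1 y) x + iteratedDeriv (j + 1) g x := by
        have e : (fun x => f0 1 y x + g x) = f0 1 y + g := rfl
        rw [e, iteratedDeriv_add ((f0_contDiffAt 1 y hx0).of_le (by exact_mod_cast le_top))
          (hg.contDiffAt.of_le (by exact_mod_cast le_top))]
      have e3 : rising 1 j = rf 1 j := rfl
      rw [e1, e2, iter_f0 1 y j hx0, e3, add_sub_cancel_left]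
      refine lt_of_le_of_lt (hgd j hj x hx) ?_
      have hx1 : x ^ (-1 - (j : ℝ)) = (x ^ (j + 1))⁻¹ := by
        rw [show -1 - (j : ℝ) = -((j + 1 : ℕ) : ℝ) by push_cast; ring, Real.rpow_neg hx0.le,
          Real.rpow_natCast]
      have hxle : x ^ (j + 1) ≤ (2 * (N : ℝ)) ^ (j + 1) := pow_le_pow_left₀ hx0.le hx.2 _
      have hxp : 0 < x ^ (j + 1) := by positivity
      rw [hx1, div_lt_iff₀ (by positivity)]
      have h1 : (N : ℝ) ^ (j + 1) * (2 : ℝ) ^ (j + 1) * (x ^ (j + 1))⁻¹ ≥ 1 := by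
        rw [mul_pow] at hxle
        rw [ge_iff_le, ← div_eq_mul_inv, le_div_iff₀ hxp]
        linarith
      have h2 := Stb_rf j
      have h3 : 0 < rf 1 j := rf_pos one_pos j
      have h4 : 1 / 2 * (rf 1 j * y * (x ^ (j + 1))⁻¹) * (N : ℝ) ^ (j + 1) * (2 : ℝ) ^ (j + 2) =
          (9 * rf 1 j * D) * ((N : ℝ) ^ (j + 1) * (2 : ℝ) ^ (j + 1) * (x ^ (j + 1))⁻¹) := by
        rw [hy, pow_succ (2 : ℝ) (j + 1)]
        ring
      have h5 : D * (2 : ℝ) ^ (j + 2) <
          1 / 2 * (rf 1 j * y * (x ^ (j + 1))⁻¹) * (N : ℝ) ^ (j + 1) * (2 : ℝ) ^ (j + 2) := by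
        rw [h4]
        have h6 : 0 < 9 * rf 1 j * D := by positivity
        calc D * (2 : ℝ) ^ (j + 2) < D * (9 * rf 1 j) := mul_lt_mul_of_pos_left h2 hD0
          _ = 9 * rf 1 j * D * 1 := by ring
          _ ≤ _ := mul_le_mul_of_nonneg_left h1 h6.le
      exact lt_of_mul_lt_mul_right h5 (by positivity)
  have hF : y * (N : ℝ) ^ ((1 : ℝ) - 1) = y := by rw [sub_self, Real.rpow_zero, mul_one]
  have h := hK N (2 * N) y _ hN2 (by linarith) le_rfl (by rw [hF, hy]; linarith) hclass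
  rw [hF] at h
  have e1 : ⌈(N : ℝ)⌉₊ = N := Nat.ceil_natCast N
  have e2 : ⌊2 * (N : ℝ)⌋₊ = 2 * N := by
    rw [show 2 * (N : ℝ) = ((2 * N : ℕ) : ℝ) by push_cast; ring]
    exact Nat.floor_natCast _
  rw [e1, e2] at h
  have e3 : ∑ n ∈ Icc N (2 * N), ex (y * Real.log n + g n) =
      ∑ n ∈ Icc N (2 * N), ex (f0 1 y n + g n) :=
    Finset.sum_congr rfl fun n _ => by rw [hf0]
  rw [e3]
  have hs0 : 0 ≤ size (min P 3) N D := by
    unfold size
    exact le_min (le_min (Real.sqrt_nonneg _) (mul_nonneg (Real.sqrt_nonneg _)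
      (Real.rpow_nonneg hD0.le _))) hN0.le
  have hs : size (min P 3) N y ≤ 9 * size (min P 3) N D :=
    Stb_size (by omega) hN0.le hD0.le (by norm_num)
  have hs1 : 0 ≤ size (min P 3) N y := by
    unfold size
    exact le_min (le_min (Real.sqrt_nonneg _) (mul_nonneg (Real.sqrt_nonneg _)
      (Real.rpow_nonneg hy0.le _))) hN0.le
  calc _ ≤ K * size (min P 3) N y := h
    _ ≤ |K| * size (min P 3) N y := mul_le_mul_of_nonneg_right (le_abs_self K) hs1
    _ ≤ |K| * (9 * size (min P 3) N D) := mul_le_mul_of_nonneg_left hs (abs_nonneg K)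
    _ = |K| * 9 * size (min P 3) N D := by ring

end FD39
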